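import Pool.Agent.H136R4.Stmts

set_option autoImplicit false

namespace Pool.Agent.H136R4

theorem admStmtB : AdmStmt := by
  obtain ⟨D, hDc, hDd⟩ := TopologicalSpace.exists_countable_dense ℂ
  let S : Set ℂ := (D ∩ Metric.ball 0 1) ∪ {0}
  have hSc : S.Countable := (hDc.mono Set.inter_subset_left).union (Set.countable_singleton 0)
  have h0S : (0 : ℂ) ∈ S := Or.inr rfl
  have hSb : ∀ x ∈ S, ‖x‖ < 1 := by
    rintro x (⟨-, hx⟩ | hx)
    · simpa using hx
    · rw [Set.mem_singleton_iff] at hx; rw [hx]; simp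
  have hdense : ∀ x : ℂ, ‖x‖ ≤ 1 → ∀ e : ℝ, 0 < e → ∃ s ∈ S, ‖x - s‖ < e := by
    intro x hx e he
    -- a point of the open disc near x
    set t : ℝ := min (e / 2) (1 / 2) with ht
    have ht0 : 0 < t := by positivity
    have ht1 : t ≤ 1 / 2 := min_le_right _ _
    have ht2 : t ≤ e / 2 := min_le_left _ _
    have hy : ‖x - ((1 - t : ℝ) : ℂ) * x‖ ≤ t := by
      have : x - ((1 - t : ℝ) : ℂ) * x = (t : ℂ) * x := by push_cast; ring
      rw [this, norm_mul, Complex.norm_real, Real.norm_of_nonneg ht0.le]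
      nlinarith
    have hopen : IsOpen (Metric.ball (((1 - t : ℝ) : ℂ) * x) (t / 2)) := Metric.isOpen_ball
    obtain ⟨d, hd1, hd2⟩ := hDd.exists_mem_open hopen ⟨_, Metric.mem_ball_self (by positivity)⟩
    rw [Metric.mem_ball, dist_eq_norm] at hd2
    have hn : ‖((1 - t : ℝ) : ℂ) * x‖ ≤ 1 - t := by
      rw [norm_mul, Complex.norm_real, Real.norm_of_nonneg (by linarith)]
      nlinarith [norm_nonneg x]
    refine ⟨d, Or.inl ⟨hd1, ?_⟩, ?_⟩
    · rw [Metric.mem_ball, dist_zero_right]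
      have := norm_add_le (d - ((1 - t : ℝ) : ℂ) * x) (((1 - t : ℝ) : ℂ) * x)
      rw [sub_add_cancel] at this
      linarith
    · have h3 := norm_sub_le_norm_sub_add_norm_sub x (((1 - t : ℝ) : ℂ) * x) d
      rw [norm_sub_rev (((1 - t : ℝ) : ℂ) * x) d] at h3
      linarith
  have hSinf : S.Infinite := by
    intro hfin
    -- points near 1 : closed set not containing 1
    have hcl : IsClosed S := hfin.isClosed
    have h1 : (1 : ℂ) ∈ closure S := by
      rw [Metric.mem_closure_iff]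
      intro e he
      obtain ⟨s, hs, hse⟩ := hdense 1 (by simp) e he
      exact ⟨s, hs, by rw [dist_eq_norm]; exact hse⟩
    rw [hcl.closure_eq] at h1
    have := hSb 1 h1
    simp at this
  haveI : Countable S := hSc.to_subtype
  haveI : Infinite S := hSinf.to_subtype
  obtain ⟨f⟩ := nonempty_equiv_of_countable (α := ℕ) (β := S)
  let g : ℕ ≃ S := (Equiv.swap 0 (f.symm ⟨0, h0S⟩)).trans f
  refine ⟨fun k => (g k : ℂ), ?_, ?_, ?_, ?_⟩
  · show ((f (Equiv.swap 0 (f.symm ⟨0, h0S⟩) 0) : S) : ℂ) = 0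
    rw [Equiv.swap_apply_left, Equiv.apply_symm_apply]
  · exact Subtype.val_injective.comp g.injective
  · intro k; exact hSb _ (g k).2
  · intro x hx e he
    obtain ⟨s, hs, hse⟩ := hdense x hx e he
    exact ⟨g.symm ⟨s, hs⟩, by rw [Equiv.apply_symm_apply]; exact hse⟩

end Pool.Agent.H136R4
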