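import Pool.Agent.H136R4.Stmts

set_option autoImplicit false

namespace Pool.Agent.H136R4

theorem par_le_self (i : ℕ) : par i ≤ i := by
  unfold par
  split_ifs with h
  · exact Nat.zero_le _
  · have h1 : (Nat.unpair i).2 - 1 < (Nat.unpair i).2 := by omega
    have h2 := Nat.pair_lt_pair_right (Nat.unpair i).1 h1
    rw [Nat.pair_unpair] at h2
    exact h2

theorem sh_norm_le {a : ℕ → ℂ} (ha : Adm a) (i : ℕ) : ‖sh a i‖ ≤ 1 := by
  unfold sh
  split_ifs
  · exact (ha.lt _).le
  · simp

theorem boundStmt : BoundStmt := by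
  intro a ha n v hv i
  induction i using Nat.strong_induction_on with
  | _ i ih =>
    intro hi
    rcases i with _ | j
    · exact hv.1.trans (by norm_num)
    · have h1 := hv.2 j (by omega)
      have h2 : par j ≤ j := par_le_self j
      have h3 := ih (par j) (by omega) (by omega)
      have h4 : ‖v (j + 1)‖ ^ 2 ≤ 3 := by
        rw [← norm_pow, h1]
        refine (norm_sub_le _ _).trans ?_
        linarith [sh_norm_le ha j]
      nlinarith [norm_nonneg (v (j + 1))]

/-- the stages of the extension -/
noncomputable def extW (a : ℕ → ℂ) (s : ℂ → ℂ) (n : ℕ) (u : ℕ → ℂ) : ℕ → ℕ → ℂ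
  | 0 => u
  | m + 1 => Function.update (extW a s n u m) (n + m + 1)
      (s (extW a s n u m (par (n + m)) - sh a (n + m)))

theorem extW_succ (a : ℕ → ℂ) (s : ℂ → ℂ) (n : ℕ) (u : ℕ → ℂ) (m i : ℕ) (hi : i ≤ n + m) :
    extW a s n u (m + 1) i = extW a s n u m i := by
  show Function.update (extW a s n u m) (n + m + 1)
      (s (extW a s n u m (par (n + m)) - sh a (n + m))) i = extW a s n u m i
  rw [Function.update_of_ne (by omega)]

theorem extW_stable (a : ℕ → ℂ) (s : ℂ → ℂ) (n : ℕ) (u : ℕ → ℂ) (m i : ℕ) (hi : i ≤ n + m)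
    (k : ℕ) : extW a s n u (m + k) i = extW a s n u m i := by
  induction k with
  | zero => rfl
  | succ k ih => rw [← Nat.add_assoc, extW_succ a s n u (m + k) i (by omega), ih]

theorem extW_mem (a : ℕ → ℂ) (s : ℂ → ℂ) (hs : ∀ z, s z ^ 2 = z) (n : ℕ) (u : ℕ → ℂ)
    (hu : u ∈ E a n) (m : ℕ) : extW a s n u m ∈ E a (n + m) := by
  induction m with
  | zero => exact hu
  | succ m ih =>
    refine ⟨?_, ?_⟩
    · rw [extW_succ a s n u m 0 (by omega)]
      exact ih.1
    · intro i hi
      have hp : par i ≤ i := par_le_self i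
      rw [extW_succ a s n u m (par i) (by omega)]
      by_cases him : i < n + m
      · rw [extW_succ a s n u m (i + 1) (by omega)]
        exact ih.2 i him
      · have hi' : i = n + m := by omega
        subst hi'
        have h1 : extW a s n u (m + 1) (n + m + 1) =
            s (extW a s n u m (par (n + m)) - sh a (n + m)) := by
          show Function.update (extW a s n u m) (n + m + 1)
            (s (extW a s n u m (par (n + m)) - sh a (n + m))) (n + m + 1) = _
          rw [Function.update_self]
        rw [h1, hs]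

theorem extStmt : ExtStmt := by
  intro a n u hu
  obtain ⟨s, hs⟩ : ∃ s : ℂ → ℂ, ∀ z, s z ^ 2 = z := by
    choose s hs using fun z : ℂ => IsAlgClosed.exists_pow_nat_eq z (n := 2) two_pos
    exact ⟨s, hs⟩
  have hst : ∀ i m : ℕ, i ≤ m → extW a s n u m i = extW a s n u i i := by
    intro i m him
    obtain ⟨k, rfl⟩ := Nat.exists_eq_add_of_le him
    exact extW_stable a s n u i i (by omega) k
  refine ⟨fun i => extW a s n u i i, ⟨?_, ?_⟩, ?_⟩
  · exact hu.1
  · intro i
    have hp : par i ≤ i := par_le_self i
    have h1 := (extW_mem a s hs n u hu (i + 1)).2 i (by omega)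
    rw [hst (par i) (i + 1) (by omega)] at h1
    exact h1
  · intro i hi
    have := extW_stable a s n u 0 i (by omega) i
    rw [Nat.zero_add] at this
    exact this

end Pool.Agent.H136R4
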