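import Pool.Agent.H136R4.Stmts

set_option autoImplicit false

namespace Pool.Agent.H136R4

open MvPolynomial Metric

theorem disc_diffOn_eval {f : ℂ → (Fin 3 → ℂ)} {U : Set ℂ} (hf : DifferentiableOn ℂ f U)
    (p : MvPolynomial (Fin 3) ℂ) : DifferentiableOn ℂ (fun l => eval (f l) p) U := by
  induction p using MvPolynomial.induction_on with
  | C a => simp only [eval_C]; exact differentiableOn_const a
  | add p q hp hq => simp only [map_add]; exact hp.add hq
  | mul_X p i hp =>
    simp only [map_mul, eval_X]
    exact hp.mul ((differentiableOn_pi.mp hf) i)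

theorem discStmt : DiscStmt := by
  intro X hX f hf hH
  have hopen : IsOpen (ball (0 : ℂ) 1) := isOpen_ball
  have hda : ∀ p : MvPolynomial (Fin 3) ℂ, ∀ z ∈ ball (0 : ℂ) 1,
      DifferentiableAt ℂ (fun l => eval (f l) p) z := fun p z hz =>
    (disc_diffOn_eval hf p).differentiableAt (hopen.mem_nhds hz)
  have hzero : ∀ z ∈ ball (0 : ℂ) 1, ∀ p : MvPolynomial (Fin 3) ℂ,
      deriv (fun l => eval (f l) p) z = 0 := by
    intro z hz p
    let D : MvPolynomial (Fin 3) ℂ →ₗ[ℂ] ℂ :=
      { toFun := fun p => deriv (fun l => eval (f l) p) z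
        map_add' := by
          intro p q
          simp only [map_add]
          exact deriv_fun_add (hda p z hz) (hda q z hz)
        map_smul' := by
          intro c p
          simp only [smul_eval, RingHom.id_apply, smul_eq_mul]
          exact deriv_const_mul c (hda p z hz) }
    have hD : D = 0 := by
      apply hX (f z) (hH z hz) D
      · intro p q
        show deriv (fun l => eval (f l) (p * q)) z = eval (f z) p * deriv (fun l => eval (f l) q) z +
          eval (f z) q * deriv (fun l => eval (f l) p) z
        simp only [map_mul]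
        rw [deriv_fun_mul (hda p z hz) (hda q z hz)]
        ring
      · have hz1 : ‖z‖ < 1 := by simpa using hz
        have hR : 0 < (1 - ‖z‖) / 2 := by linarith
        have hsub : closedBall z ((1 - ‖z‖) / 2) ⊆ ball (0 : ℂ) 1 := by
          intro w hw
          rw [mem_closedBall, dist_eq_norm] at hw
          rw [mem_ball, dist_zero_right]
          have h1 : w = (w - z) + z := by ring
          calc ‖w‖ = ‖(w - z) + z‖ := by rw [← h1]
            _ ≤ ‖w - z‖ + ‖z‖ := norm_add_le _ _
            _ < 1 := by linarith
        refine ⟨1 / ((1 - ‖z‖) / 2), ?_⟩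
        intro p M hM
        have h2 := Complex.norm_deriv_le_of_forall_mem_sphere_norm_le (c := z) (C := M)
          (f := fun l => eval (f l) p) hR ((disc_diffOn_eval hf p).diffContOnCl_ball hsub) (by
            intro w hw
            obtain ⟨x, hx, hxp⟩ := hH w (hsub (sphere_subset_closedBall hw)) p
            exact hxp.trans (hM x hx))
        calc ‖D p‖ ≤ M / ((1 - ‖z‖) / 2) := h2
          _ = 1 / ((1 - ‖z‖) / 2) * M := by ring
    have h3 : D p = 0 := by rw [hD]; rfl
    exact h3
  refine ⟨f 0, ?_⟩
  intro ζ hζ
  funext i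
  have hdi : DifferentiableOn ℂ (fun l => f l i) (ball (0 : ℂ) 1) := (differentiableOn_pi.mp hf) i
  have h4 : Set.EqOn (deriv (fun l => f l i)) 0 (ball (0 : ℂ) 1) := by
    intro w hw
    have h5 := hzero w hw (MvPolynomial.X i)
    simp only [eval_X] at h5
    exact h5
  exact hopen.is_const_of_deriv_eq_zero (convex_ball (0 : ℂ) 1).isPreconnected hdi h4 hζ
    (mem_ball_self one_pos)

end Pool.Agent.H136R4
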