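import Pool.Agent.H136R4.Stmts

set_option autoImplicit false

/-! Task DER (helper980): no nonzero bounded point derivations. -/

namespace Pool.Agent.H136R4

open MvPolynomial Filter Topology

namespace DerAux

/-- `f : Ω → ℂ` is a uniform limit of polynomials whose values and derivations at the point `w`
tend to `α`, `δ`. -/
def Rel {Ω : Type} (ρ : Ω → Fin 3 → ℂ) (w : Fin 3 → ℂ) (D : MvPolynomial (Fin 3) ℂ →ₗ[ℂ] ℂ)
    (f : Ω → ℂ) (α δ : ℂ) : Prop :=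
  ∀ θ : ℝ, 0 < θ → ∃ S : MvPolynomial (Fin 3) ℂ, (∀ v, ‖eval (ρ v) S - f v‖ ≤ θ) ∧
    ‖eval w S - α‖ ≤ θ ∧ ‖D S - δ‖ ≤ θ

variable {Ω : Type} {ρ : Ω → Fin 3 → ℂ} {w : Fin 3 → ℂ} {D : MvPolynomial (Fin 3) ℂ →ₗ[ℂ] ℂ}
  {C₀ : ℝ}

theorem Rel.bound (hC : 0 ≤ C₀)
    (H : ∀ (p : MvPolynomial (Fin 3) ℂ) (M : ℝ), (∀ v, ‖eval (ρ v) p‖ ≤ M) →
      ‖eval w p‖ ≤ M ∧ ‖D p‖ ≤ C₀ * M) {f : Ω → ℂ} {α δ : ℂ} (h : Rel ρ w D f α δ) {M : ℝ}
    (hM : ∀ v, ‖f v‖ ≤ M) : ‖α‖ ≤ M ∧ ‖δ‖ ≤ C₀ * M := by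
  have key : ∀ θ : ℝ, 0 < θ → ‖α‖ ≤ M + 2 * θ ∧ ‖δ‖ ≤ C₀ * M + (C₀ + 1) * θ := by
    intro θ hθ
    obtain ⟨S, h1, h2, h3⟩ := h θ hθ
    have h4 : ∀ v, ‖eval (ρ v) S‖ ≤ M + θ := by
      intro v
      calc ‖eval (ρ v) S‖ = ‖(eval (ρ v) S - f v) + f v‖ := by rw [sub_add_cancel]
        _ ≤ ‖eval (ρ v) S - f v‖ + ‖f v‖ := norm_add_le _ _
        _ ≤ M + θ := by linarith [h1 v, hM v]
    obtain ⟨h5, h6⟩ := H S _ h4
    constructor
    · calc ‖α‖ = ‖eval w S - (eval w S - α)‖ := by rw [sub_sub_cancel]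
        _ ≤ ‖eval w S‖ + ‖eval w S - α‖ := norm_sub_le _ _
        _ ≤ M + 2 * θ := by linarith
    · calc ‖δ‖ = ‖D S - (D S - δ)‖ := by rw [sub_sub_cancel]
        _ ≤ ‖D S‖ + ‖D S - δ‖ := norm_sub_le _ _
        _ ≤ C₀ * M + (C₀ + 1) * θ := by linarith
  constructor
  · refine le_of_forall_pos_le_add fun e he => ?_
    have := (key (e / 2) (by linarith)).1
    linarith
  · refine le_of_forall_pos_le_add fun e he => ?_
    have h1 := (key (e / (C₀ + 1)) (by positivity)).2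
    have h2 : (C₀ + 1) * (e / (C₀ + 1)) = e := by field_simp
    linarith

theorem Rel.add {f g : Ω → ℂ} {α δ α' δ' : ℂ} (h : Rel ρ w D f α δ) (h' : Rel ρ w D g α' δ') :
    Rel ρ w D (fun v => f v + g v) (α + α') (δ + δ') := by
  intro θ hθ
  obtain ⟨S, h1, h2, h3⟩ := h (θ / 2) (by linarith)
  obtain ⟨S', h1', h2', h3'⟩ := h' (θ / 2) (by linarith)
  refine ⟨S + S', fun v => ?_, ?_, ?_⟩
  · rw [map_add, add_sub_add_comm]
    refine (norm_add_le _ _).trans ?_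
    linarith [h1 v, h1' v]
  · rw [map_add, add_sub_add_comm]
    refine (norm_add_le _ _).trans ?_
    linarith
  · rw [map_add, add_sub_add_comm]
    refine (norm_add_le _ _).trans ?_
    linarith

theorem Rel.smul {f : Ω → ℂ} {α δ : ℂ} (c : ℂ) (h : Rel ρ w D f α δ) :
    Rel ρ w D (fun v => c * f v) (c * α) (c * δ) := by
  intro θ hθ
  have hc : 0 < ‖c‖ + 1 := by positivity
  obtain ⟨S, h1, h2, h3⟩ := h (θ / (‖c‖ + 1)) (by positivity)
  have key : ∀ x y : ℂ, ‖x - y‖ ≤ θ / (‖c‖ + 1) → ‖c * x - c * y‖ ≤ θ := by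
    intro x y hxy
    rw [← mul_sub, norm_mul]
    calc ‖c‖ * ‖x - y‖ ≤ (‖c‖ + 1) * (θ / (‖c‖ + 1)) := by
          apply mul_le_mul (by linarith) hxy (norm_nonneg _) hc.le
      _ = θ := by field_simp
  refine ⟨c • S, fun v => ?_, ?_, ?_⟩
  · rw [smul_eval]; exact key _ _ (h1 v)
  · rw [smul_eval]; exact key _ _ h2
  · rw [map_smul, smul_eq_mul]; exact key _ _ h3

theorem Rel.poly (S : MvPolynomial (Fin 3) ℂ) :
    Rel ρ w D (fun v => eval (ρ v) S) (eval w S) (D S) := by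
  intro θ hθ
  exact ⟨S, fun v => by simp [hθ.le], by simp [hθ.le], by simp [hθ.le]⟩

theorem Rel.sq (hL : ∀ p q : MvPolynomial (Fin 3) ℂ, D (p * q) = eval w p * D q + eval w q * D p)
    {f : Ω → ℂ} {α δ : ℂ} (h : Rel ρ w D f α δ) {M : ℝ} (hM0 : 0 ≤ M) (hM : ∀ v, ‖f v‖ ≤ M) :
    Rel ρ w D (fun v => f v ^ 2) (α ^ 2) (2 * α * δ) := by
  intro θ hθ
  obtain ⟨K, hK⟩ : ∃ K : ℝ, K = 2 * M + 2 * ‖α‖ + 2 * ‖δ‖ + 2 := ⟨_, rfl⟩
  have ha := norm_nonneg α
  have hd := norm_nonneg δ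
  have hK0 : 0 < K := by rw [hK]; positivity
  obtain ⟨t, ht0, ht1, ht2⟩ : ∃ t : ℝ, 0 < t ∧ t ≤ 1 ∧ K * t ≤ θ := by
    refine ⟨min 1 (θ / K), lt_min one_pos (by positivity), min_le_left _ _, ?_⟩
    calc K * min 1 (θ / K) ≤ K * (θ / K) := mul_le_mul_of_nonneg_left (min_le_right _ _) hK0.le
      _ = θ := by field_simp
  obtain ⟨S, h1, h2, h3⟩ := h t ht0
  have key : ∀ (x y : ℂ) (B : ℝ), 0 ≤ B → 2 * B + 1 ≤ K → ‖y‖ ≤ B → ‖x - y‖ ≤ t →
      ‖x ^ 2 - y ^ 2‖ ≤ θ := by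
    intro x y B hB0 hB hy hxy
    have e1 : x ^ 2 - y ^ 2 = (x - y) * ((x - y) + 2 * y) := by ring
    rw [e1, norm_mul]
    have e2 : ‖(x - y) + 2 * y‖ ≤ t + 2 * B := by
      refine (norm_add_le _ _).trans ?_
      rw [norm_mul]
      have : ‖(2 : ℂ)‖ = 2 := by simp
      rw [this]
      linarith
    calc ‖x - y‖ * ‖(x - y) + 2 * y‖ ≤ t * (t + 2 * B) :=
          mul_le_mul hxy e2 (norm_nonneg _) ht0.le
      _ ≤ t * K := mul_le_mul_of_nonneg_left (by linarith) ht0.le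
      _ ≤ θ := by rw [mul_comm]; exact ht2
  refine ⟨S ^ 2, fun v => ?_, ?_, ?_⟩
  · rw [map_pow]
    exact key _ _ M hM0 (by rw [hK]; linarith) (hM v) (h1 v)
  · rw [map_pow]
    exact key _ _ ‖α‖ ha (by rw [hK]; linarith) le_rfl h2
  · rw [pow_two, hL]
    have e1 : eval w S * D S + eval w S * D S - 2 * α * δ =
        2 * ((eval w S - α) * (D S - δ) + (eval w S - α) * δ + α * (D S - δ)) := by ring
    rw [e1, norm_mul]
    have h2' : ‖(2 : ℂ)‖ = 2 := by simp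
    rw [h2']
    have e2 : ‖(eval w S - α) * (D S - δ)‖ ≤ t * 1 := by
      rw [norm_mul]
      exact mul_le_mul h2 (h3.trans ht1) (norm_nonneg _) ht0.le
    have e3 : ‖(eval w S - α) * δ‖ ≤ t * ‖δ‖ := by
      rw [norm_mul]
      exact mul_le_mul_of_nonneg_right h2 hd
    have e4 : ‖α * (D S - δ)‖ ≤ ‖α‖ * t := by
      rw [norm_mul]
      exact mul_le_mul_of_nonneg_left h3 ha
    have e5 : ‖(eval w S - α) * (D S - δ) + (eval w S - α) * δ + α * (D S - δ)‖ ≤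
        t * 1 + t * ‖δ‖ + ‖α‖ * t :=
      (norm_add_le _ _).trans (add_le_add ((norm_add_le _ _).trans (add_le_add e2 e3)) e4)
    have e6 : 2 * (t * 1 + t * ‖δ‖ + ‖α‖ * t) ≤ K * t := by
      rw [hK]
      nlinarith [mul_nonneg hM0 ht0.le]
    linarith

theorem Rel.congr {f g : Ω → ℂ} {α δ : ℂ} (h : Rel ρ w D f α δ) (hfg : ∀ v, f v = g v) :
    Rel ρ w D g α δ := by
  have : f = g := funext hfg
  rwa [← this]

theorem Rel.unique (hC : 0 ≤ C₀)
    (H : ∀ (p : MvPolynomial (Fin 3) ℂ) (M : ℝ), (∀ v, ‖eval (ρ v) p‖ ≤ M) →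
      ‖eval w p‖ ≤ M ∧ ‖D p‖ ≤ C₀ * M) {f : Ω → ℂ} {α δ α' δ' : ℂ} (h : Rel ρ w D f α δ)
    (h' : Rel ρ w D f α' δ') : α = α' ∧ δ = δ' := by
  have h1 := (h.add (h'.smul (-1))).bound hC H (M := 0) (fun v => by simp)
  constructor
  · have := norm_le_zero_iff.1 h1.1
    linear_combination this
  · have h2 := h1.2
    rw [mul_zero] at h2
    have := norm_le_zero_iff.1 h2
    linear_combination this

theorem Rel.exists (_hC : 0 ≤ C₀)
    (H : ∀ (p : MvPolynomial (Fin 3) ℂ) (M : ℝ), (∀ v, ‖eval (ρ v) p‖ ≤ M) →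
      ‖eval w p‖ ≤ M ∧ ‖D p‖ ≤ C₀ * M) (f : Ω → ℂ)
    (hf : ∀ θ : ℝ, 0 < θ → ∃ S : MvPolynomial (Fin 3) ℂ, ∀ v, ‖eval (ρ v) S - f v‖ ≤ θ) :
    ∃ α δ, Rel ρ w D f α δ := by
  have hf' : ∀ l : ℕ, ∃ S : MvPolynomial (Fin 3) ℂ, ∀ v, ‖eval (ρ v) S - f v‖ ≤ 1 / ((l : ℝ) + 1) :=
    fun l => hf _ (by positivity)
  choose S hS using hf'
  have hdiff : ∀ n m N : ℕ, N ≤ n → N ≤ m → ∀ v,
      ‖eval (ρ v) (S n - S m)‖ ≤ 2 * (1 / ((N : ℝ) + 1)) := by
    intro n m N hn hm v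
    have e1 : eval (ρ v) (S n - S m) = (eval (ρ v) (S n) - f v) - (eval (ρ v) (S m) - f v) := by
      rw [map_sub]; ring
    rw [e1]
    refine (norm_sub_le _ _).trans ?_
    have h1 : 1 / ((n : ℝ) + 1) ≤ 1 / ((N : ℝ) + 1) := by
      apply one_div_le_one_div_of_le (by positivity)
      have : (N : ℝ) ≤ n := by exact_mod_cast hn
      linarith
    have h2 : 1 / ((m : ℝ) + 1) ≤ 1 / ((N : ℝ) + 1) := by
      apply one_div_le_one_div_of_le (by positivity)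
      have : (N : ℝ) ≤ m := by exact_mod_cast hm
      linarith
    linarith [hS n v, hS m v]
  have hlim : Tendsto (fun N : ℕ => 1 / ((N : ℝ) + 1)) atTop (𝓝 0) :=
    tendsto_one_div_add_atTop_nhds_zero_nat
  have hc1 : CauchySeq fun l => eval w (S l) := by
    refine cauchySeq_of_le_tendsto_0 (fun N : ℕ => 2 * (1 / ((N : ℝ) + 1))) ?_ ?_
    · intro n m N hn hm
      rw [dist_eq_norm, ← map_sub]
      exact (H _ _ (hdiff n m N hn hm)).1
    · simpa using hlim.const_mul 2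
  have hc2 : CauchySeq fun l => D (S l) := by
    refine cauchySeq_of_le_tendsto_0 (fun N : ℕ => C₀ * (2 * (1 / ((N : ℝ) + 1)))) ?_ ?_
    · intro n m N hn hm
      rw [dist_eq_norm, ← map_sub]
      exact (H _ _ (hdiff n m N hn hm)).2
    · simpa using (hlim.const_mul 2).const_mul C₀
  obtain ⟨α, hα⟩ := cauchySeq_tendsto_of_complete hc1
  obtain ⟨δ, hδ⟩ := cauchySeq_tendsto_of_complete hc2
  refine ⟨α, δ, fun θ hθ => ?_⟩
  obtain ⟨N1, h1⟩ := Metric.tendsto_atTop.1 hα θ hθ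
  obtain ⟨N2, h2⟩ := Metric.tendsto_atTop.1 hδ θ hθ
  obtain ⟨N3, h3⟩ := Metric.tendsto_atTop.1 hlim θ hθ
  let l := max N1 (max N2 N3)
  refine ⟨S l, fun v => (hS l v).trans ?_, ?_, ?_⟩
  · have h4 := h3 l ((le_max_right _ _).trans (le_max_right _ _))
    rw [Real.dist_0_eq_abs] at h4
    exact (le_abs_self _).trans h4.le
  · have h4 := h1 l (le_max_left _ _)
    rw [dist_eq_norm] at h4
    exact h4.le
  · have h4 := h2 l ((le_max_left _ _).trans (le_max_right _ _))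
    rw [dist_eq_norm] at h4
    exact h4.le

theorem tail_bound (c : ℕ → ℂ) (hc : ∀ i, ‖c i‖ ≤ 2 * (1 / 2) ^ i) (n : ℕ) :
    ‖(∑' i, c i) - ∑ i ∈ Finset.range n, c i‖ ≤ 4 * (1 / 2) ^ n := by
  have hs : Summable c := Summable.of_norm_bounded (summable_geometric_two.mul_left 2) hc
  have h1 := hs.sum_add_tsum_nat_add n
  have h2 : (∑' i, c i) - ∑ i ∈ Finset.range n, c i = ∑' i, c (i + n) := by
    rw [← h1]; ring
  rw [h2]
  have h3 : HasSum (fun i : ℕ => 2 * (1 / 2 : ℝ) ^ n * (1 / 2) ^ i) (2 * (1 / 2) ^ n * 2) :=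
    hasSum_geometric_two.mul_left _
  have h4 := tsum_of_norm_bounded h3 (f := fun i => c (i + n)) (fun i => by
    refine (hc (i + n)).trans (le_of_eq ?_)
    rw [pow_add]; ring)
  linarith

end DerAux

open DerAux in
theorem derStmt : BoundStmt → DerStmt := by
  intro hB a ha ε hl w hw D hL hC
  obtain ⟨C, hC⟩ := hC
  let Ω : Type := {v : ℕ → ℂ // v ∈ Y a ∧ ‖v 0‖ = 1}
  let ρ : Ω → Fin 3 → ℂ := fun v => Phi ε v.1
  have hρ : ∀ v : Ω, ρ v ∈ XX a ε := fun v => ⟨v.1, v.2.1, v.2.2, rfl⟩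
  have hC0 : (0 : ℝ) ≤ max C 0 := le_max_right _ _
  have H : ∀ (p : MvPolynomial (Fin 3) ℂ) (M : ℝ), (∀ v, ‖eval (ρ v) p‖ ≤ M) →
      ‖eval w p‖ ≤ M ∧ ‖D p‖ ≤ max C 0 * M := by
    intro p M hM
    have hX : ∀ x ∈ XX a ε, ‖eval x p‖ ≤ M := by
      rintro x ⟨v, hv, hv0, rfl⟩
      exact hM ⟨v, hv, hv0⟩
    obtain ⟨x, hx, hx'⟩ := hw p
    have hM0 : 0 ≤ M := (norm_nonneg _).trans (hX x hx)
    refine ⟨hx'.trans (hX x hx), (hC p M hX).trans ?_⟩
    exact mul_le_mul_of_nonneg_right (le_max_left _ _) hM0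
  have hbd : ∀ (i : ℕ) (v : Ω), ‖v.1 i‖ ≤ 2 := by
    intro i v
    exact hB a ha i v.1 ⟨v.2.1.1, fun j _ => v.2.1.2 j⟩ i le_rfl
  have hex : ∀ i : ℕ, ∃ α δ, Rel ρ w D (fun v : Ω => v.1 i) α δ := by
    intro i
    refine Rel.exists hC0 H _ fun θ hθ => ?_
    obtain ⟨S, hS⟩ := hl.gen i θ hθ
    exact ⟨S, fun v => hS v.1 v.2.1⟩
  choose vt d hrel using hex
  have hD1 : D 1 = 0 := by
    have h := hL 1 1
    rw [mul_one, map_one (eval w)] at h
    linear_combination -h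
  have hDC : ∀ c : ℂ, D (MvPolynomial.C c) = 0 := by
    intro c
    have h : (MvPolynomial.C c : MvPolynomial (Fin 3) ℂ) = c • 1 := by
      rw [smul_eq_C_mul, mul_one]
    rw [h, map_smul, hD1, smul_zero]
  -- coordinate 0
  have h0 : vt 0 = w 0 ∧ d 0 = D (X 0) := by
    refine (hrel 0).unique hC0 H ?_
    have h := Rel.poly (ρ := ρ) (w := w) (D := D) (X 0)
    rw [eval_X] at h
    refine h.congr fun v => ?_
    rw [eval_X]
    rfl
  have hw0 : ‖w 0‖ ≤ 1 := by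
    rw [← h0.1]
    exact ((hrel 0).bound hC0 H (M := 1) fun v => v.2.2.le).1
  have hd : ∀ i, ‖d i‖ ≤ max C 0 * 2 := fun i => ((hrel i).bound hC0 H (hbd i)).2
  have hstep : ∀ i, vt (i + 1) ^ 2 = vt (par i) - sh a i ∧ 2 * vt (i + 1) * d (i + 1) = d (par i) := by
    intro i
    have h1 := (hrel (i + 1)).sq hL (by norm_num) (hbd (i + 1))
    have h2 := (hrel (par i)).add (Rel.poly (ρ := ρ) (w := w) (D := D) (MvPolynomial.C (-sh a i)))
    rw [eval_C, hDC, add_zero] at h2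
    have h3 : Rel ρ w D (fun v : Ω => v.1 (i + 1) ^ 2) (vt (par i) + -sh a i) (d (par i)) := by
      refine h2.congr fun v => ?_
      rw [eval_C, v.2.1.2 i]
      ring
    have h4 := h1.unique hC0 H h3
    exact ⟨by rw [h4.1]; ring, h4.2⟩
  -- d 0 = 0
  have hd0 : d 0 = 0 := by
    by_contra hne
    have hpos : 0 < ‖d 0‖ := norm_pos_iff.2 hne
    obtain ⟨B, hBdef⟩ : ∃ B : ℝ, B = max C 0 * 2 + 1 := ⟨_, rfl⟩
    have hB0 : 0 < B := by rw [hBdef]; positivity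
    obtain ⟨k, hk⟩ := ha.dense (w 0) hw0 (‖d 0‖ ^ 2 / (4 * B ^ 2)) (by positivity)
    have hp : par (Nat.pair k 0) = 0 := by simp [par]
    have hs : sh a (Nat.pair k 0) = a k := by simp [sh]
    obtain ⟨h1, h2⟩ := hstep (Nat.pair k 0)
    rw [hp, hs, h0.1] at h1
    rw [hp] at h2
    have h3 : ‖vt (Nat.pair k 0 + 1)‖ ^ 2 = ‖w 0 - a k‖ := by rw [← norm_pow, h1]
    have h4 : ‖d 0‖ = 2 * ‖vt (Nat.pair k 0 + 1)‖ * ‖d (Nat.pair k 0 + 1)‖ := by
      rw [← h2, norm_mul, norm_mul]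
      simp
    have h5 : ‖d (Nat.pair k 0 + 1)‖ ≤ B := by
      have := hd (Nat.pair k 0 + 1)
      rw [hBdef]; linarith
    have h6 : ‖d 0‖ ^ 2 ≤ 4 * B ^ 2 * ‖w 0 - a k‖ := by
      rw [h4, ← h3]
      have h7 : ‖d (Nat.pair k 0 + 1)‖ ^ 2 ≤ B ^ 2 := pow_le_pow_left₀ (norm_nonneg _) h5 2
      have h8 : 0 ≤ ‖vt (Nat.pair k 0 + 1)‖ ^ 2 := by positivity
      nlinarith
    have h9 : 4 * B ^ 2 * ‖w 0 - a k‖ < ‖d 0‖ ^ 2 := by
      rw [lt_div_iff₀ (by positivity)] at hk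
      linarith
    linarith
  -- all the other coordinates
  have hdk : ∀ k m : ℕ, d (Nat.pair k m + 1) = 0 := by
    intro k m
    have hpar : d (par (Nat.pair k m)) = 0 → d (Nat.pair k m + 1) = 0 := by
      intro hp
      by_cases hv : vt (Nat.pair k m + 1) = 0
      · obtain ⟨h1, h2⟩ := hstep (Nat.pair k (m + 1))
        have hp2 : par (Nat.pair k (m + 1)) = Nat.pair k m + 1 := by simp [par]
        have hs2 : sh a (Nat.pair k (m + 1)) = 0 := by simp [sh]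
        rw [hp2, hs2, hv, sub_zero] at h1
        have h3 : vt (Nat.pair k (m + 1) + 1) = 0 := by
          exact pow_eq_zero_iff (two_ne_zero) |>.1 h1
        rw [hp2, h3] at h2
        rw [← h2]; ring
      · have h1 := (hstep (Nat.pair k m)).2
        rw [hp] at h1
        rcases mul_eq_zero.1 h1 with h2 | h2
        · exfalso
          rcases mul_eq_zero.1 h2 with h3 | h3
          · norm_num at h3
          · exact hv h3
        · exact h2
    induction m with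
    | zero =>
      apply hpar
      have hp : par (Nat.pair k 0) = 0 := by simp [par]
      rw [hp]; exact hd0
    | succ m ih =>
      apply hpar
      have hp2 : par (Nat.pair k (m + 1)) = Nat.pair k m + 1 := by simp [par]
      rw [hp2]
      exact ih (by
        intro hp
        by_cases hv : vt (Nat.pair k m + 1) = 0
        · obtain ⟨h1, h2⟩ := hstep (Nat.pair k (m + 1))
          have hs2 : sh a (Nat.pair k (m + 1)) = 0 := by simp [sh]
          rw [hp2, hs2, hv, sub_zero] at h1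
          have h3 : vt (Nat.pair k (m + 1) + 1) = 0 := pow_eq_zero_iff (two_ne_zero) |>.1 h1
          rw [hp2, h3] at h2
          rw [← h2]; ring
        · have h1 := (hstep (Nat.pair k m)).2
          rw [hp] at h1
          rcases mul_eq_zero.1 h1 with h2 | h2
          · exfalso
            rcases mul_eq_zero.1 h2 with h3 | h3
            · norm_num at h3
            · exact hv h3
          · exact h2)
  have hds : ∀ i, d (i + 1) = 0 := by
    intro i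
    have := hdk (Nat.unpair i).1 (Nat.unpair i).2
    rwa [Nat.pair_unpair] at this
  -- the last two coordinates of `ℂ³`
  have hsum : ∀ (c : ℕ → ℂ) (n : ℕ), ∃ α, Rel ρ w D
      (fun v : Ω => ∑ i ∈ Finset.range n, c i * v.1 (i + 1)) α 0 := by
    intro c n
    induction n with
    | zero =>
      refine ⟨0, ?_⟩
      have h := Rel.poly (ρ := ρ) (w := w) (D := D) 0
      rw [map_zero, map_zero] at h
      exact h.congr fun v => by simp
    | succ n ih =>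
      obtain ⟨α, hα⟩ := ih
      have h := hα.add ((hrel (n + 1)).smul (c n))
      rw [hds n, mul_zero, add_zero] at h
      exact ⟨_, h.congr fun v => by rw [Finset.sum_range_succ]⟩
  have hXj : ∀ (j : Fin 3) (c : ℕ → ℂ), (∀ i, ‖c i‖ ≤ (1 / 2) ^ i) →
      (∀ v : Ω, ρ v j = ∑' i : ℕ, c i * v.1 (i + 1)) → D (X j) = 0 := by
    intro j c hc hj
    have hle : ∀ n : ℕ, ‖D (X j)‖ ≤ max C 0 * (4 * (1 / 2) ^ n) := by
      intro n
      obtain ⟨α, hα⟩ := hsum c n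
      have h := (Rel.poly (ρ := ρ) (w := w) (D := D) (X j)).add (hα.smul (-1))
      have h2 := (h.bound hC0 H (M := 4 * (1 / 2) ^ n) (fun v => by
        have h3 := tail_bound (fun i => c i * v.1 (i + 1)) (fun i => by
          rw [norm_mul, mul_comm]
          exact mul_le_mul (hbd (i + 1) v) (hc i) (norm_nonneg _) (by norm_num)) n
        rw [eval_X, hj v, neg_one_mul, ← sub_eq_add_neg]
        exact h3)).2
      rw [mul_zero, add_zero] at h2
      exact h2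
    have hlim : Tendsto (fun n : ℕ => max C 0 * (4 * (1 / 2 : ℝ) ^ n)) atTop (𝓝 0) := by
      have h1 : Tendsto (fun n : ℕ => (1 / 2 : ℝ) ^ n) atTop (𝓝 0) :=
        tendsto_pow_atTop_nhds_zero_of_lt_one (by norm_num) (by norm_num)
      simpa using (h1.const_mul 4).const_mul (max C 0)
    have h1 : ‖D (X j)‖ ≤ 0 := ge_of_tendsto' hlim hle
    exact norm_le_zero_iff.1 h1
  have hX0 : D (X 0) = 0 := by rw [← h0.2, hd0]
  have hεn : ∀ i : ℕ, ‖((ε i : ℝ) : ℂ)‖ = ε i := by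
    intro i
    rw [Complex.norm_real, Real.norm_eq_abs, abs_of_pos (hl.pos i)]
  have hX1 : D (X 1) = 0 := by
    refine hXj 1 (fun i => (ε i : ℂ)) (fun i => ?_) (fun v => rfl)
    rw [hεn]
    have h1 := hl.le i
    have h2 := hl.pos i
    have h3 : (0 : ℝ) ≤ i := Nat.cast_nonneg i
    nlinarith
  have hX2 : D (X 2) = 0 := by
    refine hXj 2 (fun i => (ε i : ℂ) * (i : ℂ)) (fun i => ?_) (fun v => rfl)
    rw [norm_mul, hεn, Complex.norm_natCast]
    have h1 := hl.le i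
    have h2 := hl.pos i
    nlinarith
  apply LinearMap.ext
  intro p
  rw [LinearMap.zero_apply]
  induction p using MvPolynomial.induction_on with
  | C c => exact hDC c
  | add p q hp hq => rw [map_add, hp, hq, add_zero]
  | mul_X p j hp =>
    rw [hL, hp, mul_zero, add_zero]
    have : D (X j) = 0 := by
      fin_cases j
      · exact hX0
      · exact hX1
      · exact hX2
    rw [this, mul_zero]

end Pool.Agent.H136R4
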