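import Pool.Agent.H136R4.Stmts

set_option autoImplicit false

/-! Task ELIM: elimination (pure algebra). -/

namespace Pool.Agent.H136R4

open Finset

namespace ElimAux

lemma par_zero (k : ℕ) : par (Nat.pair k 0) = 0 := by simp [par]

lemma par_succ (k m : ℕ) : par (Nat.pair k (m + 1)) = Nat.pair k m + 1 := by simp [par]

lemma sh_zero (a : ℕ → ℂ) (k : ℕ) : sh a (Nat.pair k 0) = a k := by simp [sh]

lemma sh_succ (a : ℕ → ℂ) (k m : ℕ) : sh a (Nat.pair k (m + 1)) = 0 := by simp [sh]

section
variable {R M : Type} [CommRing R] [Algebra ℂ R] [AddCommGroup M] [Module R M]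

lemma half_smul {x : R} {d y : M} (h : y = (2 * x) • d) :
    x • d = algebraMap ℂ R (1 / 2) • y := by
  rw [h, smul_smul, ← mul_assoc]
  have : algebraMap ℂ R (1 / 2) * 2 = 1 := by
    rw [← map_ofNat (algebraMap ℂ R) 2, ← map_mul]
    norm_num
  rw [this, one_mul]

lemma unit_of_ne {c : ℂ} (hc : c ≠ 0) : IsUnit (algebraMap ℂ R c) :=
  (isUnit_iff_ne_zero.mpr hc).map (algebraMap ℂ R)

lemma kill (a : ℕ → ℂ) (n : ℕ) (v : ℕ → R) (δ : ℕ → M)
    (hv : ∀ i < n, v (i + 1) ^ 2 = v (par i) - algebraMap ℂ R (sh a i))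
    (h0 : δ 0 = 0)
    (hδ : ∀ i < n, δ (par i) = (2 * v (i + 1)) • δ (i + 1)) (k : ℕ) :
    ∀ m : ℕ, Nat.pair k m < n → ∃ e : ℕ,
      v (Nat.pair k m + 1) ^ e • δ (Nat.pair k m + 1) = 0 ∧
      v (Nat.pair k m + 1) ^ (e + 1) = v 0 - algebraMap ℂ R (a k) := by
  intro m
  induction m with
  | zero =>
    intro hm
    refine ⟨1, ?_, ?_⟩
    · have h := hδ _ hm
      rw [par_zero] at h
      rw [pow_one, half_smul h, h0, smul_zero]
    · have h := hv _ hm
      rw [par_zero, sh_zero] at h
      exact h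
  | succ m ih =>
    intro hm
    have hlt : Nat.pair k m < Nat.pair k (m + 1) := Nat.pair_lt_pair_right k (Nat.lt_succ_self m)
    obtain ⟨e, he1, he2⟩ := ih (hlt.trans hm)
    have h1 := hδ _ hm
    have h2 := hv _ hm
    rw [par_succ] at h1 h2
    rw [sh_succ, map_zero, sub_zero] at h2
    refine ⟨2 * e + 1, ?_, ?_⟩
    · rw [pow_succ, pow_mul, h2, mul_smul, half_smul h1, smul_comm, he1, smul_zero]
    · rw [show 2 * e + 1 + 1 = 2 * (e + 1) by ring, pow_mul, h2, he2]

omit [Algebra ℂ R] in
/-- downwards in a chain -/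
lemma down (n : ℕ) (v : ℕ → R) (δ : ℕ → M)
    (hδ : ∀ i < n, δ (par i) = (2 * v (i + 1)) • δ (i + 1)) (k m0 : ℕ)
    (hm0 : Nat.pair k m0 < n) :
    ∀ j m : ℕ, m + (j + 1) = m0 → ∃ r : R, δ (Nat.pair k m + 1) =
      (v (Nat.pair k m0 + 1) * r) • δ (Nat.pair k m0 + 1) := by
  intro j
  induction j with
  | zero =>
    intro m hm
    subst hm
    refine ⟨2, ?_⟩
    have h := hδ _ hm0
    rw [par_succ] at h
    rw [h, mul_comm]
  | succ j ih =>
    intro m hm
    obtain ⟨r, hr⟩ := ih (m + 1) (by omega)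
    have hlt : Nat.pair k (m + 1) < n := by
      have : Nat.pair k (m + 1) < Nat.pair k m0 := Nat.pair_lt_pair_right k (by omega)
      omega
    have h := hδ _ hlt
    rw [par_succ, hr, smul_smul] at h
    refine ⟨2 * v (Nat.pair k (m + 1) + 1) * r, ?_⟩
    rw [h]
    congr 1
    ring

lemma core (a : ℕ → ℂ) (ε : ℕ → ℝ) (n : ℕ) (v : ℕ → R) (δ : ℕ → M) (σ : M)
    (ha : Function.Injective a) (hε : ∀ i < n, 0 < ε i)
    (hv : ∀ i < n, v (i + 1) ^ 2 = v (par i) - algebraMap ℂ R (sh a i))
    (h0 : δ 0 = 0)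
    (hδ : ∀ i < n, δ (par i) = (2 * v (i + 1)) • δ (i + 1))
    (h1 : σ = ∑ i ∈ range n, algebraMap ℂ R (ε i : ℂ) • δ (i + 1))
    (h2 : (n : R) • σ = ∑ i ∈ range n, algebraMap ℂ R ((ε i : ℂ) * (i : ℂ)) • δ (i + 1)) :
    σ = 0 := by
  classical
  -- the annihilator
  set I : Ideal R := LinearMap.ker (LinearMap.toSpanSingleton R M σ) with hI
  have hmemI : ∀ r : R, r ∈ I ↔ r • σ = 0 := by
    intro r
    rw [hI, LinearMap.mem_ker, LinearMap.toSpanSingleton_apply]
  by_contra hσ
  have hI1 : I ≠ ⊤ := by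
    intro h
    apply hσ
    have : (1 : R) ∈ I := by rw [h]; trivial
    rwa [hmemI, one_smul] at this
  obtain ⟨P, hP, hIP⟩ := Ideal.exists_le_maximal I hI1
  have hPp : P.IsPrime := hP.isPrime
  -- it suffices to kill `σ` outside `P`
  have hout : ∀ s : R, s ∉ P → ¬ (∀ i < n, s • δ (i + 1) = 0) := by
    intro s hs h
    apply hs
    apply hIP
    rw [hmemI, h1, Finset.smul_sum]
    apply Finset.sum_eq_zero
    intro i hi
    rw [smul_comm, h i (mem_range.mp hi), smul_zero]
  have hk : ∀ i < n, (v 0 - algebraMap ℂ R (a (Nat.unpair i).1)) • δ (i + 1) = 0 := by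
    intro i hi
    obtain ⟨e, he1, he2⟩ := kill a n v δ hv h0 hδ (Nat.unpair i).1 (Nat.unpair i).2
      (by rw [Nat.pair_unpair]; exact hi)
    rw [Nat.pair_unpair] at he1 he2
    rw [← he2, pow_succ, mul_comm, mul_smul, he1, smul_zero]
  by_cases hex : ∃ k < n, v 0 - algebraMap ℂ R (a k) ∈ P
  · obtain ⟨k, hkn, hkP⟩ := hex
    set s0 : R := ∏ j ∈ (range n).erase k, (v 0 - algebraMap ℂ R (a j)) with hs0
    have hs0P : s0 ∉ P := by
      intro h
      rw [hs0, Ideal.IsPrime.prod_mem_iff] at h
      obtain ⟨j, hj, hjP⟩ := h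
      rw [mem_erase] at hj
      have hu : IsUnit (algebraMap ℂ R (a j - a k)) :=
        unit_of_ne (sub_ne_zero.mpr (fun h => hj.1 (ha h)))
      apply hPp.ne_top
      apply Ideal.eq_top_of_isUnit_mem P _ hu
      have : algebraMap ℂ R (a j - a k) = (v 0 - algebraMap ℂ R (a k)) -
          (v 0 - algebraMap ℂ R (a j)) := by
        rw [map_sub]; ring
      rw [this]
      exact P.sub_mem hkP hjP
    have hs0k : ∀ i < n, (Nat.unpair i).1 ≠ k → s0 • δ (i + 1) = 0 := by
      intro i hi hik
      have hm : (Nat.unpair i).1 ∈ (range n).erase k := by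
        rw [mem_erase, mem_range]
        exact ⟨hik, lt_of_le_of_lt (Nat.unpair_left_le i) hi⟩
      rw [hs0, ← Finset.mul_prod_erase _ _ hm, mul_comm, mul_smul, hk i hi, smul_zero]
    by_cases hch : ∃ i < n, (Nat.unpair i).1 = k
    · -- the last index of the chain
      set Cs : Finset ℕ := (range n).filter (fun i => (Nat.unpair i).1 = k) with hCs
      have hne : Cs.Nonempty := by
        obtain ⟨i, hi, hik⟩ := hch
        exact ⟨i, by rw [hCs, mem_filter, mem_range]; exact ⟨hi, hik⟩⟩
      obtain ⟨i0, hi0, hmax⟩ : ∃ i0 ∈ Cs, ∀ i ∈ Cs, i ≤ i0 :=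
        ⟨Cs.max' hne, Cs.max'_mem hne, fun i hi => Cs.le_max' i hi⟩
      have hi0' := hi0
      rw [hCs, mem_filter, mem_range] at hi0'
      obtain ⟨hi0n, hi0k⟩ := hi0'
      set m0 := (Nat.unpair i0).2 with hm0
      have hpi0 : Nat.pair k m0 = i0 := by rw [hm0, ← hi0k, Nat.pair_unpair]
      set t := v (i0 + 1) with ht
      set d := δ (i0 + 1) with hd
      have hlow : ∀ i ∈ Cs.erase i0, ∃ r : R, δ (i + 1) = (t * r) • d := by
        intro i hi
        rw [mem_erase] at hi
        have hiC := hi.2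
        rw [hCs, mem_filter, mem_range] at hiC
        have hpi : Nat.pair k (Nat.unpair i).2 = i := by rw [← hiC.2, Nat.pair_unpair]
        have hlt : i < i0 := lt_of_le_of_ne (hmax i hi.2) hi.1
        have hmlt : (Nat.unpair i).2 < m0 := by
          by_contra hcon
          push Not at hcon
          have : Nat.pair k m0 ≤ Nat.pair k (Nat.unpair i).2 := by
            rcases eq_or_lt_of_le hcon with h | h
            · rw [h]
            · exact (Nat.pair_lt_pair_right k h).le
          rw [hpi0, hpi] at this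
          omega
        obtain ⟨j, hj⟩ := Nat.exists_eq_add_of_lt hmlt
        obtain ⟨r, hr⟩ := down n v δ hδ k m0 (by rw [hpi0]; exact hi0n) j (Nat.unpair i).2
          (by omega)
        rw [hpi, hpi0] at hr
        exact ⟨r, hr⟩
      choose! r hr using hlow
      have htP : t ∈ P := by
        obtain ⟨e, -, he2⟩ := kill a n v δ hv h0 hδ k m0 (by rw [hpi0]; exact hi0n)
        rw [hpi0] at he2
        apply hPp.mem_of_pow_mem (e + 1)
        rw [ht, he2]
        exact hkP
      -- the relation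
      set w : ℕ → R := fun i => algebraMap ℂ R ((ε i : ℂ) * ((n : ℂ) - i)) with hw
      have hrel : ∑ i ∈ range n, w i • δ (i + 1) = 0 := by
        have e1 : (n : R) • σ = ∑ i ∈ range n, algebraMap ℂ R ((ε i : ℂ) * n) • δ (i + 1) := by
          rw [h1, Finset.smul_sum]
          apply Finset.sum_congr rfl
          intro i _
          rw [smul_smul, map_mul, map_natCast, mul_comm]
        have e2 : ∑ i ∈ range n, w i • δ (i + 1) =
            ∑ i ∈ range n, algebraMap ℂ R ((ε i : ℂ) * n) • δ (i + 1) -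
            ∑ i ∈ range n, algebraMap ℂ R ((ε i : ℂ) * (i : ℂ)) • δ (i + 1) := by
          rw [← Finset.sum_sub_distrib]
          apply Finset.sum_congr rfl
          intro i _
          rw [← sub_smul, ← map_sub]
          simp only [hw]
          congr 2
          ring
        rw [e2, ← e1, ← h2, sub_self]
      have hrel2 : s0 • ∑ i ∈ Cs, w i • δ (i + 1) = 0 := by
        have e1 : s0 • ∑ i ∈ range n, w i • δ (i + 1) = s0 • ∑ i ∈ Cs, w i • δ (i + 1) := by
          rw [Finset.smul_sum, Finset.smul_sum, hCs, Finset.sum_filter]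
          apply Finset.sum_congr rfl
          intro i hi
          split_ifs with h
          · rfl
          · rw [smul_comm, hs0k i (mem_range.mp hi) h, smul_zero]
        rw [← e1, hrel, smul_zero]
      have hsum : ∑ i ∈ Cs, w i • δ (i + 1) =
          (w i0 + t * ∑ i ∈ Cs.erase i0, w i * r i) • d := by
        rw [← Finset.add_sum_erase Cs _ hi0, add_smul, Finset.mul_sum, Finset.sum_smul]
        congr 1
        apply Finset.sum_congr rfl
        intro i hi
        rw [hr i hi, smul_smul]
        congr 1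
        ring
      rw [hsum, smul_smul] at hrel2
      set c : R := w i0 + t * ∑ i ∈ Cs.erase i0, w i * r i with hc
      have hcP : c ∉ P := by
        intro h
        have h3 : w i0 ∈ P := by
          have : w i0 = c - t * ∑ i ∈ Cs.erase i0, w i * r i := by rw [hc]; ring
          rw [this]
          exact P.sub_mem h (P.mul_mem_right _ htP)
        apply hPp.ne_top
        apply Ideal.eq_top_of_isUnit_mem P h3
        apply unit_of_ne
        apply mul_ne_zero
        · exact_mod_cast (hε i0 hi0n).ne'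
        · rw [sub_ne_zero]
          exact_mod_cast (by omega : n ≠ i0)
      apply hout (s0 * c) (fun h => (hPp.mem_or_mem h).elim hs0P hcP)
      intro i hi
      by_cases hik : (Nat.unpair i).1 = k
      · have hiC : i ∈ Cs := by rw [hCs, mem_filter, mem_range]; exact ⟨hi, hik⟩
        by_cases hii : i = i0
        · rw [hii]; exact hrel2
        · rw [hr i (mem_erase.mpr ⟨hii, hiC⟩), smul_comm, hrel2, smul_zero]
      · rw [mul_comm, mul_smul, hs0k i hi hik, smul_zero]
    · push Not at hch
      exact hout s0 hs0P (fun i hi => hs0k i hi (hch i hi))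
  · push Not at hex
    apply hout (∏ j ∈ range n, (v 0 - algebraMap ℂ R (a j)))
    · intro h
      rw [Ideal.IsPrime.prod_mem_iff] at h
      obtain ⟨j, hj, hjP⟩ := h
      exact hex j (mem_range.mp hj) hjP
    · intro i hi
      have hm : (Nat.unpair i).1 ∈ range n := mem_range.mpr (lt_of_le_of_lt (Nat.unpair_left_le i) hi)
      rw [← Finset.mul_prod_erase _ _ hm, mul_comm, mul_smul, hk i hi, smul_zero]

end

end ElimAux

open ElimAux in
theorem elimStmt : ElimStmt := by
  intro R M _ _ _ _ a ε n v δ σ N ha hε hv h0 hδ h1 h2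
  have key := core (R := R) (M := M ⧸ N) a ε n v (fun i => N.mkQ (δ i)) (N.mkQ σ) ha hε hv
    (by simp only [h0, map_zero])
    (by
      intro i hi
      have h := hδ i hi
      rw [← N.ker_mkQ, LinearMap.mem_ker, map_sub, map_smul, sub_eq_zero] at h
      exact h)
    (by
      have h := h1
      rw [← N.ker_mkQ, LinearMap.mem_ker, map_sub, map_sum, sub_eq_zero] at h
      simp only [map_smul] at h
      exact h)
    (by
      have h := h2
      rw [← N.ker_mkQ, LinearMap.mem_ker, map_sub, map_sum, map_smul, sub_eq_zero] at h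
      simp only [map_smul] at h
      exact h)
  rw [← N.ker_mkQ, LinearMap.mem_ker]
  exact key

end Pool.Agent.H136R4
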