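import Pool.Agent.H136R4.Stmts

set_option autoImplicit false

namespace Pool.Agent.H136R4

open MvPolynomial

theorem final (hAdm : AdmStmt) (hComp : CompactStmt) (hHull : HullStmt) (hLim : LimStmt)
    (hDer : DerStmt) (hDisc : DiscStmt) (hGl : GleasonStmt) :
    ∃ N : ℕ, ∃ X : Set (Fin N → ℂ), IsCompact X ∧
      (∃ z : Fin N → ℂ, z ∉ X ∧
        ∀ p : MvPolynomial (Fin N) ℂ, ∃ x ∈ X,
          ‖MvPolynomial.eval z p‖ ≤ ‖MvPolynomial.eval x p‖) ∧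
      (∀ f : ℂ → (Fin N → ℂ), DifferentiableOn ℂ f (Metric.ball (0 : ℂ) 1) →
        Set.MapsTo f (Metric.ball (0 : ℂ) 1)
          {z : Fin N → ℂ | z ∉ X ∧ ∀ p : MvPolynomial (Fin N) ℂ, ∃ x ∈ X,
            ‖MvPolynomial.eval z p‖ ≤ ‖MvPolynomial.eval x p‖} →
        ∃ c : Fin N → ℂ, ∀ ζ ∈ Metric.ball (0 : ℂ) 1, f ζ = c) ∧
      (∀ z : Fin N → ℂ,
        (∀ p : MvPolynomial (Fin N) ℂ, ∃ x ∈ X,
          ‖MvPolynomial.eval z p‖ ≤ ‖MvPolynomial.eval x p‖) →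
        ∀ D : MvPolynomial (Fin N) ℂ →ₗ[ℂ] ℂ,
          (∀ p q : MvPolynomial (Fin N) ℂ,
            D (p * q) = MvPolynomial.eval z p * D q + MvPolynomial.eval z q * D p) →
          (∃ C : ℝ, ∀ p : MvPolynomial (Fin N) ℂ, ∀ M : ℝ,
            (∀ x ∈ X, ‖MvPolynomial.eval x p‖ ≤ M) → ‖D p‖ ≤ C * M) →
          D = 0) ∧
      (∃ z w : Fin N → ℂ, z ∉ X ∧
        (∀ p : MvPolynomial (Fin N) ℂ, ∃ x ∈ X,
          ‖MvPolynomial.eval z p‖ ≤ ‖MvPolynomial.eval x p‖) ∧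
        (∀ p : MvPolynomial (Fin N) ℂ, ∃ x ∈ X,
          ‖MvPolynomial.eval w p‖ ≤ ‖MvPolynomial.eval x p‖) ∧
        w ≠ z ∧
        ∃ c : ℝ, c < 2 ∧ ∀ p : MvPolynomial (Fin N) ℂ,
          (∀ x ∈ X, ‖MvPolynomial.eval x p‖ ≤ 1) →
          ‖MvPolynomial.eval z p - MvPolynomial.eval w p‖ ≤ c) := by
  obtain ⟨a, ha⟩ := hAdm
  obtain ⟨ε, hε⟩ := hLim a ha
  obtain ⟨c, hc, y, hy, y', hy', hy0, hne, hgl⟩ := hGl a ha ε hε
  have hnot : Phi ε y ∉ XX a ε := by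
    rintro ⟨v, _, hv1, hv⟩
    have h0 := congrFun hv 0
    simp only [Phi, Matrix.cons_val_zero] at h0
    rw [h0] at hy0
    linarith
  refine ⟨3, XX a ε, hComp a ha ε hε, ⟨Phi ε y, hnot, hHull a ha ε hε y hy⟩, ?_, ?_, ?_⟩
  · intro f hf hmaps
    exact hDisc (XX a ε) (hDer a ha ε hε) f hf (fun ζ hζ => (hmaps hζ).2)
  · exact hDer a ha ε hε
  · exact ⟨Phi ε y, Phi ε y', hnot, hHull a ha ε hε y hy, hHull a ha ε hε y' hy', hne, c, hc, hgl⟩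

end Pool.Agent.H136R4
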