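import Pool.Agent.H136R4.Stmts

/-!
Task GL of project H136-GL (helper741).
-/

set_option autoImplicit false

namespace Pool.Agent.H136R4

open MvPolynomial

namespace GLtask

lemma eval_congr_PP {n : ℕ} {p : MvPolynomial ℕ ℂ} (hp : p ∈ PP n) {u v : ℕ → ℂ}
    (h : ∀ i ≤ n, u i = v i) : eval u p = eval v p := by
  rw [PP, MvPolynomial.supported_eq_range_rename] at hp
  obtain ⟨p₀, rfl⟩ := hp
  change eval u (rename _ p₀) = eval v (rename _ p₀)
  rw [eval_rename, eval_rename]
  congr 2
  funext i
  exact h _ i.2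

/-- square root -/
noncomputable def sq (x : ℂ) : ℂ := x ^ (((2 : ℕ) : ℂ)⁻¹)

lemma sq_sq (x : ℂ) : sq x ^ 2 = x := Complex.cpow_nat_inv_pow x two_ne_zero

/-- iterated roots of `1/2 - c` -/
noncomputable def rt (c : ℂ) : ℕ → ℂ
  | 0 => sq (1 / 2 - c)
  | m + 1 => sq (rt c m)

/-- the point of the tower over `1/2` -/
noncomputable def yy (a : ℕ → ℂ) (β : ℂ) : ℕ → ℂ
  | 0 => 1 / 2
  | i + 1 => if (Nat.unpair i).1 = 0 then Complex.exp (β / 2 ^ ((Nat.unpair i).2 + 1))
      else rt (a (Nat.unpair i).1) (Nat.unpair i).2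

lemma exp_half (β : ℂ) (m : ℕ) :
    Complex.exp (β / 2 ^ (m + 1)) ^ 2 = Complex.exp (β / 2 ^ m) := by
  rw [← Complex.exp_nat_mul]
  congr 1
  rw [pow_succ]
  field_simp
  norm_num
  ring

lemma yy_mem {a : ℕ → ℂ} (ha : Adm a) {β : ℂ} (hβ : Complex.exp β = 1 / 2) : yy a β ∈ Y a := by
  refine ⟨by simp only [yy]; norm_num, fun i => ?_⟩
  simp only [yy, par, sh]
  by_cases hm : (Nat.unpair i).2 = 0
  · rw [if_pos hm, if_pos hm, hm]
    by_cases hk : (Nat.unpair i).1 = 0
    · rw [if_pos hk, hk, ha.zero, exp_half, pow_zero, div_one, hβ]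
      simp [yy]
    · rw [if_neg hk]
      simp only [rt, sq_sq, yy]
  · rw [if_neg hm, if_neg hm, sub_zero]
    obtain ⟨m, hm'⟩ := Nat.exists_eq_succ_of_ne_zero hm
    rw [hm']
    simp only [Nat.succ_eq_add_one, Nat.add_sub_cancel, yy, Nat.unpair_pair]
    by_cases hk : (Nat.unpair i).1 = 0
    · rw [if_pos hk, if_pos hk, exp_half]
    · rw [if_neg hk, if_neg hk]
      simp only [rt, sq_sq]

lemma Y_sub_E {a : ℕ → ℂ} {v : ℕ → ℂ} (hv : v ∈ Y a) (n : ℕ) : v ∈ E a n :=
  ⟨hv.1, fun i _ => hv.2 i⟩

lemma E_mono {a : ℕ → ℂ} {v : ℕ → ℂ} {n n' : ℕ} (h : n ≤ n') (hv : v ∈ E a n') : v ∈ E a n :=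
  ⟨hv.1, fun i hi => hv.2 i (lt_of_lt_of_le hi h)⟩

/-- replace the first coordinates of chain `0` by powers of `τ` -/
noncomputable def rp (n : ℕ) (τ : ℂ) (u : ℕ → ℂ) : ℕ → ℂ
  | 0 => u 0
  | i + 1 => if (Nat.unpair i).1 = 0 ∧ (Nat.unpair i).2 ≤ n then τ ^ (2 ^ (n - (Nat.unpair i).2))
      else u (i + 1)

lemma rp_mem {a : ℕ → ℂ} (ha : Adm a) {n : ℕ} {τ : ℂ} {u : ℕ → ℂ}
    (hτ : τ ^ (2 ^ (n + 1)) = u 0) (hu : u ∈ E a (Nat.pair 0 n + 1)) :
    rp n τ u ∈ E a (Nat.pair 0 n + 1) := by
  refine ⟨hu.1, fun i hi => ?_⟩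
  have hui := hu.2 i hi
  simp only [rp, par, sh] at hui ⊢
  by_cases hk : (Nat.unpair i).1 = 0
  · have hj : (Nat.unpair i).2 ≤ n := by
      by_contra hc
      push Not at hc
      have h1 : Nat.pair 0 n < Nat.pair 0 (Nat.unpair i).2 := Nat.pair_lt_pair_right 0 hc
      have h2 : Nat.pair 0 (Nat.unpair i).2 = i := by
        conv_rhs => rw [← Nat.pair_unpair i]
        rw [hk]
      omega
    rw [if_pos ⟨hk, hj⟩]
    by_cases hm : (Nat.unpair i).2 = 0
    · rw [if_pos hm, if_pos hm, hk, ha.zero, hm, sub_zero, ← pow_mul, Nat.sub_zero,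
        ← pow_succ, hτ]
    · rw [if_neg hm, if_neg hm, sub_zero]
      obtain ⟨m, hm'⟩ := Nat.exists_eq_succ_of_ne_zero hm
      rw [hm'] at hj ⊢
      simp only [Nat.succ_eq_add_one, Nat.add_sub_cancel, rp, Nat.unpair_pair]
      rw [if_pos ⟨hk, by omega⟩, ← pow_mul, ← pow_succ]
      congr 2
      omega
  · rw [if_neg (fun h => hk h.1)]
    by_cases hm : (Nat.unpair i).2 = 0
    · rw [if_pos hm, if_pos hm] at hui ⊢
      exact hui
    · rw [if_neg hm, if_neg hm] at hui ⊢
      simp only [rp, Nat.unpair_pair]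
      rw [if_neg (fun h => hk h.1)]
      exact hui

/-- expansion in powers of `τ` -/
lemma expand (n : ℕ) (q : MvPolynomial ℕ ℂ) (hq : q ∈ PP (Nat.pair 0 n + 1)) :
    ∃ g : ℕ → MvPolynomial ℕ ℂ, (∀ j, g j ∈ PP (Nat.pair 0 n + 1)) ∧
      ∀ (u : ℕ → ℂ) (τ : ℂ), τ ^ (2 ^ (n + 1)) = u 0 →
        eval (rp n τ u) q = ∑ j ∈ Finset.range (2 ^ (n + 1)), eval u (g j) * τ ^ j := by
  have hN : 0 < 2 ^ (n + 1) := by positivity
  rw [PP, MvPolynomial.supported] at hq
  induction hq using Algebra.adjoin_induction with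
  | mem x hx =>
    obtain ⟨i, hi, rfl⟩ := hx
    cases i with
    | zero =>
      refine ⟨fun j => if j = 0 then X 0 else 0, fun j => ?_, fun u τ hτ => ?_⟩
      · by_cases h : j = 0
        · simp only [h, if_true]
          exact X_mem_supported.2 (by simp)
        · simp only [h, if_false]
          exact zero_mem _
      · rw [Finset.sum_eq_single 0]
        · simp [rp]
        · intro j _ hj
          simp [hj]
        · intro h
          exact absurd (Finset.mem_range.2 hN) h
    | succ i =>
      by_cases h : (Nat.unpair i).1 = 0 ∧ (Nat.unpair i).2 ≤ n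
      · refine ⟨fun j => if j = 2 ^ (n - (Nat.unpair i).2) then 1 else 0, fun j => ?_,
          fun u τ hτ => ?_⟩
        · by_cases hj : j = 2 ^ (n - (Nat.unpair i).2)
          · simp only [hj, if_true]
            exact one_mem _
          · simp only [hj, if_false]
            exact zero_mem _
        · rw [Finset.sum_eq_single (2 ^ (n - (Nat.unpair i).2))]
          · simp [rp, h]
          · intro j _ hj
            simp [hj]
          · intro hc
            exfalso
            apply hc
            rw [Finset.mem_range]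
            exact Nat.pow_lt_pow_right (by norm_num) (by omega)
      · refine ⟨fun j => if j = 0 then X (i + 1) else 0, fun j => ?_, fun u τ hτ => ?_⟩
        · by_cases hj : j = 0
          · simp only [hj, if_true]
            exact X_mem_supported.2 hi
          · simp only [hj, if_false]
            exact zero_mem _
        · rw [Finset.sum_eq_single 0]
          · simp [rp, h]
          · intro j _ hj
            simp [hj]
          · intro h
            exact absurd (Finset.mem_range.2 hN) h
  | algebraMap r =>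
    refine ⟨fun j => if j = 0 then C r else 0, fun j => ?_, fun u τ hτ => ?_⟩
    · by_cases h : j = 0
      · simp only [h, if_true]
        exact Subalgebra.algebraMap_mem _ r
      · simp only [h, if_false]
        exact zero_mem _
    · rw [Finset.sum_eq_single 0]
      · simp [algebraMap_eq]
      · intro j _ hj
        simp [hj]
      · intro h
        exact absurd (Finset.mem_range.2 hN) h
  | add x y _ _ hx hy =>
    obtain ⟨g, hg, hge⟩ := hx
    obtain ⟨k, hk, hke⟩ := hy
    refine ⟨fun j => g j + k j, fun j => add_mem (hg j) (hk j), fun u τ hτ => ?_⟩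
    rw [map_add, hge u τ hτ, hke u τ hτ, ← Finset.sum_add_distrib]
    apply Finset.sum_congr rfl
    intro j _
    rw [map_add, add_mul]
  | mul x y _ _ hx hy =>
    obtain ⟨g, hg, hge⟩ := hx
    obtain ⟨k, hk, hke⟩ := hy
    set N := 2 ^ (n + 1) with hNdef
    refine ⟨fun r => ∑ j ∈ Finset.range N, ∑ l ∈ Finset.range N,
      if (j + l) % N = r then g j * k l * X 0 ^ ((j + l) / N) else 0, fun r => ?_, fun u τ hτ => ?_⟩
    · refine sum_mem fun j _ => sum_mem fun l _ => ?_
      split_ifs
      · exact mul_mem (mul_mem (hg j) (hk l)) (pow_mem (X_mem_supported.2 (by simp)) _)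
      · exact zero_mem _
    · rw [map_mul, hge u τ hτ, hke u τ hτ, Finset.sum_mul_sum]
      have e : ∀ r ∈ Finset.range N, eval u (∑ j ∈ Finset.range N, ∑ l ∈ Finset.range N,
          if (j + l) % N = r then g j * k l * X 0 ^ ((j + l) / N) else 0) * τ ^ r
          = ∑ j ∈ Finset.range N, ∑ l ∈ Finset.range N,
            if (j + l) % N = r then eval u (g j) * τ ^ j * (eval u (k l) * τ ^ l) else 0 := by
        intro r _
        rw [map_sum, Finset.sum_mul]
        apply Finset.sum_congr rfl
        intro j _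
        rw [map_sum, Finset.sum_mul]
        apply Finset.sum_congr rfl
        intro l _
        split_ifs with h
        · rw [map_mul, map_mul, map_pow, eval_X]
          have h1 : τ ^ (j + l) = u 0 ^ ((j + l) / N) * τ ^ r := by
            rw [← hτ, ← pow_mul, ← h, ← pow_add, Nat.div_add_mod]
          have h2 : τ ^ j * τ ^ l = u 0 ^ ((j + l) / N) * τ ^ r := by rw [← pow_add, h1]
          calc eval u (g j) * eval u (k l) * u 0 ^ ((j + l) / N) * τ ^ r
              = eval u (g j) * eval u (k l) * (u 0 ^ ((j + l) / N) * τ ^ r) := by ring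
            _ = eval u (g j) * eval u (k l) * (τ ^ j * τ ^ l) := by rw [h2]
            _ = _ := by ring
        · rw [map_zero, zero_mul]
      rw [Finset.sum_congr rfl e]
      symm
      rw [Finset.sum_comm]
      apply Finset.sum_congr rfl
      intro j _
      rw [Finset.sum_comm]
      apply Finset.sum_congr rfl
      intro l _
      rw [Finset.sum_ite_eq]
      rw [if_pos (Finset.mem_range.2 (Nat.mod_lt _ hN))]

end GLtask

open GLtask in
theorem glStmt : MaxStmt → KernStmt → GlStmt := by
  intro hMax hKern a ha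
  obtain ⟨c, hc2, hK⟩ := hKern
  have hβ : Complex.exp (-(Real.log 2 : ℂ)) = 1 / 2 := by
    rw [Complex.exp_neg, ← Complex.ofReal_exp, Real.exp_log (by norm_num)]
    norm_num
  have hβ' : Complex.exp (-(Real.log 2 : ℂ) + 2 * Real.pi * Complex.I) = 1 / 2 := by
    rw [Complex.exp_add, hβ, Complex.exp_two_pi_mul_I, mul_one]
  set β : ℂ := -(Real.log 2 : ℂ) with hβdef
  set β' : ℂ := β + 2 * Real.pi * Complex.I with hβ'def
  refine ⟨c, hc2, yy a β, yy_mem ha hβ, yy a β', yy_mem ha hβ', ?_, ?_, ?_⟩
  · simp only [yy]; norm_num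
  · have h1 : yy a β 1 = Complex.exp (β / 2) := by
      change (if (Nat.unpair 0).1 = 0 then Complex.exp (β / 2 ^ ((Nat.unpair 0).2 + 1))
        else rt (a (Nat.unpair 0).1) (Nat.unpair 0).2) = _
      simp
    have h2 : yy a β' 1 = -Complex.exp (β / 2) := by
      change (if (Nat.unpair 0).1 = 0 then Complex.exp (β' / 2 ^ ((Nat.unpair 0).2 + 1))
        else rt (a (Nat.unpair 0).1) (Nat.unpair 0).2) = _
      simp only [Nat.unpair_zero, Prod.fst_zero, Prod.snd_zero, if_true, zero_add, pow_one]
      have e : β' / 2 = β / 2 + Real.pi * Complex.I := by rw [hβ'def]; ring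
      rw [e, Complex.exp_add, Complex.exp_pi_mul_I]
      ring
    rw [h1, h2]
    intro h
    have h3 : Complex.exp (β / 2) = 0 := by
      have h4 : (2 : ℂ) * Complex.exp (β / 2) = 0 := by linear_combination -h
      exact (mul_eq_zero.1 h4).resolve_left two_ne_zero
    exact Complex.exp_ne_zero _ h3
  · intro n q hq hq1
    set N : ℕ := 2 ^ (n + 1) with hN
    set t : ℂ := Complex.exp (β / 2 ^ (n + 1)) with ht
    have hNpos : 1 ≤ N := Nat.one_le_two_pow
    have hNc : ((N : ℕ) : ℂ) = 2 ^ (n + 1) := by rw [hN]; push_cast; rfl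
    have hpw : ∀ (b : ℂ) (j : ℕ), j ≤ n →
        Complex.exp (b / 2 ^ (n + 1)) ^ (2 ^ (n - j)) = Complex.exp (b / 2 ^ (j + 1)) := by
      intro b j hj
      rw [← Complex.exp_nat_mul]
      congr 1
      push_cast
      have e : (2 : ℂ) ^ (n + 1) = 2 ^ (n - j) * 2 ^ (j + 1) := by
        rw [← pow_add]; congr 1; omega
      rw [e]
      field_simp
    have hpN : ∀ b : ℂ, Complex.exp (b / 2 ^ (n + 1)) ^ N = Complex.exp b := by
      intro b
      rw [← Complex.exp_nat_mul, hNc]
      congr 1
      field_simp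
    have htN : t ^ N = 1 / 2 := by rw [ht, hpN, hβ]
    have ht' : t * Complex.exp (2 * Real.pi * Complex.I / N) = Complex.exp (β' / 2 ^ (n + 1)) := by
      rw [ht, hNc, ← Complex.exp_add, hβ'def]
      congr 1
      ring
    have ht'N : (t * Complex.exp (2 * Real.pi * Complex.I / N)) ^ N = 1 / 2 := by
      rw [ht', hpN, hβ']
    set t' : ℂ := t * Complex.exp (2 * Real.pi * Complex.I / N) with ht'def
    have hnn' : n ≤ Nat.pair 0 n + 1 := (Nat.right_le_pair 0 n).trans (Nat.le_succ _)
    have hPP : PP n ≤ PP (Nat.pair 0 n + 1) :=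
      MvPolynomial.supported_mono (Set.Iic_subset_Iic.2 hnn')
    obtain ⟨g, hg, hge⟩ := expand n q (hPP hq)
    -- the auxiliary polynomial
    set G : ℕ → MvPolynomial ℕ ℂ := fun j => C (4 / 3 : ℂ) * (C (t ^ j - t' ^ j) * (1 - C (1 / 2) * X 0)
      + C ((starRingEnd ℂ t) ^ (N - j) - (starRingEnd ℂ t') ^ (N - j)) * (X 0 - C (1 / 2))) with hG
    set H : MvPolynomial ℕ ℂ := ∑ j ∈ Finset.range N, g j * G j with hH
    have hX0 : (X 0 : MvPolynomial ℕ ℂ) ∈ PP (Nat.pair 0 n + 1) := X_mem_supported.2 (by simp)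
    have hC : ∀ z : ℂ, (C z : MvPolynomial ℕ ℂ) ∈ PP (Nat.pair 0 n + 1) := fun z =>
      Subalgebra.algebraMap_mem _ z
    have hHm : H ∈ PP (Nat.pair 0 n + 1) := by
      refine sum_mem fun j _ => mul_mem (hg j) ?_
      exact mul_mem (hC _) (add_mem (mul_mem (hC _) (sub_mem (one_mem _) (mul_mem (hC _) hX0)))
        (mul_mem (hC _) (sub_mem hX0 (hC _))))
    have hGe : ∀ (u : ℕ → ℂ) (j : ℕ), eval u (G j) = (4 / 3) * ((t ^ j - t' ^ j) * (1 - u 0 / 2) +
        ((starRingEnd ℂ t) ^ (N - j) - (starRingEnd ℂ t') ^ (N - j)) * (u 0 - 1 / 2)) := by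
      intro u j
      simp only [hG, map_mul, map_add, map_sub, map_one, eval_C, eval_X]
      ring
    -- bound of `H`
    have hHT : ∀ u ∈ T a (Nat.pair 0 n + 1), ‖eval u H‖ ≤ c := by
      intro u hu
      obtain ⟨τ, W, hτ, hW, hker⟩ := hK N hNpos t htN (u 0) hu.2
      have e1 : eval u H = ∑ i ∈ Finset.range N, (W i : ℂ) * eval (rp n (τ i) u) q := by
        rw [hH, map_sum]
        calc ∑ j ∈ Finset.range N, eval u (g j * G j)
            = ∑ j ∈ Finset.range N, ∑ i ∈ Finset.range N,
                (W i : ℂ) * (eval u (g j) * τ i ^ j) := by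
              apply Finset.sum_congr rfl
              intro j hj
              rw [map_mul, hGe, ← hker j (Finset.mem_range.1 hj), Finset.mul_sum]
              apply Finset.sum_congr rfl
              intro i _
              ring
          _ = ∑ i ∈ Finset.range N, (W i : ℂ) * eval (rp n (τ i) u) q := by
              rw [Finset.sum_comm]
              apply Finset.sum_congr rfl
              intro i hi
              rw [hge u (τ i) (hτ i (Finset.mem_range.1 hi)), Finset.mul_sum]
      rw [e1]
      refine (norm_sum_le _ _).trans (le_trans (Finset.sum_le_sum fun i hi => ?_) hW)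
      rw [norm_mul, Complex.norm_real, Real.norm_eq_abs]
      have h1 : rp n (τ i) u ∈ T a n := by
        refine ⟨E_mono hnn' (rp_mem ha (hτ i (Finset.mem_range.1 hi)) hu.1), hu.2⟩
      have h2 := hq1 _ h1
      have h3 := mul_le_mul_of_nonneg_left h2 (abs_nonneg (W i))
      rwa [mul_one] at h3
    have hHy := hMax a _ H hHm c hHT (yy a β) (Y_sub_E (yy_mem ha hβ) _)
    -- value of `H` at `y`
    have hy0 : yy a β 0 = 1 / 2 := rfl
    have e2 : eval (yy a β) H = eval (rp n t (yy a β)) q - eval (rp n t' (yy a β)) q := by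
      rw [hge _ t (by rw [hy0]; exact htN), hge _ t' (by rw [hy0]; exact ht'N),
        ← Finset.sum_sub_distrib, hH, map_sum]
      apply Finset.sum_congr rfl
      intro j _
      rw [map_mul, hGe, hy0]
      ring
    have e3 : rp n t (yy a β) = yy a β := by
      funext i
      cases i with
      | zero => rfl
      | succ i =>
        simp only [rp]
        split_ifs with h
        · simp only [yy]
          rw [if_pos h.1, ht, hpw _ _ h.2]
        · rfl
    have e4 : eval (rp n t' (yy a β)) q = eval (yy a β') q := by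
      apply eval_congr_PP hq
      intro i hi
      cases i with
      | zero => rfl
      | succ i =>
        simp only [rp]
        by_cases hk : (Nat.unpair i).1 = 0
        · have hj : (Nat.unpair i).2 ≤ n := (Nat.unpair_right_le i).trans (by omega)
          rw [if_pos ⟨hk, hj⟩]
          simp only [yy]
          rw [if_pos hk, ht', hpw _ _ hj]
        · rw [if_neg (fun h => hk h.1)]
          simp only [yy]
          rw [if_neg hk, if_neg hk]
    rw [e2, e3, e4] at hHy
    exact hHy

end Pool.Agent.H136R4
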