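import Pool.Agent.H136R4.Stmts

set_option autoImplicit false

namespace Pool.Agent.H136R4

open MvPolynomial

theorem hullgl_eval_congr {n : ℕ} {q : MvPolynomial ℕ ℂ} (hq : q ∈ PP n) {u v : ℕ → ℂ}
    (h : ∀ i ≤ n, u i = v i) : eval u q = eval v q := by
  have hv := MvPolynomial.mem_supported.1 hq
  exact MvPolynomial.eval₂Hom_congr' rfl (fun i hi _ => h i (hv hi)) rfl

theorem hullgl_Y_E {a : ℕ → ℂ} {v : ℕ → ℂ} (hv : v ∈ Y a) (n : ℕ) : v ∈ E a n :=
  ⟨hv.1, fun i _ => hv.2 i⟩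

/-- transfer of bounds from the compact set to the finite levels -/
theorem hullgl_transfer (hE : ExtStmt) {a : ℕ → ℂ} {ε : ℕ → ℝ} {p : MvPolynomial (Fin 3) ℂ}
    {n : ℕ} {q : MvPolynomial ℕ ℂ} (hq : q ∈ PP n) {θ M : ℝ}
    (h : ∀ v ∈ Y a, ‖eval (Phi ε v) p - eval v q‖ ≤ θ) (hM : ∀ x ∈ XX a ε, ‖eval x p‖ ≤ M) :
    ∀ u ∈ T a n, ‖eval u q‖ ≤ M + θ := by
  intro u hu
  obtain ⟨v, hv, hvu⟩ := hE a n u hu.1
  have h1 : eval u q = eval v q := (hullgl_eval_congr hq hvu).symm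
  have h2 : ‖eval (Phi ε v) p‖ ≤ M := by
    apply hM
    exact ⟨v, hv, by rw [hvu 0 (Nat.zero_le _)]; exact hu.2, rfl⟩
  have h3 := h v hv
  rw [h1]
  calc ‖eval v q‖ = ‖eval (Phi ε v) p - (eval (Phi ε v) p - eval v q)‖ := by congr 1; ring
    _ ≤ ‖eval (Phi ε v) p‖ + ‖eval (Phi ε v) p - eval v q‖ := norm_sub_le _ _
    _ ≤ M + θ := add_le_add h2 h3

theorem hullStmt : BoundStmt → ExtStmt → MaxStmt → TruncStmt → CompactStmt → HullStmt := by
  intro _ hE hMax hT hC a ha ε hε v hv p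
  have hne : (XX a ε).Nonempty := by
    obtain ⟨u, hu, hu1⟩ := hE a 0 (fun _ => 1) ⟨by simp, fun i hi => absurd hi (Nat.not_lt_zero _)⟩
    refine ⟨Phi ε u, u, hu, ?_, rfl⟩
    rw [hu1 0 le_rfl]
    simp
  have hcont : ContinuousOn (fun x : Fin 3 → ℂ => ‖eval x p‖) (XX a ε) :=
    (MvPolynomial.continuous_eval p).norm.continuousOn
  obtain ⟨x, hx, hxm⟩ := (hC a ha ε hε).exists_isMaxOn hne hcont
  refine ⟨x, hx, ?_⟩
  by_contra hcon
  rw [not_le] at hcon
  obtain ⟨n, q, hq, hpq⟩ := hT a ha ε hε p ((‖eval (Phi ε v) p‖ - ‖eval x p‖) / 3) (by linarith)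
  have h1 := hullgl_transfer hE hq hpq (M := ‖eval x p‖) (fun z hz => hxm hz)
  have h2 := hMax a n q hq _ h1 v (hullgl_Y_E hv n)
  have h3 := hpq v hv
  have h4 : ‖eval (Phi ε v) p‖ ≤ ‖eval v q‖ + ‖eval (Phi ε v) p - eval v q‖ := by
    calc ‖eval (Phi ε v) p‖ = ‖eval v q + (eval (Phi ε v) p - eval v q)‖ := by congr 1; ring
      _ ≤ _ := norm_add_le _ _
  linarith

theorem gleasonStmt : BoundStmt → ExtStmt → TruncStmt → GlStmt → GleasonStmt := by
  intro _ hE hT hG a ha ε hε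
  obtain ⟨c, hc, y, hy, y', hy', hy0, hne, hG⟩ := hG a ha
  have hc0 : 0 ≤ c := by
    have := hG 0 0 (Subalgebra.zero_mem _) (fun u _ => by simp)
    simpa using this
  refine ⟨c, hc, y, hy, y', hy', hy0, ?_, ?_⟩
  · intro heq
    have hpos : 0 < ‖y' 1 - y 1‖ := norm_pos_iff.2 (sub_ne_zero.2 hne)
    obtain ⟨S, hS⟩ := hε.gen 1 (‖y' 1 - y 1‖ / 3) (by linarith)
    have h1 := hS y hy
    have h2 := hS y' hy'
    rw [heq] at h2
    have h3 : ‖y' 1 - y 1‖ ≤ ‖eval (Phi ε y) S - y 1‖ + ‖eval (Phi ε y) S - y' 1‖ := by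
      calc ‖y' 1 - y 1‖ = ‖(eval (Phi ε y) S - y 1) - (eval (Phi ε y) S - y' 1)‖ := by
            congr 1; ring
        _ ≤ _ := norm_sub_le _ _
    linarith
  · intro p hp
    apply le_of_forall_pos_le_add
    intro δ hδ
    have hθ : 0 < δ / (c + 2) := by positivity
    set θ := δ / (c + 2) with hθd
    obtain ⟨n, q, hq, hpq⟩ := hT a ha ε hε p θ hθ
    have h1 := hullgl_transfer hE hq hpq (M := 1) hp
    have h2 := hG n (C ((1 + θ : ℝ) : ℂ)⁻¹ * q)
      (Subalgebra.mul_mem _ (Subalgebra.algebraMap_mem _ _) hq) (fun u hu => by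
        rw [map_mul, eval_C, norm_mul, norm_inv, Complex.norm_real,
          Real.norm_of_nonneg (by positivity), inv_mul_le_iff₀ (by positivity), mul_one]
        exact h1 u hu)
    rw [map_mul, map_mul, eval_C, eval_C, ← mul_sub, norm_mul, norm_inv, Complex.norm_real,
      Real.norm_of_nonneg (by positivity), inv_mul_le_iff₀ (by positivity)] at h2
    have h3 := hpq y hy
    have h4 := hpq y' hy'
    have h5 : ‖eval (Phi ε y) p - eval (Phi ε y') p‖ ≤ ‖eval (Phi ε y) p - eval y q‖ +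
        ‖eval y q - eval y' q‖ + ‖eval (Phi ε y') p - eval y' q‖ := by
      calc ‖eval (Phi ε y) p - eval (Phi ε y') p‖
          = ‖((eval (Phi ε y) p - eval y q) + (eval y q - eval y' q)) -
              (eval (Phi ε y') p - eval y' q)‖ := by congr 1; ring
        _ ≤ ‖(eval (Phi ε y) p - eval y q) + (eval y q - eval y' q)‖ +
              ‖eval (Phi ε y') p - eval y' q‖ := norm_sub_le _ _
        _ ≤ _ := by gcongr; exact norm_add_le _ _
    have h6 : θ * (c + 2) = δ := by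
      rw [hθd]; field_simp
    nlinarith

end Pool.Agent.H136R4
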