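import Pool.Agent.H136R4.Stmts

/-!
# S18: the kernel
-/

set_option autoImplicit false
set_option maxHeartbeats 4000000
set_option synthInstance.maxHeartbeats 400000

namespace Pool.Agent.H136R4

namespace KernAux

open Finset

/-- the kernel -/
noncomputable def kerK (N : ℕ) (ζ s τ : ℂ) : ℝ :=
  (1 - ‖s‖ ^ 2) / ‖τ - s‖ ^ 2 * ‖ζ - 1 / 2‖ ^ 2 / (N * (3 / 4))

lemma norm_root {N : ℕ} (hN : 1 ≤ N) {ζ τ : ℂ} (hζ : ‖ζ‖ = 1) (hτ : τ ^ N = ζ) : ‖τ‖ = 1 := by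
  have h : ‖τ‖ ^ N = 1 := by rw [← norm_pow, hτ, hζ]
  exact (pow_eq_one_iff_of_nonneg (norm_nonneg _) (by omega)).1 h

lemma norm_pow_half {N : ℕ} {s : ℂ} (hs : s ^ N = 1 / 2) : ‖s‖ ^ N = 1 / 2 := by
  rw [← norm_pow, hs]; norm_num

lemma bern {N : ℕ} {s : ℂ} (hs : s ^ N = 1 / 2) : 1 / 2 ≤ (N : ℝ) * (1 - ‖s‖) := by
  have h := one_add_mul_le_pow (a := ‖s‖ - 1) (by linarith [norm_nonneg s]) N
  rw [add_sub_cancel, norm_pow_half hs] at h
  linarith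

lemma norm_lt {N : ℕ} (hN : 1 ≤ N) {s : ℂ} (hs : s ^ N = 1 / 2) : ‖s‖ < 1 := by
  have h := bern hs
  have hN' : (0 : ℝ) < N := by exact_mod_cast hN
  by_contra hc
  push Not at hc
  nlinarith

lemma conj_half : starRingEnd ℂ (1 / 2) = 1 / 2 := by
  rw [show (1 / 2 : ℂ) = ((1 / 2 : ℝ) : ℂ) by push_cast; ring, Complex.conj_ofReal]

lemma kerK_eq {N : ℕ} (hN : 1 ≤ N) {ζ s τ : ℂ} (hζ : ‖ζ‖ = 1) (hτ : τ ^ N = ζ)
    (hs : s ^ N = 1 / 2) :
    ((kerK N ζ s τ : ℝ) : ℂ) = 4 / (3 * N * ζ) *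
      (τ * (∑ i ∈ range N, τ ^ i * s ^ (N - 1 - i)) * (1 - ζ / 2)
      + starRingEnd ℂ s * τ * (∑ i ∈ range N, (starRingEnd ℂ s * τ) ^ i) * (ζ - 1 / 2)) := by
  have hτ1 := norm_root hN hζ hτ
  have hs1 := norm_lt hN hs
  have hN0 : (N : ℂ) ≠ 0 := by exact_mod_cast (by omega : N ≠ 0)
  have hζ0 : ζ ≠ 0 := by
    intro h; rw [h, norm_zero] at hζ; norm_num at hζ
  have hne : τ - s ≠ 0 := by
    intro h
    have : τ = s := sub_eq_zero.1 h
    rw [this] at hτ1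
    linarith
  have h1 : τ * starRingEnd ℂ τ = 1 := by
    rw [Complex.mul_conj', hτ1]; norm_num
  have h2 : ζ * starRingEnd ℂ ζ = 1 := by
    rw [Complex.mul_conj', hζ]; norm_num
  have hne2 : starRingEnd ℂ τ - starRingEnd ℂ s ≠ 0 := by
    rw [← map_sub]
    exact (map_ne_zero _).2 hne
  have hA : (∑ i ∈ range N, τ ^ i * s ^ (N - 1 - i)) * (τ - s) = ζ - 1 / 2 := by
    rw [(Commute.all τ s).geom_sum₂_mul, hτ, hs]
  have hB : (∑ i ∈ range N, (starRingEnd ℂ s * τ) ^ i) * (starRingEnd ℂ s * τ - 1) =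
      (1 / 2) * ζ - 1 := by
    rw [geom_sum_mul, mul_pow, hτ, ← map_pow, hs, conj_half]
  set A := ∑ i ∈ range N, τ ^ i * s ^ (N - 1 - i) with hAdef
  set B := ∑ i ∈ range N, (starRingEnd ℂ s * τ) ^ i with hBdef
  have e1 : ((‖s‖ : ℝ) : ℂ) ^ 2 = s * starRingEnd ℂ s := (Complex.mul_conj' s).symm
  have e2 : ((‖τ - s‖ : ℝ) : ℂ) ^ 2 = (τ - s) * (starRingEnd ℂ τ - starRingEnd ℂ s) := by
    rw [← Complex.mul_conj', map_sub]
  have e3 : ((‖ζ - 1 / 2‖ : ℝ) : ℂ) ^ 2 = (ζ - 1 / 2) * (starRingEnd ℂ ζ - 1 / 2) := by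
    rw [← Complex.mul_conj', map_sub, conj_half]
  unfold kerK
  push_cast
  rw [e1, e2, e3]
  set T := starRingEnd ℂ τ with hT
  set S := starRingEnd ℂ s with hS
  set Z := starRingEnd ℂ ζ with hZ
  have key : (1 - s * S) * ((ζ - 1 / 2) * (Z - 1 / 2)) * ζ =
      ((τ - s) * (T - S)) * (τ * A * (1 - ζ / 2) + S * τ * B * (ζ - 1 / 2)) := by
    have q1 : (Z - 1 / 2) * ζ = 1 - ζ / 2 := by linear_combination h2
    have q2 : (T - S) * τ = 1 - S * τ := by linear_combination h1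
    calc (1 - s * S) * ((ζ - 1 / 2) * (Z - 1 / 2)) * ζ
        = (1 - s * S) * (ζ - 1 / 2) * ((Z - 1 / 2) * ζ) := by ring
      _ = (1 - s * S) * (ζ - 1 / 2) * (1 - ζ / 2) := by rw [q1]
      _ = (1 - S * τ) * (ζ - 1 / 2) * (1 - ζ / 2) +
          (τ - s) * S * (1 - (1 / 2) * ζ) * (ζ - 1 / 2) := by ring
      _ = ((T - S) * τ) * (A * (τ - s)) * (1 - ζ / 2) +
          (τ - s) * S * (B * (1 - S * τ)) * (ζ - 1 / 2) := by
            rw [q2, hA]
            linear_combination ((τ - s) * S * (ζ - 1 / 2)) * hB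
      _ = ((T - S) * τ) * (A * (τ - s)) * (1 - ζ / 2) +
          (τ - s) * S * (B * ((T - S) * τ)) * (ζ - 1 / 2) := by rw [q2]
      _ = _ := by ring
  rw [div_mul_eq_mul_div, div_div, div_mul_eq_mul_div, div_eq_div_iff]
  · linear_combination (3 * (N : ℂ)) * key
  · exact mul_ne_zero (mul_ne_zero hne hne2) (mul_ne_zero hN0 (by norm_num))
  · exact mul_ne_zero (mul_ne_zero (by norm_num) hN0) hζ0

lemma sum_root {N : ℕ} (hN : 1 ≤ N) {ζ τ₀ : ℂ} (hτ : τ₀ ^ N = ζ) (l : ℕ) (h1 : 1 ≤ l)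
    (h2 : l < 2 * N) :
    ∑ i ∈ range N, (τ₀ * Complex.exp (2 * Real.pi * Complex.I / N) ^ i) ^ l =
      if l = N then (N : ℂ) * ζ else 0 := by
  set w := Complex.exp (2 * Real.pi * Complex.I / N) with hw
  have hprim : IsPrimitiveRoot w N := Complex.isPrimitiveRoot_exp N (by omega)
  have e : ∀ i, (τ₀ * w ^ i) ^ l = τ₀ ^ l * (w ^ l) ^ i := by
    intro i
    rw [mul_pow, ← pow_mul, ← pow_mul, mul_comm i l]
  simp_rw [e, ← mul_sum]
  split_ifs with h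
  · subst h
    rw [hprim.pow_eq_one, hτ]
    simp [mul_comm]
  · have hne : w ^ l ≠ 1 := by
      intro h3
      rw [hprim.pow_eq_one_iff_dvd] at h3
      obtain ⟨k, hk⟩ := h3
      rcases Nat.lt_or_ge k 2 with hk2 | hk2
      · interval_cases k
        · omega
        · omega
      · nlinarith
    rw [geom_sum_eq hne, ← pow_mul, mul_comm l N, pow_mul, hprim.pow_eq_one, one_pow, sub_self,
      zero_div, mul_zero]

lemma sum_ker {N : ℕ} (hN : 1 ≤ N) {ζ τ₀ s : ℂ} (hζ : ‖ζ‖ = 1) (hτ : τ₀ ^ N = ζ)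
    (hs : s ^ N = 1 / 2) (j : ℕ) (hj : j < N) :
    ∑ i ∈ range N, ((kerK N ζ s (τ₀ * Complex.exp (2 * Real.pi * Complex.I / N) ^ i) : ℝ) : ℂ) *
      (τ₀ * Complex.exp (2 * Real.pi * Complex.I / N) ^ i) ^ j =
      4 / 3 * (s ^ j * (1 - ζ / 2) + (starRingEnd ℂ s) ^ (N - j) * (ζ - 1 / 2)) := by
  have hN0 : (N : ℂ) ≠ 0 := by exact_mod_cast (by omega : N ≠ 0)
  have hζ0 : ζ ≠ 0 := by
    intro h; rw [h, norm_zero] at hζ; norm_num at hζ
  have hroot := sum_root hN hτ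
  set w := Complex.exp (2 * Real.pi * Complex.I / N) with hw
  have hprim : IsPrimitiveRoot w N := Complex.isPrimitiveRoot_exp N (by omega)
  have hτi : ∀ i, (τ₀ * w ^ i) ^ N = ζ := by
    intro i
    rw [mul_pow, ← pow_mul, mul_comm i N, pow_mul, hprim.pow_eq_one, one_pow, mul_one, hτ]
  have hterm : ∀ i, ((kerK N ζ s (τ₀ * w ^ i) : ℝ) : ℂ) * (τ₀ * w ^ i) ^ j =
      ∑ m ∈ range N, (4 / (3 * N * ζ) * ((1 - ζ / 2) * s ^ (N - 1 - m) +
        (ζ - 1 / 2) * (starRingEnd ℂ s) ^ (m + 1))) * (τ₀ * w ^ i) ^ (m + 1 + j) := by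
    intro i
    rw [kerK_eq hN hζ (hτi i) hs]
    rw [mul_sum, mul_sum, sum_mul, sum_mul, ← sum_add_distrib, mul_sum, sum_mul]
    refine sum_congr rfl (fun m _ => ?_)
    ring
  simp_rw [hterm]
  rw [sum_comm]
  simp_rw [← mul_sum]
  rw [sum_eq_single (N - 1 - j)]
  · rw [hroot _ (by omega) (by omega), if_pos (by omega)]
    rw [show N - 1 - (N - 1 - j) = j by omega, show N - 1 - j + 1 = N - j by omega]
    field_simp
    try ring
  · intro m hm hne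
    rw [mem_range] at hm
    rw [hroot _ (by omega) (by omega), if_neg (by omega), mul_zero]
  · intro h
    exact absurd (mem_range.2 (by omega)) h

lemma sum_one {N : ℕ} (hN : 1 ≤ N) {ζ τ₀ s : ℂ} (hζ : ‖ζ‖ = 1) (hτ : τ₀ ^ N = ζ)
    (hs : s ^ N = 1 / 2) :
    ∑ i ∈ range N, kerK N ζ s (τ₀ * Complex.exp (2 * Real.pi * Complex.I / N) ^ i) = 1 := by
  have h := sum_ker hN hζ hτ hs 0 (by omega)
  simp only [pow_zero, mul_one, one_mul, Nat.sub_zero] at h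
  rw [← map_pow, hs, conj_half] at h
  have h2 : ((∑ i ∈ range N, kerK N ζ s
      (τ₀ * Complex.exp (2 * Real.pi * Complex.I / N) ^ i) : ℝ) : ℂ) = ((1 : ℝ) : ℂ) := by
    push_cast
    rw [h]
    ring
  exact_mod_cast h2

lemma kerK_nonneg {N : ℕ} (hN : 1 ≤ N) {ζ s τ : ℂ} (hs : s ^ N = 1 / 2) :
    0 ≤ kerK N ζ s τ := by
  have h1 := norm_lt hN hs
  have h2 : 0 ≤ 1 - ‖s‖ ^ 2 := by nlinarith [norm_nonneg s]
  unfold kerK
  positivity

lemma kerK_le {N : ℕ} (hN : 1 ≤ N) {ζ τ t t' : ℂ} (hζ : ‖ζ‖ = 1) (hτ : τ ^ N = ζ)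
    (ht : t ^ N = 1 / 2) (hn : ‖t'‖ = ‖t‖) (hd : ‖t - t'‖ ≤ 2 * Real.pi / N) :
    kerK N ζ t τ ≤ (1 + 4 * Real.pi) ^ 2 * kerK N ζ t' τ := by
  have hN' : (0 : ℝ) < N := by exact_mod_cast hN
  have hτ1 := norm_root hN hζ hτ
  have ht1 := norm_lt hN ht
  have hb := bern ht
  have hpi := Real.pi_pos
  have h1 : 1 - ‖t‖ ≤ ‖τ - t‖ := by
    have := norm_sub_norm_le τ t
    rw [hτ1] at this
    exact this
  have h1' : 0 < ‖τ - t'‖ := by
    have := norm_sub_norm_le τ t'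
    rw [hτ1, hn] at this
    linarith
  have h2 : ‖t - t'‖ ≤ 4 * Real.pi * ‖τ - t‖ := by
    refine hd.trans ?_
    rw [div_le_iff₀ hN']
    have h3 : (N : ℝ) * (1 - ‖t‖) ≤ N * ‖τ - t‖ := mul_le_mul_of_nonneg_left h1 hN'.le
    have h4 : 1 / 2 ≤ (N : ℝ) * ‖τ - t‖ := hb.trans h3
    calc 2 * Real.pi = 4 * Real.pi * (1 / 2) := by ring
      _ ≤ 4 * Real.pi * ((N : ℝ) * ‖τ - t‖) := mul_le_mul_of_nonneg_left h4 (by positivity)
      _ = 4 * Real.pi * ‖τ - t‖ * N := by ring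
  have h3 : ‖τ - t'‖ ≤ (1 + 4 * Real.pi) * ‖τ - t‖ := by
    calc ‖τ - t'‖ = ‖(τ - t) + (t - t')‖ := by congr 1; ring
      _ ≤ ‖τ - t‖ + ‖t - t'‖ := norm_add_le _ _
      _ ≤ ‖τ - t‖ + 4 * Real.pi * ‖τ - t‖ := by linarith
      _ = _ := by ring
  have h0 : 0 < ‖τ - t‖ := by linarith
  have h4 : 1 / ‖τ - t‖ ^ 2 ≤ (1 + 4 * Real.pi) ^ 2 * (1 / ‖τ - t'‖ ^ 2) := by
    rw [mul_one_div, div_le_div_iff₀ (by positivity) (by positivity), one_mul, ← mul_pow]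
    exact pow_le_pow_left₀ (norm_nonneg _) h3 2
  have h5 : 0 ≤ (1 - ‖t‖ ^ 2) * ‖ζ - 1 / 2‖ ^ 2 / (N * (3 / 4)) := by
    have : 0 ≤ 1 - ‖t‖ ^ 2 := by nlinarith [norm_nonneg t]
    positivity
  calc kerK N ζ t τ = ((1 - ‖t‖ ^ 2) * ‖ζ - 1 / 2‖ ^ 2 / (N * (3 / 4))) * (1 / ‖τ - t‖ ^ 2) := by
        unfold kerK; ring
    _ ≤ ((1 - ‖t‖ ^ 2) * ‖ζ - 1 / 2‖ ^ 2 / (N * (3 / 4))) *
        ((1 + 4 * Real.pi) ^ 2 * (1 / ‖τ - t'‖ ^ 2)) := mul_le_mul_of_nonneg_left h4 h5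
    _ = _ := by unfold kerK; rw [hn]; ring

end KernAux

open KernAux Finset in
/-- S18: the kernel. -/
theorem kernStmt : KernStmt := by
  have hpi := Real.pi_pos
  have hC1 : (1 : ℝ) ≤ (1 + 4 * Real.pi) ^ 2 := by nlinarith
  have hC0 : (0 : ℝ) < (1 + 4 * Real.pi) ^ 2 := by positivity
  refine ⟨2 - 2 / (1 + 4 * Real.pi) ^ 2, by
    have : 0 < 2 / (1 + 4 * Real.pi) ^ 2 := by positivity
    linarith, ?_⟩
  intro N hN t ht ζ hζ
  obtain ⟨τ₀, hτ⟩ := IsAlgClosed.exists_pow_nat_eq ζ (show 0 < N by omega)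
  have hprim : IsPrimitiveRoot (Complex.exp (2 * Real.pi * Complex.I / N)) N :=
    Complex.isPrimitiveRoot_exp N (by omega)
  have hwn : ‖Complex.exp (2 * Real.pi * Complex.I / N)‖ = 1 :=
    hprim.norm'_eq_one (by omega)
  have ht' : (t * Complex.exp (2 * Real.pi * Complex.I / N)) ^ N = 1 / 2 := by
    rw [mul_pow, hprim.pow_eq_one, mul_one, ht]
  have hτi : ∀ i, (τ₀ * Complex.exp (2 * Real.pi * Complex.I / N) ^ i) ^ N = ζ := by
    intro i
    rw [mul_pow, ← pow_mul, mul_comm i N, pow_mul, hprim.pow_eq_one, one_pow, mul_one, hτ]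
  have hn : ‖t * Complex.exp (2 * Real.pi * Complex.I / N)‖ = ‖t‖ := by
    rw [norm_mul, hwn, mul_one]
  have hN' : (0 : ℝ) < N := by exact_mod_cast hN
  have hd : ‖t - t * Complex.exp (2 * Real.pi * Complex.I / N)‖ ≤ 2 * Real.pi / N := by
    have h1 : t - t * Complex.exp (2 * Real.pi * Complex.I / N) =
        t * (1 - Complex.exp (2 * Real.pi * Complex.I / N)) := by ring
    rw [h1, norm_mul]
    have h2 : ‖1 - Complex.exp (2 * Real.pi * Complex.I / N)‖ ≤ 2 * Real.pi / N := by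
      rw [norm_sub_rev]
      have h3 := Real.norm_exp_I_mul_ofReal_sub_one_le (x := 2 * Real.pi / N)
      rw [Real.norm_of_nonneg (by positivity)] at h3
      have h4 : Complex.I * ((2 * Real.pi / N : ℝ) : ℂ) = 2 * Real.pi * Complex.I / N := by
        push_cast; ring
      rwa [h4] at h3
    have h5 := norm_lt hN ht
    calc ‖t‖ * ‖1 - Complex.exp (2 * Real.pi * Complex.I / N)‖
        ≤ 1 * (2 * Real.pi / N) := mul_le_mul h5.le h2 (norm_nonneg _) zero_le_one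
      _ = _ := one_mul _
  refine ⟨fun i => τ₀ * Complex.exp (2 * Real.pi * Complex.I / N) ^ i,
    fun i => kerK N ζ t (τ₀ * Complex.exp (2 * Real.pi * Complex.I / N) ^ i) -
      kerK N ζ (t * Complex.exp (2 * Real.pi * Complex.I / N))
        (τ₀ * Complex.exp (2 * Real.pi * Complex.I / N) ^ i), fun i _ => hτi i, ?_, ?_⟩
  · have hterm : ∀ i ∈ range N,
        |kerK N ζ t (τ₀ * Complex.exp (2 * Real.pi * Complex.I / N) ^ i) -
          kerK N ζ (t * Complex.exp (2 * Real.pi * Complex.I / N))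
          (τ₀ * Complex.exp (2 * Real.pi * Complex.I / N) ^ i)| ≤
        kerK N ζ t (τ₀ * Complex.exp (2 * Real.pi * Complex.I / N) ^ i) +
          kerK N ζ (t * Complex.exp (2 * Real.pi * Complex.I / N))
          (τ₀ * Complex.exp (2 * Real.pi * Complex.I / N) ^ i) -
        2 / (1 + 4 * Real.pi) ^ 2 *
          kerK N ζ t (τ₀ * Complex.exp (2 * Real.pi * Complex.I / N) ^ i) := by
      intro i _
      have a0 := kerK_nonneg (ζ := ζ) (τ := τ₀ * Complex.exp (2 * Real.pi * Complex.I / N) ^ i) hN ht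
      have hle := kerK_le hN hζ (hτi i) ht hn hd
      set a := kerK N ζ t (τ₀ * Complex.exp (2 * Real.pi * Complex.I / N) ^ i)
      set b := kerK N ζ (t * Complex.exp (2 * Real.pi * Complex.I / N))
          (τ₀ * Complex.exp (2 * Real.pi * Complex.I / N) ^ i)
      have e1 : 2 / (1 + 4 * Real.pi) ^ 2 * a = 2 * (a / (1 + 4 * Real.pi) ^ 2) := by ring
      have e2 : a / (1 + 4 * Real.pi) ^ 2 ≤ b := by
        rw [div_le_iff₀ hC0]; linarith
      have e3 : a / (1 + 4 * Real.pi) ^ 2 ≤ a := div_le_self a0 hC1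
      rw [e1, abs_le]
      constructor <;> linarith
    refine (sum_le_sum hterm).trans ?_
    rw [sum_sub_distrib, sum_add_distrib, ← mul_sum, sum_one hN hζ hτ ht, sum_one hN hζ hτ ht']
    linarith
  · intro j hj
    have k1 := sum_ker hN hζ hτ ht j hj
    have k2 := sum_ker hN hζ hτ ht' j hj
    have k3 : ∀ i, (((kerK N ζ t (τ₀ * Complex.exp (2 * Real.pi * Complex.I / N) ^ i) -
      kerK N ζ (t * Complex.exp (2 * Real.pi * Complex.I / N))
        (τ₀ * Complex.exp (2 * Real.pi * Complex.I / N) ^ i) : ℝ)) : ℂ) *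
        (τ₀ * Complex.exp (2 * Real.pi * Complex.I / N) ^ i) ^ j =
        ((kerK N ζ t (τ₀ * Complex.exp (2 * Real.pi * Complex.I / N) ^ i) : ℝ) : ℂ) *
        (τ₀ * Complex.exp (2 * Real.pi * Complex.I / N) ^ i) ^ j -
        ((kerK N ζ (t * Complex.exp (2 * Real.pi * Complex.I / N))
        (τ₀ * Complex.exp (2 * Real.pi * Complex.I / N) ^ i) : ℝ) : ℂ) *
        (τ₀ * Complex.exp (2 * Real.pi * Complex.I / N) ^ i) ^ j := by
      intro i
      push_cast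
      ring
    simp_rw [k3]
    rw [sum_sub_distrib, k1, k2]
    ring

end Pool.Agent.H136R4

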