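import Mathlib

set_option autoImplicit false

namespace Pool.Agent.H136R4

open MvPolynomial

/-- Parent index.  Coordinate `i+1` is a square root of `coordinate (par i) - sh a i`;
for `i = Nat.pair k m`, coordinate `i+1` is a `2^(m+1)`-th root of `z - a k` (`z` = coordinate 0). -/
def par (i : ℕ) : ℕ :=
  if (Nat.unpair i).2 = 0 then 0 else Nat.pair (Nat.unpair i).1 ((Nat.unpair i).2 - 1) + 1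

/-- Shift. -/
def sh (a : ℕ → ℂ) (i : ℕ) : ℂ := if (Nat.unpair i).2 = 0 then a (Nat.unpair i).1 else 0

/-- Finite level `n` (only the coordinates `≤ n` matter). -/
def E (a : ℕ → ℂ) (n : ℕ) : Set (ℕ → ℂ) :=
  {v | ‖v 0‖ ≤ 1 ∧ ∀ i < n, v (i + 1) ^ 2 = v (par i) - sh a i}

/-- Finite level, over the circle. -/
def T (a : ℕ → ℂ) (n : ℕ) : Set (ℕ → ℂ) := {v | v ∈ E a n ∧ ‖v 0‖ = 1}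

/-- The tower. -/
def Y (a : ℕ → ℂ) : Set (ℕ → ℂ) :=
  {v | ‖v 0‖ ≤ 1 ∧ ∀ i, v (i + 1) ^ 2 = v (par i) - sh a i}

/-- polynomials in the coordinates `0, …, n`. -/
noncomputable abbrev PP (n : ℕ) : Subalgebra ℂ (MvPolynomial ℕ ℂ) :=
  MvPolynomial.supported ℂ (Set.Iic n)

structure Adm (a : ℕ → ℂ) : Prop where
  zero : a 0 = 0
  inj : Function.Injective a
  lt : ∀ k, ‖a k‖ < 1
  dense : ∀ x : ℂ, ‖x‖ ≤ 1 → ∀ e : ℝ, 0 < e → ∃ k, ‖x - a k‖ < e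

/-- The (perturbed) map to `ℂ³`. -/
noncomputable def Pn (ε : ℕ → ℝ) (n : ℕ) (v : ℕ → ℂ) (h k : ℂ) : Fin 3 → ℂ :=
  ![v 0, (∑ i ∈ Finset.range n, (ε i : ℂ) * v (i + 1)) + h,
    (∑ i ∈ Finset.range n, (ε i : ℂ) * (i : ℂ) * v (i + 1)) + k]

/-- The limit map to `ℂ³`. -/
noncomputable def Phi (ε : ℕ → ℝ) (v : ℕ → ℂ) : Fin 3 → ℂ :=
  ![v 0, ∑' i : ℕ, (ε i : ℂ) * v (i + 1), ∑' i : ℕ, (ε i : ℂ) * (i : ℂ) * v (i + 1)]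

/-- The compact set. -/
def XX (a : ℕ → ℂ) (ε : ℕ → ℝ) : Set (Fin 3 → ℂ) :=
  {w | ∃ v ∈ Y a, ‖v 0‖ = 1 ∧ w = Phi ε v}

/-- nice approximation at level `n`. -/
def NA (a : ℕ → ℂ) (ε : ℕ → ℝ) (n : ℕ) : Prop :=
  ∃ M r : ℝ, 0 < M ∧ 0 < r ∧ ∀ p ∈ PP n, ∀ L : ℝ, (∀ v ∈ E a n, ‖eval v p‖ ≤ L) →
    ∀ θ : ℝ, 0 < θ → ∃ S : MvPolynomial (Fin 3) ℂ,
      (∀ v ∈ E a n, ‖eval (Pn ε n v 0 0) S - eval v p‖ ≤ θ) ∧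
      (∀ v ∈ E a n, ∀ h k : ℂ, ‖h‖ ≤ r → ‖k‖ ≤ r → ‖eval (Pn ε n v h k) S‖ ≤ M * L)

/-- approximate generation of the new root. -/
def SA (a : ℕ → ℂ) (ε : ℕ → ℝ) (n : ℕ) : Prop :=
  ∃ K e₀ : ℝ, 0 < K ∧ 0 < e₀ ∧ ∀ e : ℝ, 0 < e → e ≤ e₀ → ∃ S : MvPolynomial (Fin 3) ℂ,
    ∀ v ∈ E a (n + 1),
      ‖eval (Pn ε n v ((e : ℂ) * v (n + 1)) ((e : ℂ) * (n : ℂ) * v (n + 1))) S - v (n + 1)‖ ≤ K * e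

/-- the properties of `ε` used in the limit. -/
structure Lim (a : ℕ → ℂ) (ε : ℕ → ℝ) : Prop where
  pos : ∀ i, 0 < ε i
  le : ∀ i : ℕ, ((i : ℝ) + 1) * ε i ≤ (1 / 2) ^ i
  gen : ∀ i : ℕ, ∀ θ : ℝ, 0 < θ → ∃ S : MvPolynomial (Fin 3) ℂ,
    ∀ v ∈ Y a, ‖eval (Phi ε v) S - v i‖ ≤ θ

/-- membership in the polynomial hull. -/
def Hull (X : Set (Fin 3 → ℂ)) (w : Fin 3 → ℂ) : Prop :=
  ∀ p : MvPolynomial (Fin 3) ℂ, ∃ x ∈ X, ‖eval w p‖ ≤ ‖eval x p‖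

/-- no nonzero bounded point derivations. -/
def NoDer (X : Set (Fin 3 → ℂ)) : Prop :=
  ∀ z : Fin 3 → ℂ, Hull X z → ∀ D : MvPolynomial (Fin 3) ℂ →ₗ[ℂ] ℂ,
    (∀ p q : MvPolynomial (Fin 3) ℂ,
      D (p * q) = MvPolynomial.eval z p * D q + MvPolynomial.eval z q * D p) →
    (∃ C : ℝ, ∀ p : MvPolynomial (Fin 3) ℂ, ∀ M : ℝ,
      (∀ x ∈ X, ‖MvPolynomial.eval x p‖ ≤ M) → ‖D p‖ ≤ C * M) → D = 0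

/-! ### The statements (each one is a task) -/

/-- S1 -/
def AdmStmt : Prop := ∃ a : ℕ → ℂ, Adm a

/-- S2: bounds -/
def BoundStmt : Prop := ∀ a : ℕ → ℂ, Adm a → ∀ n : ℕ, ∀ v ∈ E a n, ∀ i ≤ n, ‖v i‖ ≤ 2

/-- S3: extension of finite level points -/
def ExtStmt : Prop := ∀ a : ℕ → ℂ, ∀ n : ℕ, ∀ u ∈ E a n, ∃ v ∈ Y a, ∀ i ≤ n, v i = u i

/-- S4: splitting off the last root -/
def SplitStmt : Prop := ∀ a : ℕ → ℂ, ∀ n : ℕ, ∀ p ∈ PP (n + 1),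
  ∃ p₀ ∈ PP n, ∃ p₁ ∈ PP n, ∀ v ∈ E a (n + 1), eval v p = eval v p₀ + v (n + 1) * eval v p₁

/-- S5: maximum principle -/
def MaxStmt : Prop := ∀ a : ℕ → ℂ, ∀ n : ℕ, ∀ p ∈ PP n, ∀ M : ℝ,
  (∀ u ∈ T a n, ‖eval u p‖ ≤ M) → ∀ v ∈ E a n, ‖eval v p‖ ≤ M

/-- S6: the two components are bounded -/
def LowStmt : Prop := ∀ a : ℕ → ℂ, Adm a → ∀ n : ℕ, ∃ C : ℝ, 1 ≤ C ∧
  ∀ p₀ ∈ PP n, ∀ p₁ ∈ PP n, ∀ L : ℝ,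
    (∀ v ∈ E a (n + 1), ‖eval v p₀ + v (n + 1) * eval v p₁‖ ≤ L) →
    ∀ v ∈ E a n, ‖eval v p₀‖ ≤ L ∧ ‖eval v p₁‖ ≤ C * L

/-- S7: Schwarz lemma -/
def LipStmt : Prop := ∀ (S : MvPolynomial (Fin 3) ℂ) (z w₁ w₂ : ℂ) (r B : ℝ), 0 < r →
  (∀ h k : ℂ, ‖h‖ ≤ r → ‖k‖ ≤ r → ‖eval ![z, w₁ + h, w₂ + k] S‖ ≤ B) →
  ∀ (h k : ℂ) (η : ℝ), ‖h‖ ≤ η → ‖k‖ ≤ η → η ≤ r →
    ‖eval ![z, w₁ + h, w₂ + k] S - eval ![z, w₁, w₂] S‖ ≤ 2 * B * η / r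

/-- S8: elimination (pure algebra) -/
def ElimStmt : Prop := ∀ (R M : Type) [CommRing R] [Algebra ℂ R] [AddCommGroup M] [Module R M]
  (a : ℕ → ℂ) (ε : ℕ → ℝ) (n : ℕ) (v : ℕ → R) (δ : ℕ → M) (σ : M) (N : Submodule R M),
  Function.Injective a → (∀ i < n, 0 < ε i) →
  (∀ i < n, v (i + 1) ^ 2 = v (par i) - algebraMap ℂ R (sh a i)) →
  δ 0 = 0 →
  (∀ i < n, δ (par i) - (2 * v (i + 1)) • δ (i + 1) ∈ N) →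
  (σ - ∑ i ∈ Finset.range n, algebraMap ℂ R (ε i : ℂ) • δ (i + 1) ∈ N) →
  ((n : R) • σ - ∑ i ∈ Finset.range n, algebraMap ℂ R ((ε i : ℂ) * (i : ℂ)) • δ (i + 1) ∈ N) →
  σ ∈ N

/-- S9: the new root is approximately generated -/
def SAStmt : Prop := ∀ a : ℕ → ℂ, Adm a → ∀ (ε : ℕ → ℝ) (n : ℕ), (∀ i < n, 0 < ε i) →
  NA a ε n → SA a ε n

/-- S10: Neumann series -/
def StepStmt : Prop := ∀ a : ℕ → ℂ, Adm a → ∀ (ε : ℕ → ℝ) (n : ℕ), (∀ i < n, 0 < ε i) →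
  NA a ε n → SA a ε n → ∃ δ : ℝ, 0 < δ ∧ ∀ e : ℝ, 0 < e → e ≤ δ →
    NA a (Function.update ε n e) (n + 1)

/-- S11: the recursive choice -/
def SeqStmt : Prop := ∀ a : ℕ → ℂ, Adm a → ∃ ε β : ℕ → ℝ, (∀ n, 0 < ε n) ∧ (∀ n, 0 < β n) ∧
  β 0 ≤ 1 ∧ (∀ n : ℕ, 8 * ((n : ℝ) + 1) * ε n ≤ β n) ∧ (∀ n, β (n + 1) ≤ β n / 2) ∧
  ∀ n : ℕ, ∀ i ≤ n, ∃ S : MvPolynomial (Fin 3) ℂ, ∀ v ∈ E a n, ∀ h k : ℂ,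
    ‖h‖ ≤ β n → ‖k‖ ≤ β n → ‖eval (Pn ε n v h k) S - v i‖ ≤ 1 / ((n : ℝ) + 1)

/-- S12: the limit -/
def LimStmt : Prop := ∀ a : ℕ → ℂ, Adm a → ∃ ε : ℕ → ℝ, Lim a ε

/-- S13: no bounded point derivations -/
def DerStmt : Prop := ∀ a : ℕ → ℂ, Adm a → ∀ ε : ℕ → ℝ, Lim a ε → NoDer (XX a ε)

/-- S14: no discs -/
def DiscStmt : Prop := ∀ X : Set (Fin 3 → ℂ), NoDer X →
  ∀ f : ℂ → (Fin 3 → ℂ), DifferentiableOn ℂ f (Metric.ball (0 : ℂ) 1) →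
    (∀ ζ ∈ Metric.ball (0 : ℂ) 1, Hull X (f ζ)) →
    ∃ c : Fin 3 → ℂ, ∀ ζ ∈ Metric.ball (0 : ℂ) 1, f ζ = c

/-- S15: truncation -/
def TruncStmt : Prop := ∀ a : ℕ → ℂ, Adm a → ∀ ε : ℕ → ℝ, Lim a ε →
  ∀ p : MvPolynomial (Fin 3) ℂ, ∀ θ : ℝ, 0 < θ → ∃ n : ℕ, ∃ q ∈ PP n,
    ∀ v ∈ Y a, ‖eval (Phi ε v) p - eval v q‖ ≤ θ

/-- S16: compactness -/
def CompactStmt : Prop := ∀ a : ℕ → ℂ, Adm a → ∀ ε : ℕ → ℝ, Lim a ε → IsCompact (XX a ε)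

/-- S17: hull -/
def HullStmt : Prop := ∀ a : ℕ → ℂ, Adm a → ∀ ε : ℕ → ℝ, Lim a ε →
  ∀ v ∈ Y a, Hull (XX a ε) (Phi ε v)

/-- S18: the kernel -/
def KernStmt : Prop := ∃ c : ℝ, c < 2 ∧ ∀ N : ℕ, 1 ≤ N → ∀ t : ℂ, t ^ N = 1 / 2 →
  ∀ ζ : ℂ, ‖ζ‖ = 1 → ∃ (τ : ℕ → ℂ) (W : ℕ → ℝ), (∀ i < N, τ i ^ N = ζ) ∧
    (∑ i ∈ Finset.range N, |W i| ≤ c) ∧
    ∀ j < N, ∑ i ∈ Finset.range N, (W i : ℂ) * τ i ^ j =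
      (4 / 3) * ((t ^ j - (t * Complex.exp (2 * Real.pi * Complex.I / N)) ^ j) * (1 - ζ / 2) +
        ((starRingEnd ℂ t) ^ (N - j) -
          (starRingEnd ℂ (t * Complex.exp (2 * Real.pi * Complex.I / N))) ^ (N - j)) * (ζ - 1 / 2))

/-- S19: two points at distance < 2, finite level form -/
def GlStmt : Prop := ∀ a : ℕ → ℂ, Adm a → ∃ c : ℝ, c < 2 ∧ ∃ y ∈ Y a, ∃ y' ∈ Y a,
  ‖y 0‖ < 1 ∧ y' 1 ≠ y 1 ∧ ∀ n : ℕ, ∀ q ∈ PP n,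
    (∀ u ∈ T a n, ‖eval u q‖ ≤ 1) → ‖eval y q - eval y' q‖ ≤ c

/-- S20: two points at distance < 2 -/
def GleasonStmt : Prop := ∀ a : ℕ → ℂ, Adm a → ∀ ε : ℕ → ℝ, Lim a ε →
  ∃ c : ℝ, c < 2 ∧ ∃ y ∈ Y a, ∃ y' ∈ Y a, ‖y 0‖ < 1 ∧ Phi ε y' ≠ Phi ε y ∧
    ∀ p : MvPolynomial (Fin 3) ℂ, (∀ x ∈ XX a ε, ‖eval x p‖ ≤ 1) →
      ‖eval (Phi ε y) p - eval (Phi ε y') p‖ ≤ c

end Pool.Agent.H136R4
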