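import Mathlib
import Pool.Agent.H136R4.Stmts

set_option autoImplicit false

namespace Pool.Agent.H136R4

open MvPolynomial

theorem limAux {β : ℕ → ℝ} (hpow : ∀ n j, β (n + j) ≤ β n * (1 / 2) ^ j)
    {f : ℕ → ℂ} (hf : ∀ j, ‖f j‖ ≤ β j / 4) (hβ : ∀ n, 0 < β n) :
    Summable f ∧ ∀ n, ‖∑' j, f (j + n)‖ ≤ β n := by
  have key : ∀ n j, ‖f (j + n)‖ ≤ β n / 4 * (1 / 2) ^ j := by
    intro n j
    have h1 := hf (j + n)
    have h2 := hpow n j
    rw [add_comm n j] at h2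
    linarith
  have hgeo : ∀ n, HasSum (fun j : ℕ => β n / 4 * (1 / 2 : ℝ) ^ j) (β n / 4 * 2) :=
    fun n => hasSum_geometric_two.mul_left _
  refine ⟨?_, fun n => ?_⟩
  · have h0 := key 0
    simp only [add_zero] at h0
    exact Summable.of_norm_bounded (hgeo 0).summable h0
  · have h1 := tsum_of_norm_bounded (hgeo n) (key n)
    have h2 := hβ n
    linarith

/-- S12: the limit -/
theorem limStmt : BoundStmt → SeqStmt → LimStmt := by
  intro hB hS a ha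
  obtain ⟨ε, β, hε, hβ, hβ0, h8, hhalf, hgen⟩ := hS a ha
  have hpow : ∀ n j, β (n + j) ≤ β n * (1 / 2) ^ j := by
    intro n j
    induction j with
    | zero => simp
    | succ j ih =>
      calc β (n + (j + 1)) ≤ β (n + j) / 2 := hhalf (n + j)
        _ ≤ β n * (1 / 2) ^ j / 2 := by linarith
        _ = β n * (1 / 2) ^ (j + 1) := by rw [pow_succ]; ring
  have hle : ∀ i : ℕ, ((i : ℝ) + 1) * ε i ≤ (1 / 2) ^ i := by
    intro i
    have h1 := hpow 0 i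
    rw [zero_add] at h1
    have h2 := h8 i
    have h3 : (0 : ℝ) < (1 / 2) ^ i := by positivity
    have h4 : β 0 * (1 / 2) ^ i ≤ 1 * (1 / 2) ^ i := mul_le_mul_of_nonneg_right hβ0 h3.le
    linarith
  refine ⟨ε, hε, hle, ?_⟩
  intro i θ hθ
  obtain ⟨N, hN⟩ := exists_nat_one_div_lt hθ
  set n := max i N with hn
  obtain ⟨S, hS'⟩ := hgen n i (le_max_left _ _)
  refine ⟨S, fun v hv => ?_⟩
  have hvE : v ∈ E a n := ⟨hv.1, fun j _ => hv.2 j⟩
  have hv2 : ∀ j, ‖v j‖ ≤ 2 := fun j => hB a ha j v ⟨hv.1, fun l _ => hv.2 l⟩ j le_rfl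
  have hf : ∀ j, ‖(ε j : ℂ) * v (j + 1)‖ ≤ β j / 4 := by
    intro j
    have h1 := hv2 (j + 1)
    have h2 := h8 j
    have h3 := hε j
    have h4 : (0 : ℝ) ≤ j := Nat.cast_nonneg j
    rw [norm_mul, Complex.norm_real, Real.norm_eq_abs, abs_of_pos h3]
    have h5 : ε j * ‖v (j + 1)‖ ≤ ε j * 2 := mul_le_mul_of_nonneg_left h1 h3.le
    have h6 : 0 ≤ (j : ℝ) * ε j := by positivity
    linarith
  have hg : ∀ j, ‖(ε j : ℂ) * (j : ℂ) * v (j + 1)‖ ≤ β j / 4 := by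
    intro j
    have h1 := hv2 (j + 1)
    have h2 := h8 j
    have h3 := hε j
    have h4 : (0 : ℝ) ≤ j := Nat.cast_nonneg j
    rw [norm_mul, norm_mul, Complex.norm_real, Real.norm_eq_abs, abs_of_pos h3,
      Complex.norm_natCast]
    have h6 : 0 ≤ ε j * (j : ℝ) := by positivity
    have h5 : ε j * (j : ℝ) * ‖v (j + 1)‖ ≤ ε j * (j : ℝ) * 2 := mul_le_mul_of_nonneg_left h1 h6
    linarith
  obtain ⟨hfs, hfb⟩ := limAux hpow hf hβ
  obtain ⟨hgs, hgb⟩ := limAux hpow hg hβ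
  have hPhi : Phi ε v = Pn ε n v (∑' j, (ε (j + n) : ℂ) * v (j + n + 1))
      (∑' j, (ε (j + n) : ℂ) * ((j + n : ℕ) : ℂ) * v (j + n + 1)) := by
    unfold Phi Pn
    rw [← hfs.sum_add_tsum_nat_add n, ← hgs.sum_add_tsum_nat_add n]
  rw [hPhi]
  refine (hS' v hvE _ _ (hfb n) (hgb n)).trans ?_
  have h1 : (1 : ℝ) / ((n : ℝ) + 1) ≤ 1 / ((N : ℝ) + 1) := by
    apply one_div_le_one_div_of_le (by positivity)
    have : (N : ℝ) ≤ n := by exact_mod_cast le_max_right i N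
    linarith
  linarith

end Pool.Agent.H136R4
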