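import Pool.Agent.H136R4.Stmts

set_option autoImplicit false

namespace Pool.Agent.H136R4

open MvPolynomial

theorem lip_differentiable (S : MvPolynomial (Fin 3) ℂ) (u v : Fin 3 → ℂ) :
    Differentiable ℂ (fun l : ℂ => eval (u + l • v) S) := by
  induction S using MvPolynomial.induction_on with
  | C a => simp
  | add p q hp hq =>
    simp only [map_add]
    exact hp.add hq
  | mul_X p i hp =>
    simp only [map_mul, eval_X]
    refine hp.mul ?_
    have : (fun l : ℂ => (u + l • v) i) = fun l => u i + l * v i := by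
      funext l; simp
    rw [this]
    fun_prop

theorem lipStmt : LipStmt := by
  intro S z w₁ w₂ r B hr hB h k η hh hk hη
  have hη0 : 0 ≤ η := (norm_nonneg h).trans hh
  have hB00 : ‖eval ![z, w₁, w₂] S‖ ≤ B := by
    have := hB 0 0 (by simpa using hr.le) (by simpa using hr.le)
    simpa using this
  have hB0 : 0 ≤ B := (norm_nonneg _).trans hB00
  rcases hη0.eq_or_lt with h0 | hpos
  · subst h0
    have e1 : h = 0 := norm_le_zero_iff.mp hh
    have e2 : k = 0 := norm_le_zero_iff.mp hk
    simp [e1, e2]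
  rcases hη.eq_or_lt with h1 | hlt
  · subst h1
    have e : 2 * B * η / η = 2 * B := by field_simp
    rw [e]
    calc ‖eval ![z, w₁ + h, w₂ + k] S - eval ![z, w₁, w₂] S‖
        ≤ ‖eval ![z, w₁ + h, w₂ + k] S‖ + ‖eval ![z, w₁, w₂] S‖ := norm_sub_le _ _
      _ ≤ B + B := add_le_add (hB h k hh hk) hB00
      _ = 2 * B := by ring
  · set u : Fin 3 → ℂ := ![z, w₁, w₂] with hu
    set v : Fin 3 → ℂ := ![0, h / η, k / η] with hv
    set g : ℂ → ℂ := fun l => eval (u + l • v) S with hg
    have hgd : Differentiable ℂ g := lip_differentiable S u v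
    have huv : ∀ l : ℂ, u + l • v = ![z, w₁ + l * (h / η), w₂ + l * (k / η)] := by
      intro l
      funext i
      fin_cases i <;> simp [hu, hv]
    have hηc : (η : ℂ) ≠ 0 := by exact_mod_cast hpos.ne'
    have hnη : ‖(η : ℂ)‖ = η := by simp [abs_of_pos hpos]
    have hg0 : g 0 = eval ![z, w₁, w₂] S := by simp [hg, hu]
    have hgη : g (η : ℂ) = eval ![z, w₁ + h, w₂ + k] S := by
      simp only [hg]
      rw [huv, mul_div_cancel₀ _ hηc, mul_div_cancel₀ _ hηc]
    have hbd : ∀ l : ℂ, ‖l‖ < r → ‖g l‖ ≤ B := by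
      intro l hl
      simp only [hg]
      rw [huv]
      have aux : ∀ c : ℂ, ‖c‖ ≤ η → ‖l * (c / η)‖ ≤ r := by
        intro c hc
        rw [norm_mul, norm_div, hnη]
        have : ‖c‖ / η ≤ 1 := (div_le_one hpos).2 hc
        calc ‖l‖ * (‖c‖ / η) ≤ ‖l‖ * 1 := mul_le_mul_of_nonneg_left this (norm_nonneg _)
          _ ≤ r := by linarith
      exact hB _ _ (aux h hh) (aux k hk)
    rw [← hgη, ← hg0]
    have hmaps : Set.MapsTo g (Metric.ball 0 r) (Metric.closedBall (g 0) (2 * B)) := by
      intro l hl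
      have hl' : ‖l‖ < r := by simpa using hl
      rw [Metric.mem_closedBall, dist_eq_norm]
      calc ‖g l - g 0‖ ≤ ‖g l‖ + ‖g 0‖ := norm_sub_le _ _
        _ ≤ B + B := add_le_add (hbd l hl') (hbd 0 (by simpa using hr))
        _ = 2 * B := by ring
    have hmem : (η : ℂ) ∈ Metric.ball (0 : ℂ) r := by
      simpa [abs_of_pos hpos] using hlt
    have key := Complex.dist_le_div_mul_dist_of_mapsTo_ball hgd.differentiableOn hmaps hmem
    rw [dist_eq_norm, dist_eq_norm, sub_zero, hnη] at key
    calc ‖g η - g 0‖ ≤ 2 * B / r * η := key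
      _ = 2 * B * η / r := by ring

end Pool.Agent.H136R4
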