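import Pool.Agent.H136R4.Stmts

set_option autoImplicit false

namespace Pool.Agent.H136R4.Low

open MvPolynomial Pool.Agent.H136R4

theorem par_le (i : ℕ) : par i ≤ i := by
  unfold par
  split_ifs with h
  · exact Nat.zero_le _
  · have h1 : Nat.pair (Nat.unpair i).1 ((Nat.unpair i).2 - 1) <
        Nat.pair (Nat.unpair i).1 (Nat.unpair i).2 :=
      Nat.pair_lt_pair_right _ (by omega)
    rw [Nat.pair_unpair] at h1
    omega

theorem eval_eq {n : ℕ} {p : MvPolynomial ℕ ℂ} (hp : p ∈ PP n) {u v : ℕ → ℂ}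
    (h : ∀ i ≤ n, v i = u i) : eval v p = eval u p := by
  have hp' : (↑p.vars : Set ℕ) ⊆ Set.Iic n := MvPolynomial.mem_supported.mp hp
  refine MvPolynomial.eval₂Hom_congr' rfl (fun i hi _ => h i ?_) rfl
  exact hp' (Finset.mem_coe.mpr hi)

theorem upd_mem {a : ℕ → ℂ} {n : ℕ} {u : ℕ → ℂ} (hu : u ∈ E a n) {w : ℂ}
    (hw : w ^ 2 = u (par n) - sh a n) : Function.update u (n + 1) w ∈ E a (n + 1) := by
  refine ⟨?_, fun i hi => ?_⟩
  · rw [Function.update_of_ne (by omega)]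
    exact hu.1
  · have hpar : par i ≤ i := par_le i
    rw [Function.update_of_ne (a := par i) (by omega)]
    rcases Nat.lt_succ_iff_lt_or_eq.mp hi with h | h
    · rw [Function.update_of_ne (by omega)]
      exact hu.2 i h
    · subst h
      rw [Function.update_self]
      exact hw

theorem low_bound {a : ℕ → ℂ} {n : ℕ} {v : ℕ → ℂ} (hv : v ∈ T a (n + 1)) (k : ℕ)
    (hk : ‖a k‖ < 1) : ∀ m : ℕ, Nat.pair k m < n + 1 → 1 - ‖a k‖ ≤ ‖v (Nat.pair k m + 1)‖ := by
  have key : ∀ x y : ℝ, 0 ≤ x → 0 < y → y ≤ 1 → y ≤ x ^ 2 → y ≤ x := by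
    intro x y hx hy hy1 h
    by_contra hlt
    push Not at hlt
    nlinarith
  have hk0 : 0 < 1 - ‖a k‖ := by linarith
  have hk1 : 1 - ‖a k‖ ≤ 1 := by linarith [norm_nonneg (a k)]
  intro m
  induction m with
  | zero =>
    intro hlt
    have h := hv.1.2 _ hlt
    have hpar : par (Nat.pair k 0) = 0 := by simp [par]
    have hsh : sh a (Nat.pair k 0) = a k := by simp [sh]
    rw [hpar, hsh] at h
    refine key _ _ (norm_nonneg _) hk0 hk1 ?_
    rw [← norm_pow, h]
    have h2 := norm_sub_norm_le (v 0) (a k)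
    rw [hv.2] at h2
    exact h2
  | succ m ih =>
    intro hlt
    have hlt' : Nat.pair k m < Nat.pair k (m + 1) := Nat.pair_lt_pair_right _ (by omega)
    have h := hv.1.2 _ hlt
    have hpar : par (Nat.pair k (m + 1)) = Nat.pair k m + 1 := by simp [par]
    have hsh : sh a (Nat.pair k (m + 1)) = 0 := by simp [sh]
    rw [hpar, hsh, sub_zero] at h
    refine key _ _ (norm_nonneg _) hk0 hk1 ?_
    rw [← norm_pow, h]
    exact ih (by omega)

theorem lowStmt (hMax : MaxStmt) : LowStmt := by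
  intro a ha n
  set k := (Nat.unpair n).1 with hkdef
  have hk : ‖a k‖ < 1 := ha.lt k
  have hκ0 : 0 < 1 - ‖a k‖ := by linarith
  have hκ1 : 1 - ‖a k‖ ≤ 1 := by linarith [norm_nonneg (a k)]
  refine ⟨1 / (1 - ‖a k‖), (one_le_div hκ0).mpr hκ1, ?_⟩
  intro p₀ hp₀ p₁ hp₁ L hL
  have main : ∀ u ∈ T a n, ‖eval u p₀‖ ≤ L ∧ ‖eval u p₁‖ ≤ 1 / (1 - ‖a k‖) * L := by
    intro u hu
    obtain ⟨w, hw⟩ := IsAlgClosed.exists_pow_nat_eq (u (par n) - sh a n) (n := 2) (by norm_num)
    have hw' : (-w) ^ 2 = u (par n) - sh a n := by rw [neg_sq]; exact hw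
    have e1 := upd_mem hu.1 hw
    have e2 := upd_mem hu.1 hw'
    have a0 : ∀ w' : ℂ, ∀ i ≤ n, Function.update u (n + 1) w' i = u i := fun w' i hi =>
      Function.update_of_ne (by omega) _ _
    have f1 := hL _ e1
    have f2 := hL _ e2
    rw [eval_eq hp₀ (a0 w), eval_eq hp₁ (a0 w), Function.update_self] at f1
    rw [eval_eq hp₀ (a0 (-w)), eval_eq hp₁ (a0 (-w)), Function.update_self] at f2
    have t1 : Function.update u (n + 1) w ∈ T a (n + 1) := by
      refine ⟨e1, ?_⟩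
      rw [a0 w 0 (Nat.zero_le _)]
      exact hu.2
    have hb := low_bound t1 k hk (Nat.unpair n).2 (by rw [hkdef, Nat.pair_unpair]; omega)
    rw [hkdef, Nat.pair_unpair, ← hkdef, Function.update_self] at hb
    have g0 : ‖eval u p₀‖ ≤ L := by
      have : eval u p₀ = (1 / 2 : ℂ) * ((eval u p₀ + w * eval u p₁) +
          (eval u p₀ + -w * eval u p₁)) := by ring
      rw [this, norm_mul]
      have h3 := norm_add_le (eval u p₀ + w * eval u p₁) (eval u p₀ + -w * eval u p₁)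
      have h4 : ‖(1 / 2 : ℂ)‖ = 1 / 2 := by simp
      rw [h4]
      linarith
    have g1 : ‖w * eval u p₁‖ ≤ L := by
      have : w * eval u p₁ = (1 / 2 : ℂ) * ((eval u p₀ + w * eval u p₁) -
          (eval u p₀ + -w * eval u p₁)) := by ring
      rw [this, norm_mul]
      have h3 := norm_sub_le (eval u p₀ + w * eval u p₁) (eval u p₀ + -w * eval u p₁)
      have h4 : ‖(1 / 2 : ℂ)‖ = 1 / 2 := by simp
      rw [h4]
      linarith
    refine ⟨g0, ?_⟩
    rw [norm_mul] at g1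
    rw [one_div, ← div_eq_inv_mul, le_div_iff₀ hκ0]
    have h5 : (1 - ‖a k‖) * ‖eval u p₁‖ ≤ ‖w‖ * ‖eval u p₁‖ :=
      mul_le_mul_of_nonneg_right hb (norm_nonneg _)
    linarith
  intro v hv
  exact ⟨hMax a n p₀ hp₀ L (fun u hu => (main u hu).1) v hv,
    hMax a n p₁ hp₁ _ (fun u hu => (main u hu).2) v hv⟩

end Pool.Agent.H136R4.Low
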