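import Pool.Agent.H136R4.Stmts

set_option autoImplicit false

namespace Pool.Agent.H136R4

open MvPolynomial

lemma MAX_par_le (n : ℕ) : par n ≤ n := by
  unfold par
  split_ifs with h
  · exact Nat.zero_le _
  · have h1 : Nat.pair (Nat.unpair n).1 ((Nat.unpair n).2 - 1)
        < Nat.pair (Nat.unpair n).1 (Nat.unpair n).2 :=
      Nat.pair_lt_pair_right _ (by omega)
    rw [Nat.pair_unpair] at h1
    omega

/-- the value depends only on the coordinates `≤ n` -/
lemma MAX_dep {n : ℕ} {p : MvPolynomial ℕ ℂ} (hp : p ∈ PP n) {u v : ℕ → ℂ}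
    (h : ∀ i ≤ n, u i = v i) : eval u p = eval v p := by
  have hp' : p ∈ Algebra.adjoin ℂ ((MvPolynomial.X : ℕ → MvPolynomial ℕ ℂ) '' Set.Iic n) := hp
  induction hp' using Algebra.adjoin_induction with
  | mem x hx =>
    obtain ⟨i, hi, rfl⟩ := hx
    rw [eval_X, eval_X]
    exact h i hi
  | algebraMap r => simp [MvPolynomial.algebraMap_eq]
  | add x y hx hy h1 h2 => rw [map_add, map_add, h1 hx, h2 hy]
  | mul x y hx hy h1 h2 => rw [map_mul, map_mul, h1 hx, h2 hy]

lemma MAX_ext1 {a : ℕ → ℂ} {n : ℕ} {u : ℕ → ℂ} (hu : u ∈ E a n) {s : ℂ}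
    (hs : s ^ 2 = u (par n) - sh a n) : Function.update u (n + 1) s ∈ E a (n + 1) := by
  refine ⟨?_, ?_⟩
  · rw [Function.update_of_ne (by omega)]; exact hu.1
  · intro i hi
    have hpi : par i ≠ n + 1 := by have := MAX_par_le i; omega
    rw [Function.update_of_ne hpi]
    rcases Nat.lt_or_ge i n with h | h
    · rw [Function.update_of_ne (by omega)]
      exact hu.2 i h
    · have : i = n := by omega
      subst this
      rw [Function.update_self]
      exact hs

lemma MAX_mono {a : ℕ → ℂ} {n : ℕ} {v : ℕ → ℂ} (hv : v ∈ E a (n + 1)) : v ∈ E a n :=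
  ⟨hv.1, fun i hi => hv.2 i (by omega)⟩

lemma MAX_flip {a : ℕ → ℂ} {n : ℕ} {v : ℕ → ℂ} (hv : v ∈ E a (n + 1)) :
    Function.update v (n + 1) (-v (n + 1)) ∈ E a (n + 1) := by
  apply MAX_ext1 (MAX_mono hv)
  rw [neg_sq]
  exact hv.2 n (by omega)

lemma MAX_T_nonempty (a : ℕ → ℂ) (n : ℕ) : ∃ u, u ∈ T a n := by
  induction n with
  | zero => exact ⟨fun _ => 1, ⟨by simp, fun i hi => absurd hi (by omega)⟩, by simp⟩
  | succ n ih =>
    obtain ⟨u, hu⟩ := ih
    obtain ⟨s, hs⟩ := IsAlgClosed.exists_pow_nat_eq (u (par n) - sh a n) (n := 2) (by norm_num)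
    exact ⟨_, MAX_ext1 hu.1 hs, by rw [Function.update_of_ne (by omega)]; exact hu.2⟩

lemma MAX_pow {x M : ℝ} (hM : 0 ≤ M) (h : ∀ k : ℕ, x ^ k ≤ 3 * M ^ k) : x ≤ M := by
  by_contra hx
  push Not at hx
  rcases hM.eq_or_lt with h0 | h0
  · have := h 1
    rw [← h0] at this hx
    simp at this
    linarith
  · have h1 : 1 < x / M := (one_lt_div h0).mpr hx
    obtain ⟨k, hk⟩ := pow_unbounded_of_one_lt 3 h1
    have h2 := h k
    rw [div_pow, lt_div_iff₀ (by positivity)] at hk
    linarith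

lemma MAX_two {α β : ℂ} {R : ℝ} (hR : 0 ≤ R) (h1 : ‖α + β‖ ≤ 2 * R) (h2 : ‖α * β‖ ≤ R ^ 2) :
    ‖α‖ ≤ 3 * R := by
  have h3 : (α - β) ^ 2 = (α + β) ^ 2 - 4 * (α * β) := by ring
  have h4 : ‖α - β‖ ^ 2 ≤ 8 * R ^ 2 := by
    rw [← norm_pow, h3]
    have h5 : ‖(α + β) ^ 2‖ ≤ (2 * R) ^ 2 := by
      rw [norm_pow]
      exact pow_le_pow_left₀ (norm_nonneg _) h1 2
    have h6 : ‖4 * (α * β)‖ ≤ 4 * R ^ 2 := by
      rw [norm_mul]
      have : ‖(4 : ℂ)‖ = 4 := by norm_num
      rw [this]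
      linarith
    have h7 := norm_sub_le ((α + β) ^ 2) (4 * (α * β))
    nlinarith
  have h8 : ‖α - β‖ ≤ 3 * R := by
    apply le_of_sq_le_sq _ (by positivity)
    nlinarith
  have h9 : α = ((α + β) + (α - β)) / 2 := by ring
  have h10 : ‖α‖ ≤ (2 * R + 3 * R) / 2 := by
    rw [h9, norm_div]
    have : ‖(2 : ℂ)‖ = 2 := by norm_num
    rw [this]
    have := norm_add_le (α + β) (α - β)
    linarith
  linarith

/-- the case `n = 0` -/
lemma MAX_zero (a : ℕ → ℂ) (p : MvPolynomial ℕ ℂ) (hp : p ∈ PP 0) (M : ℝ)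
    (h : ∀ u ∈ T a 0, ‖eval u p‖ ≤ M) (v : ℕ → ℂ) (hv : v ∈ E a 0) : ‖eval v p‖ ≤ M := by
  set P : Polynomial ℂ := MvPolynomial.aeval (fun _ : ℕ => (Polynomial.X : Polynomial ℂ)) p with hP
  have hg : ∀ z : ℂ, eval (fun _ : ℕ => z) p = P.eval z := by
    intro z
    have e : (eval (fun _ : ℕ => z) : MvPolynomial ℕ ℂ →+* ℂ)
        = (Polynomial.evalRingHom z).comp
          (MvPolynomial.aeval (fun _ : ℕ => (Polynomial.X : Polynomial ℂ))).toRingHom := by
      apply MvPolynomial.ringHom_ext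
      · intro r; simp
      · intro i; simp
    exact RingHom.congr_fun e p
  have hv0 : eval v p = P.eval (v 0) := by
    rw [← hg]
    exact MAX_dep hp (fun i hi => by rw [Nat.le_zero.mp hi])
  rw [hv0]
  have hd : DiffContOnCl ℂ (fun z => P.eval z) (Metric.ball (0 : ℂ) 1) :=
    P.differentiable.diffContOnCl
  refine Complex.norm_le_of_forall_mem_frontier_norm_le Metric.isBounded_ball hd ?_ ?_
  · intro z hz
    rw [frontier_ball (0 : ℂ) one_ne_zero, mem_sphere_zero_iff_norm] at hz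
    show ‖P.eval z‖ ≤ M
    rw [← hg]
    exact h (fun _ => z) ⟨⟨hz.le, fun i hi => absurd hi (by omega)⟩, hz⟩
  · rw [closure_ball (0 : ℂ) one_ne_zero, mem_closedBall_zero_iff]
    exact hv.1

theorem maxStmt : SplitStmt → MaxStmt := by
  intro hsplit a n
  induction n with
  | zero => intro p hp M h v hv; exact MAX_zero a p hp M h v hv
  | succ n ih =>
    intro p hp M h v hv
    have hM : 0 ≤ M := by
      obtain ⟨u, hu⟩ := MAX_T_nonempty a (n + 1)
      exact (norm_nonneg _).trans (h u hu)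
    -- values of a polynomial at `w` and its flip
    have hval : ∀ q₀ ∈ PP n, ∀ q₁ ∈ PP n, ∀ q : MvPolynomial ℕ ℂ,
        (∀ w ∈ E a (n + 1), eval w q = eval w q₀ + w (n + 1) * eval w q₁) →
        ∀ w ∈ E a (n + 1), eval (Function.update w (n + 1) (-w (n + 1))) q
          = eval w q₀ - w (n + 1) * eval w q₁ := by
      intro q₀ hq₀ q₁ hq₁ q hq w hw
      have hd : ∀ i ≤ n, (Function.update w (n + 1) (-w (n + 1))) i = w i := fun i hi => by
        rw [Function.update_of_ne (by omega)]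
      rw [hq _ (MAX_flip hw), MAX_dep hq₀ hd, MAX_dep hq₁ hd, Function.update_self]
      ring
    have hext : ∀ u ∈ T a n, ∃ w ∈ T a (n + 1), ∀ i ≤ n, w i = u i := by
      intro u hu
      obtain ⟨s, hs⟩ := IsAlgClosed.exists_pow_nat_eq (u (par n) - sh a n) (n := 2) (by norm_num)
      refine ⟨Function.update u (n + 1) s, ⟨MAX_ext1 hu.1 hs, ?_⟩, ?_⟩
      · rw [Function.update_of_ne (by omega)]; exact hu.2
      · intro i hi
        rw [Function.update_of_ne (by omega)]
    have hflipT : ∀ w ∈ T a (n + 1), Function.update w (n + 1) (-w (n + 1)) ∈ T a (n + 1) := by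
      intro w hw
      refine ⟨MAX_flip hw.1, ?_⟩
      rw [Function.update_of_ne (by omega)]; exact hw.2
    set v' := Function.update v (n + 1) (-v (n + 1)) with hv'
    -- sums of powers
    have hsum : ∀ k : ℕ, ‖(eval v p) ^ k + (eval v' p) ^ k‖ ≤ 2 * M ^ k := by
      intro k
      obtain ⟨A, hA, B, hB, hAB⟩ := hsplit a n (p ^ k) (pow_mem hp k)
      have h2A : ∀ w ∈ E a (n + 1), (eval w p) ^ k
          + (eval (Function.update w (n + 1) (-w (n + 1))) p) ^ k = 2 * eval w A := by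
        intro w hw
        rw [← map_pow, ← map_pow, hAB w hw, hval A hA B hB _ hAB w hw]
        ring
      have hAT : ∀ u ∈ T a n, ‖eval u A‖ ≤ M ^ k := by
        intro u hu
        obtain ⟨w, hw, hwu⟩ := hext u hu
        rw [← MAX_dep hA hwu]
        have e1 := h2A w hw.1
        have e2 : ‖2 * eval w A‖ ≤ 2 * M ^ k := by
          rw [← e1]
          refine (norm_add_le _ _).trans ?_
          rw [norm_pow, norm_pow]
          have h3 := pow_le_pow_left₀ (norm_nonneg _) (h w hw) k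
          have h4 := pow_le_pow_left₀ (norm_nonneg _) (h _ (hflipT w hw)) k
          linarith
        rw [norm_mul] at e2
        have : ‖(2 : ℂ)‖ = 2 := by norm_num
        rw [this] at e2
        linarith
      rw [hv', h2A v hv, norm_mul]
      have : ‖(2 : ℂ)‖ = 2 := by norm_num
      rw [this]
      have h5 := ih A hA (M ^ k) hAT v (MAX_mono hv)
      linarith
    -- the product
    have hprod : ‖eval v p * eval v' p‖ ≤ M ^ 2 := by
      obtain ⟨A, hA, B, hB, hAB⟩ := hsplit a n p hp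
      have hQ : A ^ 2 - (X (par n) - C (sh a n)) * B ^ 2 ∈ PP n := by
        refine sub_mem (pow_mem hA 2) (mul_mem (sub_mem ?_ ?_) (pow_mem hB 2))
        · exact Algebra.subset_adjoin ⟨par n, MAX_par_le n, rfl⟩
        · exact Subalgebra.algebraMap_mem _ _
      have hQv : ∀ w ∈ E a (n + 1), eval w p * eval (Function.update w (n + 1) (-w (n + 1))) p
          = eval w (A ^ 2 - (X (par n) - C (sh a n)) * B ^ 2) := by
        intro w hw
        rw [hAB w hw, hval A hA B hB _ hAB w hw]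
        simp only [map_sub, map_mul, map_pow, eval_X, eval_C]
        have h3 := hw.2 n (by omega)
        rw [← h3]
        ring
      rw [hv', hQv v hv]
      refine ih _ hQ (M ^ 2) ?_ v (MAX_mono hv)
      intro u hu
      obtain ⟨w, hw, hwu⟩ := hext u hu
      rw [← MAX_dep hQ hwu, ← hQv w hw.1, norm_mul, sq]
      exact mul_le_mul (h w hw) (h _ (hflipT w hw)) (norm_nonneg _) hM
    apply MAX_pow hM
    intro k
    rw [← norm_pow]
    apply MAX_two (pow_nonneg hM k) (hsum k)
    rw [← mul_pow, norm_pow, ← pow_mul, mul_comm k 2, pow_mul]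
    exact pow_le_pow_left₀ (norm_nonneg _) hprod k

end Pool.Agent.H136R4
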