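import Pool.Agent.H136R4.Stmts

set_option autoImplicit false

namespace Pool.Agent.H136R4

open MvPolynomial

namespace SEQ

/-- the state property at level `n`. -/
def P (a : ℕ → ℂ) (n : ℕ) (s : (ℕ → ℝ) × ℝ) : Prop :=
  (∀ i < n, 0 < s.1 i) ∧ NA a s.1 n ∧ 0 < s.2 ∧ s.2 ≤ 1 ∧
    ∀ i ≤ n, ∃ S : MvPolynomial (Fin 3) ℂ, ∀ v ∈ E a n, ∀ h k : ℂ,
      ‖h‖ ≤ s.2 → ‖k‖ ≤ s.2 → ‖eval (Pn s.1 n v h k) S - v i‖ ≤ 1 / ((n : ℝ) + 1)

lemma eval_supp0 (p : MvPolynomial ℕ ℂ) (hp : p ∈ PP 0) (v : ℕ → ℂ) :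
    eval (fun _ : ℕ => v 0) p = eval v p := by
  have hp' : (↑p.vars : Set ℕ) ⊆ Set.Iic 0 := MvPolynomial.mem_supported.1 hp
  refine MvPolynomial.hom_congr_vars (f₁ := eval (fun _ : ℕ => v 0)) (f₂ := eval v) ?_ ?_ rfl
  · ext c; simp
  · intro i hi _
    have h0 : i ∈ Set.Iic 0 := hp' hi
    have h1 : i = 0 := by simpa using h0
    subst h1
    simp

lemma P_zero (a : ℕ → ℂ) : P a 0 (fun _ => 1, 1) := by
  refine ⟨fun i hi => absurd hi (Nat.not_lt_zero i), ?_, one_pos, le_refl _, ?_⟩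
  · refine ⟨1, 1, one_pos, one_pos, ?_⟩
    intro p hp L hL θ hθ
    have key : ∀ v : ℕ → ℂ, ∀ h k : ℂ,
        eval (Pn (fun _ => 1) 0 v h k) (rename (fun _ : ℕ => (0 : Fin 3)) p) = eval v p := by
      intro v h k
      rw [eval_rename, ← eval_supp0 p hp v]
      congr 1
    refine ⟨rename (fun _ => 0) p, ?_, ?_⟩
    · intro v hv
      rw [key]
      simpa using hθ.le
    · intro v hv h k _ _
      rw [key, one_mul]
      exact hL v hv
  · intro i hi
    have h1 : i = 0 := Nat.le_zero.1 hi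
    subst h1
    refine ⟨X 0, ?_⟩
    intro v hv h k _ _
    simp [Pn]

lemma P_step (hB : BoundStmt) (hL : LipStmt) (hSA : SAStmt) (hSt : StepStmt)
    (a : ℕ → ℂ) (ha : Adm a) (n : ℕ) (s : (ℕ → ℝ) × ℝ) (hs : P a n s) :
    ∃ s' : (ℕ → ℝ) × ℝ, P a (n + 1) s' ∧ (∀ i < n, s'.1 i = s.1 i) ∧ 0 < s'.1 n ∧
      8 * ((n : ℝ) + 1) * s'.1 n ≤ s.2 ∧ s'.2 ≤ s.2 / 2 := by
  obtain ⟨hpos, hNA, hβ, hβ1, -⟩ := hs
  obtain ⟨δ, hδ, hstep⟩ := hSt a ha s.1 n hpos hNA (hSA a ha s.1 n hpos hNA)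
  have hn : (0 : ℝ) < (n : ℝ) + 1 := by positivity
  have hmin : 0 < min δ s.2 := lt_min hδ hβ
  set e : ℝ := min δ s.2 / (8 * ((n : ℝ) + 1)) with he
  have he0 : 0 < e := by positivity
  have hemul : 8 * ((n : ℝ) + 1) * e = min δ s.2 := by
    rw [he]; field_simp
  have heδ : e ≤ δ := by
    have h1 : (1 : ℝ) ≤ 8 * ((n : ℝ) + 1) := by nlinarith [Nat.cast_nonneg (α := ℝ) n]
    have h2 : e ≤ 8 * ((n : ℝ) + 1) * e := by nlinarith
    calc e ≤ _ := h2
      _ = _ := hemul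
      _ ≤ δ := min_le_left _ _
  have hNA' := hstep e he0 heδ
  have hNA2 := hNA'
  obtain ⟨M, r, hM, hr, hna⟩ := hNA2
  set θ : ℝ := 1 / (2 * ((n : ℝ) + 2)) with hθ
  have hθ0 : 0 < θ := by positivity
  set β' : ℝ := min (s.2 / 2) (min r (θ * r / (4 * M))) with hβ'
  have hβ'0 : 0 < β' := by
    refine lt_min (by positivity) (lt_min hr (by positivity))
  have hβ'1 : β' ≤ s.2 / 2 := min_le_left _ _
  have hβ'2 : β' ≤ r := (min_le_right _ _).trans (min_le_left _ _)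
  have hβ'3 : β' ≤ θ * r / (4 * M) := (min_le_right _ _).trans (min_le_right _ _)
  refine ⟨(Function.update s.1 n e, β'), ⟨?_, hNA', hβ'0, by show β' ≤ 1; linarith, ?_⟩,
    ?_, ?_, ?_, hβ'1⟩
  · intro i hi
    show 0 < Function.update s.1 n e i
    rcases eq_or_ne i n with h | h
    · rw [h, Function.update_self]; exact he0
    · rw [Function.update_of_ne h]; exact hpos i (by omega)
  · intro i hi
    have hXi : (X i : MvPolynomial ℕ ℂ) ∈ PP (n + 1) := by
      rw [MvPolynomial.mem_supported]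
      rw [vars_X]
      simpa using hi
    obtain ⟨S, hS1, hS2⟩ := hna (X i) hXi 2 (by
      intro v hv
      rw [eval_X]
      exact hB a ha (n + 1) v hv i hi) θ hθ0
    refine ⟨S, ?_⟩
    intro v hv h k hh hk
    have h1 := hS1 v hv
    rw [eval_X] at h1
    have hlip := hL S (v 0)
      (∑ i ∈ Finset.range (n + 1), (Function.update s.1 n e i : ℂ) * v (i + 1))
      (∑ i ∈ Finset.range (n + 1), (Function.update s.1 n e i : ℂ) * (i : ℂ) * v (i + 1))
      r (M * 2) hr (fun h k hh hk => hS2 v hv h k hh hk) h k β' hh hk hβ'2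
    have e0 : (![v 0, (∑ i ∈ Finset.range (n + 1), (Function.update s.1 n e i : ℂ) * v (i + 1)),
        (∑ i ∈ Finset.range (n + 1), (Function.update s.1 n e i : ℂ) * (i : ℂ) * v (i + 1))]
        : Fin 3 → ℂ) = Pn (Function.update s.1 n e) (n + 1) v 0 0 := by
      simp [Pn]
    rw [e0] at hlip
    have h3 : 2 * (M * 2) * β' / r ≤ θ := by
      rw [div_le_iff₀ hr]
      rw [le_div_iff₀ (by positivity)] at hβ'3
      linarith
    have h4 : eval (Pn (Function.update s.1 n e) (n + 1) v h k) S - v i =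
        (eval (Pn (Function.update s.1 n e) (n + 1) v h k) S -
          eval (Pn (Function.update s.1 n e) (n + 1) v 0 0) S) +
        (eval (Pn (Function.update s.1 n e) (n + 1) v 0 0) S - v i) := by ring
    show ‖eval (Pn (Function.update s.1 n e) (n + 1) v h k) S - v i‖ ≤ 1 / (((n + 1 : ℕ) : ℝ) + 1)
    rw [h4]
    refine (norm_add_le _ _).trans ?_
    have h5 : θ + θ = 1 / (((n + 1 : ℕ) : ℝ) + 1) := by
      rw [hθ]; push_cast; field_simp; ring
    rw [← h5]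
    exact add_le_add (hlip.trans h3) h1
  · intro i hi
    show Function.update s.1 n e i = s.1 i
    rw [Function.update_of_ne (by omega)]
  · show 0 < Function.update s.1 n e n
    rw [Function.update_self]; exact he0
  · show 8 * ((n : ℝ) + 1) * Function.update s.1 n e n ≤ s.2
    rw [Function.update_self, hemul]; exact min_le_right _ _

end SEQ

open SEQ in
theorem seqStmt : BoundStmt → LipStmt → SAStmt → StepStmt → SeqStmt := by
  intro hB hL hSA hSt a ha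
  have step : ∀ n : ℕ, ∀ s : {s : (ℕ → ℝ) × ℝ // P a n s},
      ∃ s' : {s' : (ℕ → ℝ) × ℝ // P a (n + 1) s'}, (∀ i < n, s'.1.1 i = s.1.1 i) ∧ 0 < s'.1.1 n ∧
      8 * ((n : ℝ) + 1) * s'.1.1 n ≤ s.1.2 ∧ s'.1.2 ≤ s.1.2 / 2 := by
    intro n s
    obtain ⟨s', h1, h2⟩ := P_step hB hL hSA hSt a ha n s.1 s.2
    exact ⟨⟨s', h1⟩, h2⟩
  choose F hF using step
  let q : (n : ℕ) → {s : (ℕ → ℝ) × ℝ // P a n s} :=
    fun n => Nat.rec (motive := fun n => {s : (ℕ → ℝ) × ℝ // P a n s})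
      ⟨(fun _ => 1, 1), P_zero a⟩ (fun n s => F n s) n
  have hq : ∀ n, q (n + 1) = F n (q n) := fun n => rfl
  have hag : ∀ n : ℕ, ∀ i < n, (q (i + 1)).1.1 i = (q n).1.1 i := by
    intro n
    induction n with
    | zero => intro i hi; exact absurd hi (Nat.not_lt_zero i)
    | succ n ih =>
      intro i hi
      rcases Nat.lt_succ_iff_lt_or_eq.1 hi with h | h
      · rw [ih i h, hq n]
        exact ((hF n (q n)).1 i h).symm
      · rw [h]
  refine ⟨fun n => (q (n + 1)).1.1 n, fun n => (q n).1.2, ?_, ?_, ?_, ?_, ?_, ?_⟩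
  · intro n
    show 0 < (q (n + 1)).1.1 n
    rw [hq n]
    exact (hF n (q n)).2.1
  · intro n
    exact (q n).2.2.2.1
  · exact (q 0).2.2.2.2.1
  · intro n
    show 8 * ((n : ℝ) + 1) * (q (n + 1)).1.1 n ≤ (q n).1.2
    rw [hq n]
    exact (hF n (q n)).2.2.1
  · intro n
    show (q (n + 1)).1.2 ≤ (q n).1.2 / 2
    rw [hq n]
    exact (hF n (q n)).2.2.2
  · intro n i hi
    obtain ⟨S, hS⟩ := (q n).2.2.2.2.2 i hi
    refine ⟨S, ?_⟩
    intro v hv h k hh hk
    have h1 : Pn (fun n => (q (n + 1)).1.1 n) n v h k = Pn (q n).1.1 n v h k := by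
      unfold Pn
      have e1 : ∑ i ∈ Finset.range n, (((q (i + 1)).1.1 i : ℝ) : ℂ) * v (i + 1) =
          ∑ i ∈ Finset.range n, (((q n).1.1 i : ℝ) : ℂ) * v (i + 1) := by
        refine Finset.sum_congr rfl fun i hi => ?_
        rw [hag n i (Finset.mem_range.1 hi)]
      have e2 : ∑ i ∈ Finset.range n, (((q (i + 1)).1.1 i : ℝ) : ℂ) * (i : ℂ) * v (i + 1) =
          ∑ i ∈ Finset.range n, (((q n).1.1 i : ℝ) : ℂ) * (i : ℂ) * v (i + 1) := by
        refine Finset.sum_congr rfl fun i hi => ?_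
        rw [hag n i (Finset.mem_range.1 hi)]
      rw [e1, e2]
    rw [h1]
    exact hS v hv h k hh hk

end Pool.Agent.H136R4
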