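import Pool.Agent.H136R4.Stmts

set_option autoImplicit false

namespace Pool.Agent.H136R4

open MvPolynomial

lemma E_sub (a : ℕ → ℂ) (n : ℕ) {v : ℕ → ℂ} (hv : v ∈ E a (n + 1)) : v ∈ E a n :=
  ⟨hv.1, fun i hi => hv.2 i (by omega)⟩

lemma X_mem_PP {n i : ℕ} (hi : i ≤ n) : (X i : MvPolynomial ℕ ℂ) ∈ PP n := by
  unfold PP
  rw [MvPolynomial.supported]
  exact Algebra.subset_adjoin ⟨i, hi, rfl⟩

lemma sab_par_le (i : ℕ) : par i ≤ i := by
  unfold par
  split_ifs with h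
  · exact Nat.zero_le _
  · have h1 : Nat.pair (Nat.unpair i).1 ((Nat.unpair i).2 - 1) <
        Nat.pair (Nat.unpair i).1 (Nat.unpair i).2 := Nat.pair_lt_pair_right _ (by omega)
    rw [Nat.pair_unpair] at h1
    exact h1

lemma PP_bdd (hB : BoundStmt) (a : ℕ → ℂ) (ha : Adm a) (n : ℕ) (p : MvPolynomial ℕ ℂ) (hp : p ∈ PP n) :
    ∃ L : ℝ, 0 ≤ L ∧ ∀ v ∈ E a n, ‖eval v p‖ ≤ L := by
  unfold PP at hp
  rw [MvPolynomial.supported] at hp
  induction hp using Algebra.adjoin_induction with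
  | mem x hx =>
    obtain ⟨i, hi, rfl⟩ := hx
    exact ⟨2, by norm_num, fun v hv => by simpa using hB a ha n v hv i hi⟩
  | algebraMap r => exact ⟨‖r‖, norm_nonneg _, fun v hv => by simp [MvPolynomial.algebraMap_eq]⟩
  | add x y _ _ hx hy =>
    obtain ⟨L1, h1, h1'⟩ := hx
    obtain ⟨L2, h2, h2'⟩ := hy
    refine ⟨L1 + L2, by positivity, fun v hv => ?_⟩
    rw [map_add]
    exact (norm_add_le _ _).trans (add_le_add (h1' v hv) (h2' v hv))
  | mul x y _ _ hx hy =>
    obtain ⟨L1, h1, h1'⟩ := hx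
    obtain ⟨L2, h2, h2'⟩ := hy
    refine ⟨L1 * L2, by positivity, fun v hv => ?_⟩
    rw [map_mul, norm_mul]
    exact mul_le_mul (h1' v hv) (h2' v hv) (norm_nonneg _) h1

/-- the perturbed point -/
noncomputable def Pe (ε : ℕ → ℝ) (n : ℕ) (e : ℝ) (v : ℕ → ℂ) : Fin 3 → ℂ :=
  Pn ε n v ((e : ℂ) * v (n + 1)) ((e : ℂ) * (n : ℂ) * v (n + 1))

lemma approx (hB : BoundStmt) (hLip : LipStmt) (a : ℕ → ℂ) (ha : Adm a) (ε : ℕ → ℝ) (n : ℕ)
    (hNA : NA a ε n) (p : MvPolynomial ℕ ℂ) (hp : p ∈ PP n) :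
    ∃ K e₀ : ℝ, 0 < K ∧ 0 < e₀ ∧ ∀ e : ℝ, 0 < e → e ≤ e₀ → ∃ S : MvPolynomial (Fin 3) ℂ,
      (∀ v ∈ E a (n + 1), ‖eval (Pe ε n e v) S - eval v p‖ ≤ K * e) ∧
      (∀ v ∈ E a (n + 1), ‖eval (Pe ε n e v) S‖ ≤ K) := by
  obtain ⟨M, r, hM, hr, hNA⟩ := hNA
  obtain ⟨L, hL, hpL⟩ := PP_bdd hB a ha n p hp
  set K : ℝ := M * L + 1 + 4 * (M * L) * (n + 1) / r with hK
  have hn : (0:ℝ) ≤ n := Nat.cast_nonneg n
  have hML : 0 ≤ M * L := by positivity
  have hq : 0 ≤ 4 * (M * L) * (n + 1) / r := by positivity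
  have hKpos : 0 < K := by positivity
  refine ⟨K, r / (2 * (n + 1)), hKpos, by positivity, fun e he hee => ?_⟩
  obtain ⟨S, hS1, hS2⟩ := hNA p hp L hpL e he
  have hη : 2 * ((n:ℝ) + 1) * e ≤ r := by
    have : e * (2 * ((n:ℝ) + 1)) ≤ r := by
      rwa [le_div_iff₀ (by positivity)] at hee
    linarith
  have hbd : ∀ v ∈ E a (n + 1), ‖(e : ℂ) * v (n + 1)‖ ≤ 2 * ((n:ℝ) + 1) * e ∧
      ‖(e : ℂ) * (n : ℂ) * v (n + 1)‖ ≤ 2 * ((n:ℝ) + 1) * e := by
    intro v hv
    have h2 := hB a ha (n + 1) v hv (n + 1) le_rfl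
    have he' : ‖(e:ℂ)‖ = e := by rw [Complex.norm_real, Real.norm_of_nonneg he.le]
    constructor
    · rw [norm_mul, he']
      nlinarith [norm_nonneg (v (n + 1)), mul_nonneg hn he.le]
    · rw [norm_mul, norm_mul, he', Complex.norm_natCast]
      have : e * n * ‖v (n + 1)‖ ≤ e * n * 2 := mul_le_mul_of_nonneg_left h2 (by positivity)
      nlinarith
  refine ⟨S, fun v hv => ?_, fun v hv => ?_⟩
  · obtain ⟨b1, b2⟩ := hbd v hv
    have hl := hLip S (v 0) (∑ i ∈ Finset.range n, (ε i : ℂ) * v (i + 1))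
      (∑ i ∈ Finset.range n, (ε i : ℂ) * (i : ℂ) * v (i + 1)) r (M * L) hr
      (fun h k hh hk => hS2 v (E_sub a n hv) h k hh hk) _ _ _ b1 b2 hη
    have h1 := hS1 v (E_sub a n hv)
    have e0 : Pn ε n v 0 0 = ![v 0, ∑ i ∈ Finset.range n, (ε i : ℂ) * v (i + 1),
        ∑ i ∈ Finset.range n, (ε i : ℂ) * (i : ℂ) * v (i + 1)] := by
      simp [Pn]
    rw [e0] at h1
    have h3 : ‖eval (Pe ε n e v) S - eval v p‖ ≤ 2 * (M * L) * (2 * ((n:ℝ) + 1) * e) / r + e := by
      calc _ = ‖(eval (Pe ε n e v) S - eval ![v 0, ∑ i ∈ Finset.range n, (ε i : ℂ) * v (i + 1),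
        ∑ i ∈ Finset.range n, (ε i : ℂ) * (i : ℂ) * v (i + 1)] S) +
          (eval ![v 0, ∑ i ∈ Finset.range n, (ε i : ℂ) * v (i + 1),
        ∑ i ∈ Finset.range n, (ε i : ℂ) * (i : ℂ) * v (i + 1)] S - eval v p)‖ := by
            congr 1; ring
        _ ≤ _ := (norm_add_le _ _).trans (add_le_add hl h1)
    refine h3.trans ?_
    have : 2 * (M * L) * (2 * ((n:ℝ) + 1) * e) / r = (4 * (M * L) * (n + 1) / r) * e := by ring
    rw [this, hK]
    nlinarith [mul_nonneg hML he.le]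
  · obtain ⟨b1, b2⟩ := hbd v hv
    have := hS2 v (E_sub a n hv) _ _ (b1.trans hη) (b2.trans hη)
    refine (this : ‖eval (Pe ε n e v) S‖ ≤ M * L).trans ?_
    rw [hK]; linarith

theorem saStmtB (hB : BoundStmt) (hLip : LipStmt) (hElim : ElimStmt) : SAStmt := by
  intro a ha ε n hε hNA
  classical
  -- evaluation homomorphism
  let V := ↥(E a (n + 1))
  let ev : MvPolynomial ℕ ℂ →ₐ[ℂ] (V → ℂ) := AlgHom.pi (fun v : V => (aeval v.1 : MvPolynomial ℕ ℂ →ₐ[ℂ] ℂ))
  have hev : ∀ p (v : V), ev p v = eval v.1 p := fun p v => by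
    simp [ev, MvPolynomial.coe_aeval_eq_eval]
  let R : Subalgebra ℂ (V → ℂ) := (PP n).map ev
  let Nice : (ℝ → V → ℂ) → Prop := fun x => ∃ K e₀ : ℝ, 0 < K ∧ 0 < e₀ ∧ ∀ e : ℝ, 0 < e → e ≤ e₀ →
    (∀ v : V, ‖x e v‖ ≤ K * e) ∧ ∃ G : MvPolynomial (Fin 3) ℂ,
      ∀ v : V, ‖eval (Pe ε n e v.1) G - x e v‖ ≤ K * e ^ 2
  let NN : Submodule R (ℝ → V → ℂ) :=
    { carrier := {x | Nice x}
      zero_mem' := ⟨1, 1, one_pos, one_pos, fun e he _ =>
        ⟨fun v => by simpa using he.le, 0, fun v => by simp; positivity⟩⟩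
      add_mem' := by
        rintro x y ⟨K1, e1, hK1, he1, h1⟩ ⟨K2, e2, hK2, he2, h2⟩
        refine ⟨K1 + K2, min e1 e2, by positivity, lt_min he1 he2, fun e he hee => ?_⟩
        obtain ⟨hx1, G1, hG1⟩ := h1 e he (hee.trans (min_le_left _ _))
        obtain ⟨hx2, G2, hG2⟩ := h2 e he (hee.trans (min_le_right _ _))
        refine ⟨fun v => ?_, G1 + G2, fun v => ?_⟩
        · have := norm_add_le (x e v) (y e v)
          have h := hx1 v
          have h' := hx2 v
          show ‖x e v + y e v‖ ≤ _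
          nlinarith
        · have h := hG1 v
          have h' := hG2 v
          have := norm_add_le (eval (Pe ε n e v.1) G1 - x e v) (eval (Pe ε n e v.1) G2 - y e v)
          show ‖eval (Pe ε n e v.1) (G1 + G2) - (x e v + y e v)‖ ≤ _
          rw [map_add]
          have e1 : eval (Pe ε n e v.1) G1 + eval (Pe ε n e v.1) G2 - (x e v + y e v) =
            (eval (Pe ε n e v.1) G1 - x e v) + (eval (Pe ε n e v.1) G2 - y e v) := by ring
          rw [e1]
          nlinarith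
      smul_mem' := by
        rintro ⟨c, hc⟩ x ⟨K1, e1, hK1, he1, h1⟩
        obtain ⟨p, hp, rfl⟩ := (Subalgebra.mem_map).1 hc
        obtain ⟨L, hL, hpL⟩ := PP_bdd hB a ha n p hp
        obtain ⟨K2, e2, hK2, he2, h2⟩ := approx hB hLip a ha ε n hNA p hp
        refine ⟨L * K1 + K2 * K1 + K2 * K1, min e1 e2, by positivity, lt_min he1 he2,
          fun e he hee => ?_⟩
        obtain ⟨hx1, G1, hG1⟩ := h1 e he (hee.trans (min_le_left _ _))
        obtain ⟨P, hP1, hP2⟩ := h2 e he (hee.trans (min_le_right _ _))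
        have hsm : ∀ v : V, ((⟨ev p, hc⟩ : R) • x) e v = eval v.1 p * x e v := by
          intro v
          show ev p v * x e v = _
          rw [hev]
        refine ⟨fun v => ?_, P * G1, fun v => ?_⟩
        · rw [hsm, norm_mul]
          have := hpL v.1 (E_sub a n v.2)
          have h3 := hx1 v
          have : ‖eval v.1 p‖ * ‖x e v‖ ≤ L * (K1 * e) :=
            mul_le_mul this h3 (norm_nonneg _) hL
          have h4 : 0 ≤ K2 * K1 * e := by positivity
          nlinarith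
        · rw [hsm, map_mul]
          have e1 : eval (Pe ε n e v.1) P * eval (Pe ε n e v.1) G1 - eval v.1 p * x e v =
            eval (Pe ε n e v.1) P * (eval (Pe ε n e v.1) G1 - x e v) +
            (eval (Pe ε n e v.1) P - eval v.1 p) * x e v := by ring
          rw [e1]
          refine (norm_add_le _ _).trans ?_
          rw [norm_mul, norm_mul]
          have t1 : ‖eval (Pe ε n e v.1) P‖ * ‖eval (Pe ε n e v.1) G1 - x e v‖ ≤ K2 * (K1 * e ^ 2) :=
            mul_le_mul (hP2 v.1 v.2) (hG1 v) (norm_nonneg _) hK2.le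
          have t2 : ‖eval (Pe ε n e v.1) P - eval v.1 p‖ * ‖x e v‖ ≤ (K2 * e) * (K1 * e) :=
            mul_le_mul (hP1 v.1 v.2) (hx1 v) (norm_nonneg _) (by positivity)
          have t3 : 0 ≤ L * K1 * e ^ 2 := by positivity
          nlinarith }
  -- choice of the approximating polynomials
  have hch : ∀ i : ℕ, ∃ (K e₀ : ℝ) (S : ℝ → MvPolynomial (Fin 3) ℂ), 0 < K ∧ 0 < e₀ ∧
      (i = 0 → ∀ e, S e = X 0) ∧
      (i ≤ n → ∀ e : ℝ, 0 < e → e ≤ e₀ → ∀ v ∈ E a (n + 1), ‖eval (Pe ε n e v) (S e) - v i‖ ≤ K * e) := by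
    intro i
    by_cases hi0 : i = 0
    · refine ⟨1, 1, fun _ => X 0, one_pos, one_pos, fun _ _ => rfl, fun _ e he _ v hv => ?_⟩
      subst hi0
      simp [Pe, Pn]
      exact he.le
    · by_cases hi : i ≤ n
      · obtain ⟨K, e₀, hK, he₀, h⟩ := approx hB hLip a ha ε n hNA (X i) (X_mem_PP hi)
        choose! S hS1 hS2 using h
        exact ⟨K, e₀, S, hK, he₀, fun h => absurd h hi0, fun _ e he hee v hv => by
          simpa using hS1 e he hee v hv⟩
      · exact ⟨1, 1, fun _ => X 0, one_pos, one_pos, fun h => absurd h hi0, fun h => absurd h hi⟩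
  choose K e₀ S hK he₀ hS0 hS using hch
  let δ : ℕ → ℝ → V → ℂ := fun i e v => eval (Pe ε n e v.1) (S i e) - v.1 i
  let σ : ℝ → V → ℂ := fun e v => (e : ℂ) * v.1 (n + 1)
  have hXR : ∀ i ≤ n, ev (X i) ∈ R := fun i hi => Subalgebra.mem_map.2 ⟨X i, X_mem_PP hi, rfl⟩
  let vv : ℕ → R := fun i => if hi : i ≤ n then ⟨ev (X i), hXR i hi⟩ else 0
  have hvv : ∀ i (hi : i ≤ n), vv i = ⟨ev (X i), hXR i hi⟩ := fun i hi => by simp [vv, hi]
  have hvvv : ∀ i, i ≤ n → ∀ v : V, (vv i).1 v = v.1 i := by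
    intro i hi v
    rw [hvv i hi]
    show ev (X i) v = _
    rw [hev]; simp
  -- common bounds
  have hδbd : ∀ i ≤ n, ∀ e : ℝ, 0 < e → e ≤ e₀ i → ∀ v : V, ‖δ i e v‖ ≤ K i * e :=
    fun i hi e he hee v => hS i hi e he hee v.1 v.2
  have hmin : ∀ m : ℕ, ∃ e' : ℝ, 0 < e' ∧ ∀ i ≤ m, e' ≤ e₀ i := by
    intro m
    induction m with
    | zero => exact ⟨e₀ 0, he₀ 0, fun i hi => by rw [Nat.le_zero.1 hi]⟩
    | succ m ih =>
      obtain ⟨e', he', h⟩ := ih
      refine ⟨min e' (e₀ (m + 1)), lt_min he' (he₀ _), fun i hi => ?_⟩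
      rcases Nat.lt_or_ge i (m + 1) with h1 | h1
      · exact (min_le_left _ _).trans (h i (by omega))
      · have : i = m + 1 := by omega
        rw [this]; exact min_le_right _ _
  obtain ⟨em, hem, hemle⟩ := hmin n
  have key : ∀ (x : ℝ → V → ℂ) (w : ℕ → ℂ) (c : ℂ) (j : Fin 3),
      (∀ e v, x e v = c * ((e : ℂ) * v.1 (n + 1)) -
        ∑ i ∈ Finset.range n, w i * δ (i + 1) e v) →
      (∀ e (v : V), Pe ε n e v.1 j = (∑ i ∈ Finset.range n, w i * v.1 (i + 1)) +
        c * ((e : ℂ) * v.1 (n + 1))) → Nice x := by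
    intro x w c j hx hP
    have hS0' : 0 ≤ ∑ i ∈ Finset.range n, ‖w i‖ * K (i + 1) :=
      Finset.sum_nonneg fun i _ => mul_nonneg (norm_nonneg _) (hK _).le
    refine ⟨2 * ‖c‖ + (∑ i ∈ Finset.range n, ‖w i‖ * K (i + 1)) + 1, em, by positivity, hem,
      fun e he hee => ⟨fun v => ?_, X j - ∑ i ∈ Finset.range n, C (w i) * S (i + 1) e, fun v => ?_⟩⟩
    · rw [hx]
      refine (norm_sub_le _ _).trans ?_
      have t1 : ‖c * ((e : ℂ) * v.1 (n + 1))‖ ≤ 2 * ‖c‖ * e := by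
        rw [norm_mul, norm_mul, Complex.norm_real, Real.norm_of_nonneg he.le]
        have b3 := hB a ha (n + 1) v.1 v.2 (n + 1) le_rfl
        have : e * ‖v.1 (n + 1)‖ ≤ e * 2 := mul_le_mul_of_nonneg_left b3 he.le
        nlinarith [norm_nonneg c]
      have t2 : ‖∑ i ∈ Finset.range n, w i * δ (i + 1) e v‖ ≤
          (∑ i ∈ Finset.range n, ‖w i‖ * K (i + 1)) * e := by
        refine (norm_sum_le _ _).trans ?_
        rw [Finset.sum_mul]
        refine Finset.sum_le_sum fun i hi => ?_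
        have hi' : i + 1 ≤ n := Finset.mem_range.1 hi
        rw [norm_mul, mul_assoc]
        exact mul_le_mul_of_nonneg_left (hδbd (i + 1) hi' e he (hee.trans (hemle _ hi')) v)
          (norm_nonneg _)
      nlinarith
    · have e1 : eval (Pe ε n e v.1) (X j - ∑ i ∈ Finset.range n, C (w i) * S (i + 1) e) -
          x e v = 0 := by
        rw [hx, map_sub, eval_X, hP, map_sum]
        have : ∑ i ∈ Finset.range n, w i * δ (i + 1) e v =
            (∑ i ∈ Finset.range n, w i * eval (Pe ε n e v.1) (S (i + 1) e)) -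
            ∑ i ∈ Finset.range n, w i * v.1 (i + 1) := by
          rw [← Finset.sum_sub_distrib]
          refine Finset.sum_congr rfl fun i _ => ?_
          simp only [δ]; ring
        rw [this]
        simp only [map_mul, eval_C]
        ring
      rw [e1, norm_zero]
      positivity
  have hsumR : ∀ (w : ℕ → ℂ) (e : ℝ) (v : V),
      (∑ i ∈ Finset.range n, algebraMap ℂ R (w i) • δ (i + 1)) e v =
        ∑ i ∈ Finset.range n, w i * δ (i + 1) e v := by
    intro w e v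
    rw [Finset.sum_apply, Finset.sum_apply]
    refine Finset.sum_congr rfl fun i _ => ?_
    rfl
  have hmem : σ ∈ NN := by
    refine hElim R (ℝ → V → ℂ) a ε n vv δ σ NN ha.inj hε ?_ ?_ ?_ ?_ ?_
    · intro i hi
      apply Subtype.ext
      funext v
      have h1 := v.2.2 i (by omega)
      have e1 := hvvv (i + 1) (by omega) v
      have e2 := hvvv (par i) ((sab_par_le i).trans hi.le) v
      show ((vv (i + 1)).1 v) ^ 2 = (vv (par i)).1 v - sh a i
      rw [e1, e2, h1]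
    · funext e v
      show eval (Pe ε n e v.1) (S 0 e) - v.1 0 = 0
      rw [hS0 0 rfl]
      simp [Pe, Pn]
    · intro i hi
      have hi1 : i + 1 ≤ n := hi
      have hpi : par i ≤ n := (sab_par_le i).trans hi.le
      have hx : ∀ e (v : V), (δ (par i) - (2 * vv (i + 1)) • δ (i + 1)) e v =
          δ (par i) e v - 2 * v.1 (i + 1) * δ (i + 1) e v := by
        intro e v
        show δ (par i) e v - ((2 * vv (i + 1) : R).1 v) * δ (i + 1) e v = _
        have : (2 * vv (i + 1) : R).1 v = 2 * v.1 (i + 1) := by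
          show (2 : V → ℂ) v * (vv (i + 1)).1 v = _
          rw [hvvv _ hi1]; rfl
        rw [this]
      refine ⟨K (par i) + 4 * K (i + 1) + K (i + 1) ^ 2, min (e₀ (par i)) (e₀ (i + 1)),
        by have := hK (par i); have := hK (i + 1); positivity, lt_min (he₀ _) (he₀ _),
        fun e he hee => ⟨fun v => ?_, -(S (i + 1) e ^ 2 - (S (par i) e - C (sh a i))), fun v => ?_⟩⟩
      · have b1 := hδbd (par i) hpi e he (hee.trans (min_le_left _ _)) v
        have b2 := hδbd (i + 1) hi1 e he (hee.trans (min_le_right _ _)) v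
        have b3 := hB a ha (n + 1) v.1 v.2 (i + 1) (by omega)
        rw [hx]
        refine (norm_sub_le _ _).trans ?_
        rw [norm_mul, norm_mul, Complex.norm_ofNat]
        have t1 : 2 * ‖v.1 (i + 1)‖ * ‖δ (i + 1) e v‖ ≤ 4 * (K (i + 1) * e) := by
          have : 2 * ‖v.1 (i + 1)‖ ≤ 4 := by linarith
          exact mul_le_mul this b2 (norm_nonneg _) (by norm_num)
        have t2 : 0 ≤ K (i + 1) ^ 2 * e := by have := hK (i + 1); positivity
        nlinarith
      · have b2 := hδbd (i + 1) hi1 e he (hee.trans (min_le_right _ _)) v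
        have hrel := v.2.2 i (by omega)
        rw [hx]
        have e1 : eval (Pe ε n e v.1) (-(S (i + 1) e ^ 2 - (S (par i) e - C (sh a i)))) -
            (δ (par i) e v - 2 * v.1 (i + 1) * δ (i + 1) e v) = -(δ (i + 1) e v) ^ 2 := by
          simp only [map_neg, map_sub, map_pow, eval_C, δ]
          linear_combination -hrel
        rw [e1, norm_neg, norm_pow]
        have t1 : ‖δ (i + 1) e v‖ ^ 2 ≤ (K (i + 1) * e) ^ 2 :=
          pow_le_pow_left₀ (norm_nonneg _) b2 2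
        have t2 : 0 ≤ K (par i) * e ^ 2 := by have := hK (par i); positivity
        have t3 : 0 ≤ 4 * K (i + 1) * e ^ 2 := by have := hK (i + 1); positivity
        nlinarith
    · refine key _ (fun i => (ε i : ℂ)) 1 1 (fun e v => ?_) (fun e v => ?_)
      · show σ e v - (∑ i ∈ Finset.range n, algebraMap ℂ R ((ε i : ℂ)) • δ (i + 1)) e v = _
        rw [hsumR (fun i => (ε i : ℂ)), one_mul]
      · simp [Pe, Pn]
    · refine key _ (fun i => (ε i : ℂ) * (i : ℂ)) (n : ℂ) 2 (fun e v => ?_) (fun e v => ?_)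
      · show (((n : R) • σ) e v) -
          (∑ i ∈ Finset.range n, algebraMap ℂ R ((ε i : ℂ) * (i : ℂ)) • δ (i + 1)) e v = _
        rw [hsumR (fun i => (ε i : ℂ) * (i : ℂ))]
        have : ((n : R) • σ) e v = (n : ℂ) * ((e : ℂ) * v.1 (n + 1)) := by
          show ((n : R).1 v) * σ e v = _
          have h2 : (n : R).1 v = (n : ℂ) := by
            have : (n : R).1 = ((n : V → ℂ)) := by simp
            rw [this]; rfl
          rw [h2]
        rw [this]
      · simp [Pe, Pn]; ring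
  obtain ⟨K', e', hK', he', h'⟩ := hmem
  refine ⟨K', e', hK', he', fun e he hee => ?_⟩
  obtain ⟨-, G, hG⟩ := h' e he hee
  refine ⟨C ((e : ℂ)⁻¹) * G, fun v hv => ?_⟩
  have h1 := hG ⟨v, hv⟩
  have h2 : ‖(e : ℂ)⁻¹ * (eval (Pe ε n e v) G - (e : ℂ) * v (n + 1))‖ ≤ e⁻¹ * (K' * e ^ 2) := by
    rw [norm_mul, norm_inv, Complex.norm_real, Real.norm_of_nonneg he.le]
    exact mul_le_mul_of_nonneg_left h1 (by positivity)
  have hne : (e : ℂ) ≠ 0 := by exact_mod_cast he.ne'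
  have e1 : eval (Pn ε n v ((e : ℂ) * v (n + 1)) ((e : ℂ) * (n : ℂ) * v (n + 1)))
      (C ((e : ℂ)⁻¹) * G) - v (n + 1) =
      (e : ℂ)⁻¹ * (eval (Pe ε n e v) G - (e : ℂ) * v (n + 1)) := by
    rw [map_mul, eval_C, mul_sub, ← mul_assoc (e : ℂ)⁻¹ (e : ℂ), inv_mul_cancel₀ hne, one_mul]
    rfl
  rw [e1]
  refine h2.trans (le_of_eq ?_)
  field_simp

end Pool.Agent.H136R4
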