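import Pool.Agent.H136R4.Stmts

/-! Task STEP of the project H136-GL (helper214): the Neumann series. -/

set_option autoImplicit false

namespace Pool.Agent.H136R4

open MvPolynomial

theorem step_Pn_succ (ε : ℕ → ℝ) (n : ℕ) (e : ℝ) (v : ℕ → ℂ) (h k : ℂ) :
    Pn (Function.update ε n e) (n + 1) v h k =
      Pn ε n v ((e : ℂ) * v (n + 1) + h) ((e : ℂ) * (n : ℂ) * v (n + 1) + k) := by
  have h1 : ∀ i ∈ Finset.range n, Function.update ε n e i = ε i := fun i hi =>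
    Function.update_of_ne (Finset.mem_range.1 hi).ne _ _
  have hs1 : ∑ i ∈ Finset.range n, ((Function.update ε n e i : ℝ) : ℂ) * v (i + 1)
      = ∑ i ∈ Finset.range n, (ε i : ℂ) * v (i + 1) :=
    Finset.sum_congr rfl fun i hi => by rw [h1 i hi]
  have hs2 : ∑ i ∈ Finset.range n, ((Function.update ε n e i : ℝ) : ℂ) * (i : ℂ) * v (i + 1)
      = ∑ i ∈ Finset.range n, (ε i : ℂ) * (i : ℂ) * v (i + 1) :=
    Finset.sum_congr rfl fun i hi => by rw [h1 i hi]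
  unfold Pn
  rw [Finset.sum_range_succ, Finset.sum_range_succ, Function.update_self, hs1, hs2, add_assoc,
    add_assoc]

theorem step_bdd (S : MvPolynomial (Fin 3) ℂ) (R : ℝ) :
    ∃ B : ℝ, 0 ≤ B ∧ ∀ w : Fin 3 → ℂ, (∀ i, ‖w i‖ ≤ R) → ‖eval w S‖ ≤ B := by
  have hc : IsCompact (Set.pi Set.univ fun _ : Fin 3 => Metric.closedBall (0 : ℂ) R) :=
    isCompact_univ_pi fun _ => isCompact_closedBall _ _
  obtain ⟨B, hB⟩ := hc.exists_bound_of_continuousOn (f := fun w : Fin 3 → ℂ => eval w S)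
    (MvPolynomial.continuous_eval S).continuousOn
  refine ⟨max B 0, le_max_right _ _, fun w hw => (hB w ?_).trans (le_max_left _ _)⟩
  intro i _
  rw [mem_closedBall_zero_iff]
  exact hw i

theorem step_sub {a : ℕ → ℂ} {n : ℕ} {v : ℕ → ℂ} (hv : v ∈ E a (n + 1)) : v ∈ E a n :=
  ⟨hv.1, fun i hi => hv.2 i (hi.trans (Nat.lt_succ_self n))⟩

theorem step_Pn_zero (ε : ℕ → ℝ) (n : ℕ) (v : ℕ → ℂ) :
    Pn ε n v 0 0 = ![v 0, ∑ i ∈ Finset.range n, (ε i : ℂ) * v (i + 1),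
      ∑ i ∈ Finset.range n, (ε i : ℂ) * (i : ℂ) * v (i + 1)] := by
  unfold Pn
  rw [add_zero, add_zero]

theorem step_Pn_bdd (hB : BoundStmt) {a : ℕ → ℂ} (ha : Adm a) (ε : ℕ → ℝ) (n : ℕ) (ρ : ℝ) :
    ∃ R : ℝ, ∀ v ∈ E a (n + 1), ∀ h k : ℂ, ‖h‖ ≤ ρ → ‖k‖ ≤ ρ → ∀ j, ‖Pn ε n v h k j‖ ≤ R := by
  refine ⟨1 + (∑ i ∈ Finset.range n, ‖(ε i : ℂ)‖ * 2) +
    (∑ i ∈ Finset.range n, ‖(ε i : ℂ) * (i : ℂ)‖ * 2) + max ρ 0, ?_⟩
  intro v hv h k hh hk j
  have hv2 : ∀ i < n, ‖v (i + 1)‖ ≤ 2 := fun i hi => hB a ha (n + 1) v hv (i + 1) (by omega)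
  have s1 : ‖∑ i ∈ Finset.range n, (ε i : ℂ) * v (i + 1)‖ ≤
      ∑ i ∈ Finset.range n, ‖(ε i : ℂ)‖ * 2 := by
    refine (norm_sum_le _ _).trans (Finset.sum_le_sum fun i hi => ?_)
    rw [norm_mul]
    exact mul_le_mul_of_nonneg_left (hv2 i (Finset.mem_range.1 hi)) (norm_nonneg _)
  have s2 : ‖∑ i ∈ Finset.range n, (ε i : ℂ) * (i : ℂ) * v (i + 1)‖ ≤
      ∑ i ∈ Finset.range n, ‖(ε i : ℂ) * (i : ℂ)‖ * 2 := by
    refine (norm_sum_le _ _).trans (Finset.sum_le_sum fun i hi => ?_)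
    rw [norm_mul]
    exact mul_le_mul_of_nonneg_left (hv2 i (Finset.mem_range.1 hi)) (norm_nonneg _)
  have p1 : 0 ≤ ∑ i ∈ Finset.range n, ‖(ε i : ℂ)‖ * 2 :=
    Finset.sum_nonneg fun i _ => by positivity
  have p2 : 0 ≤ ∑ i ∈ Finset.range n, ‖(ε i : ℂ) * (i : ℂ)‖ * 2 :=
    Finset.sum_nonneg fun i _ => by positivity
  have p3 : 0 ≤ max ρ 0 := le_max_right _ _
  have hh' : ‖h‖ ≤ max ρ 0 := hh.trans (le_max_left _ _)
  have hk' : ‖k‖ ≤ max ρ 0 := hk.trans (le_max_left _ _)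
  have hv0 : ‖v 0‖ ≤ 1 := hv.1
  fin_cases j
  · show ‖v 0‖ ≤ _
    linarith
  · show ‖(∑ i ∈ Finset.range n, (ε i : ℂ) * v (i + 1)) + h‖ ≤ _
    have := norm_add_le (∑ i ∈ Finset.range n, (ε i : ℂ) * v (i + 1)) h
    linarith
  · show ‖(∑ i ∈ Finset.range n, (ε i : ℂ) * (i : ℂ) * v (i + 1)) + k‖ ≤ _
    have := norm_add_le (∑ i ∈ Finset.range n, (ε i : ℂ) * (i : ℂ) * v (i + 1)) k
    linarith

/-- the Lipschitz estimate in the form used below -/
theorem step_lip (hLip : LipStmt) {ε : ℕ → ℝ} {n : ℕ} {v : ℕ → ℂ} {r B : ℝ} (hr : 0 < r)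
    {S : MvPolynomial (Fin 3) ℂ}
    (hS : ∀ h k : ℂ, ‖h‖ ≤ r → ‖k‖ ≤ r → ‖eval (Pn ε n v h k) S‖ ≤ B) {h k : ℂ} {η : ℝ}
    (hh : ‖h‖ ≤ η) (hk : ‖k‖ ≤ η) (hη : η ≤ r) :
    ‖eval (Pn ε n v h k) S - eval (Pn ε n v 0 0) S‖ ≤ 2 * B * η / r := by
  rw [step_Pn_zero]
  exact hLip S (v 0) _ _ r B hr hS h k η hh hk hη

theorem step_one (hB : BoundStmt) (hSp : SplitStmt) (hLow : LowStmt) (hLip : LipStmt)
    {a : ℕ → ℂ} (ha : Adm a) {ε : ℕ → ℝ} {n : ℕ} (hNA : NA a ε n) (hSA : SA a ε n) :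
    ∃ δ : ℝ, 0 < δ ∧ ∀ e : ℝ, 0 < e → e ≤ δ → ∃ M₁ r₁ : ℝ, 0 < M₁ ∧ 0 < r₁ ∧
      ∀ p ∈ PP (n + 1), ∀ L : ℝ, 0 < L → (∀ v ∈ E a (n + 1), ‖eval v p‖ ≤ L) →
      ∃ S : MvPolynomial (Fin 3) ℂ,
        (∀ v ∈ E a (n + 1),
          ‖eval (Pn (Function.update ε n e) (n + 1) v 0 0) S - eval v p‖ ≤ L / 2) ∧
        (∀ v ∈ E a (n + 1), ∀ h k : ℂ, ‖h‖ ≤ r₁ → ‖k‖ ≤ r₁ →
          ‖eval (Pn (Function.update ε n e) (n + 1) v h k) S‖ ≤ M₁ * L) := by
  obtain ⟨M, r, hM, hr, hna⟩ := hNA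
  obtain ⟨K, e₀, hK, he₀, hsa⟩ := hSA
  obtain ⟨C, hC, hlow⟩ := hLow a ha n
  have hn1 : (0 : ℝ) < (n : ℝ) + 1 := by positivity
  have hC0 : 0 < C := by linarith
  set K' : ℝ := 4 * M * ((n : ℝ) + 1) / r + 3 + K * M * C + 8 * M * C * ((n : ℝ) + 1) / r with hK'
  have hK'0 : 0 < K' := by rw [hK']; positivity
  refine ⟨min e₀ (min (r / (4 * ((n : ℝ) + 1))) (1 / (2 * K'))), by positivity, ?_⟩
  intro e he hle
  have hle0 : e ≤ e₀ := hle.trans (min_le_left _ _)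
  have hle1 : e ≤ r / (4 * ((n : ℝ) + 1)) := hle.trans ((min_le_right _ _).trans (min_le_left _ _))
  have hle2 : e ≤ 1 / (2 * K') := hle.trans ((min_le_right _ _).trans (min_le_right _ _))
  rw [le_div_iff₀ (by positivity)] at hle1 hle2
  obtain ⟨Es, hEs⟩ := hsa e he hle0
  obtain ⟨R, hR⟩ := step_Pn_bdd hB ha ε n r
  obtain ⟨Be, hBe0, hBe⟩ := step_bdd Es R
  refine ⟨M + Be * (M * C), r / 2, by positivity, by positivity, ?_⟩
  intro p hp L hL hpL
  obtain ⟨p₀, hp₀, p₁, hp₁, hsplit⟩ := hSp a n p hp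
  have hbd := hlow p₀ hp₀ p₁ hp₁ L (fun v hv => by rw [← hsplit v hv]; exact hpL v hv)
  obtain ⟨X₀, hX₀a, hX₀b⟩ := hna p₀ hp₀ L (fun v hv => (hbd v hv).1) (e * L) (by positivity)
  obtain ⟨X₁, hX₁a, hX₁b⟩ := hna p₁ hp₁ (C * L) (fun v hv => (hbd v hv).2) (e * L) (by positivity)
  -- the size of the increments
  set η : ℝ := 2 * e * ((n : ℝ) + 1) with hη
  have hη2 : η ≤ r / 2 := by rw [hη]; linarith
  have hηr : η ≤ r := by linarith
  have hη0 : 0 < η := by rw [hη]; positivity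
  have hinc : ∀ v ∈ E a (n + 1), ‖(e : ℂ) * v (n + 1)‖ ≤ η ∧
      ‖(e : ℂ) * (n : ℂ) * v (n + 1)‖ ≤ η := by
    intro v hv
    have h2 : ‖v (n + 1)‖ ≤ 2 := hB a ha (n + 1) v hv (n + 1) le_rfl
    have hen : ‖(e : ℂ)‖ = e := by rw [Complex.norm_real, Real.norm_of_nonneg he.le]
    constructor
    · rw [norm_mul, hen, hη]
      have hn0 : (0 : ℝ) ≤ (n : ℝ) := Nat.cast_nonneg n
      nlinarith [mul_le_mul_of_nonneg_left h2 he.le, mul_nonneg he.le hn0]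
    · rw [norm_mul, norm_mul, hen, Complex.norm_natCast, hη]
      have hn0 : (0 : ℝ) ≤ (n : ℝ) := Nat.cast_nonneg n
      nlinarith [mul_le_mul_of_nonneg_left h2 (mul_nonneg he.le hn0)]
  refine ⟨X₀ + Es * X₁, ?_, ?_⟩
  · intro v hv
    have hvn := step_sub hv
    obtain ⟨hi1, hi2⟩ := hinc v hv
    rw [step_Pn_succ, add_zero, add_zero, map_add, map_mul, hsplit v hv]
    set x : Fin 3 → ℂ := Pn ε n v ((e : ℂ) * v (n + 1)) ((e : ℂ) * (n : ℂ) * v (n + 1)) with hx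
    have l0 := step_lip hLip hr (fun h k => hX₀b v hvn h k) hi1 hi2 hηr
    have l1 := step_lip hLip hr (fun h k => hX₁b v hvn h k) hi1 hi2 hηr
    rw [← hx] at l0 l1
    have b0 := hX₀a v hvn
    have b1 := hX₁a v hvn
    have c0 : ‖eval x X₀ - eval v p₀‖ ≤ 2 * (M * L) * η / r + e * L := by
      have h5 : eval x X₀ - eval v p₀ = (eval x X₀ - eval (Pn ε n v 0 0) X₀) +
        (eval (Pn ε n v 0 0) X₀ - eval v p₀) := by ring
      rw [h5]
      exact (norm_add_le _ _).trans (add_le_add l0 b0)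
    have c1 : ‖eval x X₁ - eval v p₁‖ ≤ 2 * (M * (C * L)) * η / r + e * L := by
      have h5 : eval x X₁ - eval v p₁ = (eval x X₁ - eval (Pn ε n v 0 0) X₁) +
        (eval (Pn ε n v 0 0) X₁ - eval v p₁) := by ring
      rw [h5]
      exact (norm_add_le _ _).trans (add_le_add l1 b1)
    have d1 : ‖eval x X₁‖ ≤ M * (C * L) := hX₁b v hvn _ _ (hi1.trans hηr) (hi2.trans hηr)
    have d2 : ‖eval x Es - v (n + 1)‖ ≤ K * e := hEs v hv
    have d3 : ‖v (n + 1)‖ ≤ 2 := hB a ha (n + 1) v hv (n + 1) le_rfl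
    have h6 : eval x X₀ + eval x Es * eval x X₁ - (eval v p₀ + v (n + 1) * eval v p₁) =
        (eval x X₀ - eval v p₀) + (eval x Es - v (n + 1)) * eval x X₁ +
          v (n + 1) * (eval x X₁ - eval v p₁) := by ring
    rw [h6]
    have h7 : ‖(eval x X₀ - eval v p₀) + (eval x Es - v (n + 1)) * eval x X₁ +
          v (n + 1) * (eval x X₁ - eval v p₁)‖ ≤
        (2 * (M * L) * η / r + e * L) + (K * e) * (M * (C * L)) +
          2 * (2 * (M * (C * L)) * η / r + e * L) := by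
      refine (norm_add_le _ _).trans (add_le_add ((norm_add_le _ _).trans (add_le_add c0 ?_)) ?_)
      · rw [norm_mul]
        exact mul_le_mul d2 d1 (norm_nonneg _) (by positivity)
      · rw [norm_mul]
        exact mul_le_mul d3 c1 (norm_nonneg _) (by norm_num)
    refine h7.trans ?_
    have h8 : (2 * (M * L) * η / r + e * L) + (K * e) * (M * (C * L)) +
          2 * (2 * (M * (C * L)) * η / r + e * L) = (e * K') * L := by
      rw [hη, hK']
      field_simp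
      ring
    rw [h8]
    have h9 : e * K' ≤ 1 / 2 := by linarith
    have := mul_le_mul_of_nonneg_right h9 hL.le
    linarith
  · intro v hv h k hh hk
    have hvn := step_sub hv
    obtain ⟨hi1, hi2⟩ := hinc v hv
    rw [step_Pn_succ, map_add, map_mul]
    have g1 : ‖(e : ℂ) * v (n + 1) + h‖ ≤ r := by
      refine (norm_add_le _ _).trans ?_
      linarith
    have g2 : ‖(e : ℂ) * (n : ℂ) * v (n + 1) + k‖ ≤ r := by
      refine (norm_add_le _ _).trans ?_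
      linarith
    have d0 := hX₀b v hvn _ _ g1 g2
    have d1 := hX₁b v hvn _ _ g1 g2
    have d2 := hBe _ (hR v hv _ _ g1 g2)
    refine (norm_add_le _ _).trans ?_
    rw [norm_mul]
    have h3 := mul_le_mul d2 d1 (norm_nonneg _) hBe0
    have h4 : (M + Be * (M * C)) * L = M * L + Be * (M * (C * L)) := by ring
    rw [h4]
    exact add_le_add d0 h3

/-- the polynomials of the coordinates of `Pn` -/
noncomputable def stepQ (ε : ℕ → ℝ) (n : ℕ) : Fin 3 → MvPolynomial ℕ ℂ :=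
  ![X 0, ∑ i ∈ Finset.range n, C (ε i : ℂ) * X (i + 1),
    ∑ i ∈ Finset.range n, C ((ε i : ℂ) * (i : ℂ)) * X (i + 1)]

theorem stepQ_eval (ε : ℕ → ℝ) (n : ℕ) (v : ℕ → ℂ) (j : Fin 3) :
    eval v (stepQ ε n j) = Pn ε n v 0 0 j := by
  rw [step_Pn_zero]
  fin_cases j
  · simp [stepQ]
  · simp [stepQ, map_sum]
  · simp [stepQ, map_sum]

theorem stepQ_mem (ε : ℕ → ℝ) (n : ℕ) (j : Fin 3) : stepQ ε n j ∈ PP n := by
  have hX : ∀ i ≤ n, (X i : MvPolynomial ℕ ℂ) ∈ PP n := fun i hi =>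
    MvPolynomial.X_mem_supported.2 hi
  have hCm : ∀ c : ℂ, (C c : MvPolynomial ℕ ℂ) ∈ PP n := fun c =>
    (PP n).algebraMap_mem c
  fin_cases j
  · exact hX 0 (Nat.zero_le _)
  · exact Subalgebra.sum_mem _ fun i hi =>
      (PP n).mul_mem (hCm _) (hX (i + 1) (Nat.succ_le_of_lt (Finset.mem_range.1 hi)))
  · exact Subalgebra.sum_mem _ fun i hi =>
      (PP n).mul_mem (hCm _) (hX (i + 1) (Nat.succ_le_of_lt (Finset.mem_range.1 hi)))

theorem step_aeval_mem (ε : ℕ → ℝ) (n : ℕ) (S : MvPolynomial (Fin 3) ℂ) :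
    aeval (stepQ ε n) S ∈ PP n := by
  have h1 : aeval (stepQ ε n) S ∈ (aeval (stepQ ε n) : MvPolynomial (Fin 3) ℂ →ₐ[ℂ] _).range :=
    ⟨S, rfl⟩
  rw [← Algebra.adjoin_range_eq_range_aeval] at h1
  refine Algebra.adjoin_le ?_ h1
  rintro _ ⟨j, rfl⟩
  exact stepQ_mem ε n j

theorem step_aeval_eval (ε : ℕ → ℝ) (n : ℕ) (S : MvPolynomial (Fin 3) ℂ) (v : ℕ → ℂ) :
    eval v (aeval (stepQ ε n) S) = eval (Pn ε n v 0 0) S := by
  have h1 : (fun j => aeval v (stepQ ε n j)) = Pn ε n v 0 0 := by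
    funext j
    rw [← stepQ_eval]
    exact congrFun (MvPolynomial.coe_aeval_eq_eval v ▸ rfl) _
  have h2 := MvPolynomial.comp_aeval_apply (stepQ ε n) (aeval v : MvPolynomial ℕ ℂ →ₐ[ℂ] ℂ) S
  rw [h1] at h2
  simpa [MvPolynomial.coe_aeval_eq_eval] using h2

theorem stepStmt : BoundStmt → SplitStmt → LowStmt → LipStmt → StepStmt := by
  intro hB hSp hLow hLip a ha ε n _ hNA hSA
  obtain ⟨δ, hδ, hone⟩ := step_one hB hSp hLow hLip ha hNA hSA
  refine ⟨δ, hδ, fun e he hle => ?_⟩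
  obtain ⟨M₁, r₁, hM₁, hr₁, hstep⟩ := hone e he hle
  set ε' := Function.update ε n e with hε'
  refine ⟨2 * M₁, r₁, by positivity, hr₁, ?_⟩
  intro p hp L hpL θ hθ
  rcases le_or_gt L 0 with hL | hL
  · -- `p = 0` on `E a (n + 1)`
    refine ⟨0, ?_, ?_⟩
    · intro v hv
      have h1 := (hpL v hv).trans hL
      rw [map_zero, zero_sub, norm_neg]
      exact h1.trans hθ.le
    · intro v hv h k _ _
      have h1 := (norm_nonneg _).trans (hpL v hv)
      rw [map_zero, norm_zero]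
      positivity
  · -- iteration
    have hit : ∀ k : ℕ, ∃ S : MvPolynomial (Fin 3) ℂ,
        (∀ v ∈ E a (n + 1), ‖eval (Pn ε' (n + 1) v 0 0) S - eval v p‖ ≤ L / 2 ^ k) ∧
        (∀ v ∈ E a (n + 1), ∀ h k' : ℂ, ‖h‖ ≤ r₁ → ‖k'‖ ≤ r₁ →
          ‖eval (Pn ε' (n + 1) v h k') S‖ ≤ 2 * M₁ * L * (1 - 1 / 2 ^ k)) := by
      intro k
      induction k with
      | zero =>
        refine ⟨0, ?_, ?_⟩
        · intro v hv
          rw [map_zero, zero_sub, norm_neg, pow_zero, div_one]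
          exact hpL v hv
        · intro v hv h k' _ _
          simp
      | succ k ih =>
        obtain ⟨S, hS1, hS2⟩ := ih
        have hq : p - aeval (stepQ ε' (n + 1)) S ∈ PP (n + 1) :=
          (PP (n + 1)).sub_mem hp (step_aeval_mem _ _ _)
        have hLk : 0 < L / 2 ^ k := by positivity
        obtain ⟨S', hS'1, hS'2⟩ := hstep _ hq (L / 2 ^ k) hLk (fun v hv => by
          rw [map_sub, step_aeval_eval, norm_sub_rev]
          exact hS1 v hv)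
        refine ⟨S + S', ?_, ?_⟩
        · intro v hv
          have h1 := hS'1 v hv
          rw [map_sub, step_aeval_eval] at h1
          have h2 : eval (Pn ε' (n + 1) v 0 0) (S + S') - eval v p =
              eval (Pn ε' (n + 1) v 0 0) S' - (eval v p - eval (Pn ε' (n + 1) v 0 0) S) := by
            rw [map_add]; ring
          rw [h2]
          refine h1.trans (le_of_eq ?_)
          rw [pow_succ]
          field_simp
        · intro v hv h k' hh hk'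
          rw [map_add]
          refine (norm_add_le _ _).trans ?_
          have h1 := hS2 v hv h k' hh hk'
          have h2 := hS'2 v hv h k' hh hk'
          refine (add_le_add h1 h2).trans (le_of_eq ?_)
          rw [pow_succ]
          field_simp
          ring
    obtain ⟨k, hk⟩ := exists_pow_lt_of_lt_one (show 0 < θ / L by positivity)
      (show (1 / 2 : ℝ) < 1 by norm_num)
    obtain ⟨S, hS1, hS2⟩ := hit k
    refine ⟨S, ?_, ?_⟩
    · intro v hv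
      refine (hS1 v hv).trans ?_
      rw [lt_div_iff₀ hL] at hk
      have : L / 2 ^ k = (1 / 2) ^ k * L := by
        rw [one_div, inv_pow]
        field_simp
      rw [this]
      exact hk.le
    · intro v hv h k' hh hk'
      refine (hS2 v hv h k' hh hk').trans ?_
      have h1 : (0 : ℝ) ≤ 1 / 2 ^ k := by positivity
      have h2 : 0 ≤ 2 * M₁ * L := by positivity
      nlinarith [mul_nonneg h2 h1]

end Pool.Agent.H136R4
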