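import Pool.Agent.H136R4.Stmts

set_option autoImplicit false
set_option maxHeartbeats 4000000
set_option synthInstance.maxHeartbeats 400000

/-!
Project H136-GL, task TRUNC: truncation and compactness.
-/

namespace Pool.Agent.H136R4

open MvPolynomial

namespace TruncAux

theorem mem_E {a : ℕ → ℂ} {v : ℕ → ℂ} (hv : v ∈ Y a) (n : ℕ) : v ∈ E a n :=
  ⟨hv.1, fun i _ => hv.2 i⟩

theorem norm_le {a : ℕ → ℂ} (hb : BoundStmt) (ha : Adm a) {v : ℕ → ℂ} (hv : v ∈ Y a) (i : ℕ) :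
    ‖v i‖ ≤ 2 := hb a ha i v (mem_E hv i) i le_rfl

theorem term1_le {a : ℕ → ℂ} (hb : BoundStmt) (ha : Adm a) {ε : ℕ → ℝ} (hε : Lim a ε)
    {v : ℕ → ℂ} (hv : v ∈ Y a) (i : ℕ) : ‖(ε i : ℂ) * v (i + 1)‖ ≤ 2 * (1 / 2) ^ i := by
  rw [norm_mul, Complex.norm_real, Real.norm_of_nonneg (hε.pos i).le]
  have h1 := hε.le i
  have h2 := norm_le hb ha hv (i + 1)
  have h3 := (hε.pos i).le
  have h4 : ε i ≤ (1 / 2) ^ i := by
    have : (0 : ℝ) ≤ i * ε i := by positivity
    linarith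
  calc ε i * ‖v (i + 1)‖ ≤ (1 / 2) ^ i * 2 :=
        mul_le_mul h4 h2 (norm_nonneg _) (by positivity)
    _ = _ := mul_comm _ _

theorem term2_le {a : ℕ → ℂ} (hb : BoundStmt) (ha : Adm a) {ε : ℕ → ℝ} (hε : Lim a ε)
    {v : ℕ → ℂ} (hv : v ∈ Y a) (i : ℕ) :
    ‖(ε i : ℂ) * (i : ℂ) * v (i + 1)‖ ≤ 2 * (1 / 2) ^ i := by
  rw [norm_mul, norm_mul, Complex.norm_real, Real.norm_of_nonneg (hε.pos i).le,
    Complex.norm_natCast]
  have h1 := hε.le i
  have h2 := norm_le hb ha hv (i + 1)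
  have h3 := (hε.pos i).le
  have h4 : ε i * i ≤ (1 / 2) ^ i := by linarith
  calc ε i * i * ‖v (i + 1)‖ ≤ (1 / 2) ^ i * 2 :=
        mul_le_mul h4 h2 (norm_nonneg _) (by positivity)
    _ = _ := mul_comm _ _

theorem summable_geo : Summable fun i : ℕ => 2 * (1 / 2 : ℝ) ^ i :=
  (summable_geometric_of_lt_one (by norm_num) (by norm_num)).mul_left 2

theorem tsum_geo : ∑' i : ℕ, 2 * (1 / 2 : ℝ) ^ i = 4 := by
  rw [tsum_mul_left, tsum_geometric_of_lt_one (by norm_num) (by norm_num)]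
  norm_num

theorem tail_le (f : ℕ → ℂ) (hf : ∀ i, ‖f i‖ ≤ 2 * (1 / 2) ^ i) (n : ℕ) :
    ‖∑' i, f i - ∑ i ∈ Finset.range n, f i‖ ≤ 4 * (1 / 2) ^ n := by
  have hs : Summable f := Summable.of_norm_bounded summable_geo hf
  have h1 := hs.sum_add_tsum_nat_add n
  have h2 : ∑' i, f i - ∑ i ∈ Finset.range n, f i = ∑' i, f (i + n) := by
    rw [← h1]
    ring
  rw [h2]
  have h3 : ∀ i, ‖f (i + n)‖ ≤ (2 * (1 / 2) ^ i) * (1 / 2) ^ n := by
    intro i
    refine (hf (i + n)).trans (le_of_eq ?_)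
    rw [pow_add]
    ring
  have h4 := tsum_of_norm_bounded ((summable_geo.mul_right ((1 / 2 : ℝ) ^ n)).hasSum) h3
  rw [tsum_mul_right, tsum_geo] at h4
  exact h4

theorem sum_le (f : ℕ → ℂ) (hf : ∀ i, ‖f i‖ ≤ 2 * (1 / 2) ^ i) (n : ℕ) :
    ‖∑ i ∈ Finset.range n, f i‖ ≤ 4 := by
  refine (norm_sum_le _ _).trans ?_
  refine (Finset.sum_le_sum fun i _ => hf i).trans ?_
  rw [← tsum_geo]
  exact summable_geo.sum_le_tsum _ fun i _ => by positivity

theorem aeval_mem (n : ℕ) (f : Fin 3 → MvPolynomial ℕ ℂ) (hf : ∀ i, f i ∈ PP n)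
    (p : MvPolynomial (Fin 3) ℂ) : aeval f p ∈ PP n := by
  induction p using MvPolynomial.induction_on with
  | C a =>
    rw [aeval_C]
    exact Subalgebra.algebraMap_mem _ a
  | add p q hp hq =>
    rw [map_add]
    exact add_mem hp hq
  | mul_X p i hp =>
    rw [map_mul, aeval_X]
    exact mul_mem hp (hf i)

theorem eval_aeval (f : Fin 3 → MvPolynomial ℕ ℂ) (v : ℕ → ℂ) (p : MvPolynomial (Fin 3) ℂ) :
    eval v (aeval f p) = eval (fun i => eval v (f i)) p := by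
  induction p using MvPolynomial.induction_on with
  | C a => simp
  | add p q hp hq => rw [map_add, map_add, hp, hq, map_add]
  | mul_X p i hp => rw [map_mul, aeval_X, map_mul, hp, map_mul, eval_X]

theorem X_mem {n i : ℕ} (hi : i ≤ n) : (X i : MvPolynomial ℕ ℂ) ∈ PP n := by
  unfold PP MvPolynomial.supported
  apply Algebra.subset_adjoin
  exact ⟨i, hi, rfl⟩

theorem C_mem (n : ℕ) (c : ℂ) : (C c : MvPolynomial ℕ ℂ) ∈ PP n :=
  Subalgebra.algebraMap_mem (PP n) c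

end TruncAux

open TruncAux in
theorem truncStmt : BoundStmt → TruncStmt := by
  intro hb a ha ε hε p θ hθ
  have hcont : Continuous fun w : Fin 3 → ℂ => eval w p := MvPolynomial.continuous_eval p
  have hcomp : IsCompact (Metric.closedBall (0 : Fin 3 → ℂ) 5) := isCompact_closedBall _ _
  have huc := hcomp.uniformContinuousOn_of_continuous hcont.continuousOn
  rw [Metric.uniformContinuousOn_iff] at huc
  obtain ⟨δ, hδ, huc⟩ := huc θ hθ
  obtain ⟨n, hn⟩ := exists_pow_lt_of_lt_one (show (0 : ℝ) < δ / 4 by positivity)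
    (show (1 / 2 : ℝ) < 1 by norm_num)
  set f : Fin 3 → MvPolynomial ℕ ℂ := ![X 0, ∑ i ∈ Finset.range n, C (ε i : ℂ) * X (i + 1),
    ∑ i ∈ Finset.range n, C ((ε i : ℂ) * (i : ℂ)) * X (i + 1)] with hf
  have hfm : ∀ i, f i ∈ PP n := by
    intro i
    fin_cases i
    · exact X_mem (Nat.zero_le _)
    · change (∑ i ∈ Finset.range n, C (ε i : ℂ) * X (i + 1) : MvPolynomial ℕ ℂ) ∈ PP n
      refine sum_mem fun i hi => ?_
      exact mul_mem (C_mem n _) (X_mem (Finset.mem_range.mp hi))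
    · change (∑ i ∈ Finset.range n, C ((ε i : ℂ) * (i : ℂ)) * X (i + 1) : MvPolynomial ℕ ℂ) ∈ PP n
      refine sum_mem fun i hi => ?_
      exact mul_mem (C_mem n _) (X_mem (Finset.mem_range.mp hi))
  refine ⟨n, aeval f p, aeval_mem n f hfm p, fun v hv => ?_⟩
  rw [eval_aeval]
  set w := fun i => eval v (f i) with hw
  have hw0 : w 0 = v 0 := by simp [hw, hf]
  have hw1 : w 1 = ∑ i ∈ Finset.range n, (ε i : ℂ) * v (i + 1) := by simp [hw, hf]
  have hw2 : w 2 = ∑ i ∈ Finset.range n, (ε i : ℂ) * (i : ℂ) * v (i + 1) := by simp [hw, hf]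
  have hP0 : Phi ε v 0 = v 0 := rfl
  have hP1 : Phi ε v 1 = ∑' i : ℕ, (ε i : ℂ) * v (i + 1) := rfl
  have hP2 : Phi ε v 2 = ∑' i : ℕ, (ε i : ℂ) * (i : ℂ) * v (i + 1) := rfl
  have t1 := term1_le hb ha hε hv
  have t2 := term2_le hb ha hε hv
  have hv0 := norm_le hb ha hv 0
  have hwb : w ∈ Metric.closedBall (0 : Fin 3 → ℂ) 5 := by
    rw [mem_closedBall_zero_iff, pi_norm_le_iff_of_nonneg (by norm_num)]
    intro i
    fin_cases i
    · change ‖w 0‖ ≤ 5
      rw [hw0]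
      linarith
    · change ‖w 1‖ ≤ 5
      rw [hw1]
      linarith [sum_le _ t1 n]
    · change ‖w 2‖ ≤ 5
      rw [hw2]
      linarith [sum_le _ t2 n]
  have hPb : Phi ε v ∈ Metric.closedBall (0 : Fin 3 → ℂ) 5 := by
    have h0 : ∀ g : ℕ → ℂ, (∀ i, ‖g i‖ ≤ 2 * (1 / 2) ^ i) → ‖∑' i, g i‖ ≤ 5 := by
      intro g hg
      have := tsum_of_norm_bounded summable_geo.hasSum hg
      rw [tsum_geo] at this
      linarith
    rw [mem_closedBall_zero_iff, pi_norm_le_iff_of_nonneg (by norm_num)]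
    intro i
    fin_cases i
    · change ‖Phi ε v 0‖ ≤ 5
      rw [hP0]
      linarith
    · change ‖Phi ε v 1‖ ≤ 5
      rw [hP1]
      exact h0 _ t1
    · change ‖Phi ε v 2‖ ≤ 5
      rw [hP2]
      exact h0 _ t2
  have hdist : dist (Phi ε v) w < δ := by
    have hδ4 : 4 * (1 / 2 : ℝ) ^ n < δ := by linarith
    rw [dist_eq_norm, pi_norm_lt_iff hδ]
    intro i
    fin_cases i
    · change ‖Phi ε v 0 - w 0‖ < δ
      rw [hP0, hw0, sub_self, norm_zero]
      exact hδ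
    · change ‖Phi ε v 1 - w 1‖ < δ
      rw [hP1, hw1]
      exact (tail_le _ t1 n).trans_lt hδ4
    · change ‖Phi ε v 2 - w 2‖ < δ
      rw [hP2, hw2]
      exact (tail_le _ t2 n).trans_lt hδ4
  have h := huc _ hPb _ hwb hdist
  rw [dist_eq_norm] at h
  exact h.le

open TruncAux in
theorem compactStmt : BoundStmt → CompactStmt := by
  intro hb a ha ε hε
  set K : Set (ℕ → ℂ) := {v | v ∈ Y a ∧ ‖v 0‖ = 1} with hK
  have hXX : XX a ε = Phi ε '' K := by
    ext w
    constructor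
    · rintro ⟨v, hv, hv0, rfl⟩
      exact ⟨v, ⟨hv, hv0⟩, rfl⟩
    · rintro ⟨v, ⟨hv, hv0⟩, rfl⟩
      exact ⟨v, hv, hv0, rfl⟩
  have hKc : IsClosed K := by
    have h1 : K = {v : ℕ → ℂ | ‖v 0‖ ≤ 1} ∩ (⋂ i : ℕ, {v : ℕ → ℂ | v (i + 1) ^ 2 =
        v (par i) - sh a i}) ∩ {v : ℕ → ℂ | ‖v 0‖ = 1} := by
      ext v
      simp only [hK, Y, Set.mem_ofPred_eq, Set.mem_inter_iff, Set.mem_iInter]
    rw [h1]
    refine (IsClosed.inter ?_ (isClosed_iInter fun i => ?_)).inter ?_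
    · exact isClosed_le ((continuous_apply 0).norm) continuous_const
    · exact isClosed_eq ((continuous_apply (i + 1)).pow 2)
        ((continuous_apply (par i)).sub continuous_const)
    · exact isClosed_eq ((continuous_apply 0).norm) continuous_const
  have hKcomp : IsCompact K := by
    have h1 : IsCompact (Set.pi Set.univ fun _ : ℕ => Metric.closedBall (0 : ℂ) 2) :=
      isCompact_univ_pi fun _ => isCompact_closedBall _ _
    refine h1.of_isClosed_subset hKc ?_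
    intro v hv i _
    rw [mem_closedBall_zero_iff]
    exact norm_le hb ha hv.1 i
  rw [hXX]
  apply hKcomp.image_of_continuousOn
  rw [continuousOn_pi]
  intro i
  fin_cases i
  · change ContinuousOn (fun v : ℕ → ℂ => v 0) K
    exact (continuous_apply 0).continuousOn
  · change ContinuousOn (fun v : ℕ → ℂ => ∑' i : ℕ, (ε i : ℂ) * v (i + 1)) K
    refine continuousOn_tsum (fun i => ?_) summable_geo (fun i v hv => ?_)
    · exact (continuous_const.mul (continuous_apply (i + 1))).continuousOn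
    · exact term1_le hb ha hε hv.1 i
  · change ContinuousOn (fun v : ℕ → ℂ => ∑' i : ℕ, (ε i : ℂ) * (i : ℂ) * v (i + 1)) K
    refine continuousOn_tsum (fun i => ?_) summable_geo (fun i v hv => ?_)
    · exact (continuous_const.mul (continuous_apply (i + 1))).continuousOn
    · exact term2_le hb ha hε hv.1 i

end Pool.Agent.H136R4
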